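import Mathlib

/-!
# Edge cuts in cubic multigraphs given by two end functions
-/

namespace Pool.Agent.helper60.ECD

open Finset

set_option linter.unusedSectionVars false

universe u v

variable {V : Type u} {E : Type v} [Fintype V] [Fintype E] [DecidableEq V] [DecidableEq E]

/-- the edges with exactly one end in `A` -/
def cutS (a b : E → V) (A : Finset V) : Finset E := univ.filter (fun e => ¬ (a e ∈ A ↔ b e ∈ A))

/-- the number of edges with exactly one end in `A` -/
def cut (a b : E → V) (A : Finset V) : ℕ := (cutS a b A).card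

/-- the edges at a vertex -/
def starS (a b : E → V) (x : V) : Finset E := univ.filter (fun e => a e = x ∨ b e = x)

lemma mem_cutS {a b : E → V} {A : Finset V} {e : E} :
    e ∈ cutS a b A ↔ ¬ (a e ∈ A ↔ b e ∈ A) := by simp [cutS]

lemma mem_starS {a b : E → V} {x : V} {e : E} :
    e ∈ starS a b x ↔ (a e = x ∨ b e = x) := by simp [starS]

lemma cutS_compl (a b : E → V) (A : Finset V) : cutS a b Aᶜ = cutS a b A := by
  ext e
  simp only [mem_cutS, Finset.mem_compl]
  tauto

lemma cut_compl (a b : E → V) (A : Finset V) : cut a b Aᶜ = cut a b A := by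
  unfold cut; rw [cutS_compl]

/-- sum of degrees -/
lemma sum_deg (a b : E → V) (hne : ∀ e, a e ≠ b e) (A : Finset V) :
    ∑ x ∈ A, (starS a b x).card =
      cut a b A + 2 * (univ.filter (fun e => a e ∈ A ∧ b e ∈ A)).card := by
  have h1 : ∑ x ∈ A, (starS a b x).card =
      ∑ e : E, ((if a e ∈ A then 1 else 0) + (if b e ∈ A then 1 else 0)) := by
    have : ∀ x ∈ A, (starS a b x).card =
        ∑ e : E, ((if a e = x then 1 else 0) + (if b e = x then 1 else 0)) := by
      intro x _
      rw [starS, Finset.card_filter]
      refine Finset.sum_congr rfl fun e _ => ?_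
      have := hne e
      by_cases h1 : a e = x
      · have h2 : ¬ b e = x := fun h2 => this (h1.trans h2.symm)
        simp [h1, h2]
      · by_cases h2 : b e = x
        · simp [h1, h2]
        · simp [h1, h2]
    rw [Finset.sum_congr rfl this, Finset.sum_comm]
    refine Finset.sum_congr rfl fun e _ => ?_
    rw [Finset.sum_add_distrib]
    simp
  rw [h1, cut, cutS, Finset.card_filter, Finset.card_filter, Finset.mul_sum,
    ← Finset.sum_add_distrib]
  refine Finset.sum_congr rfl fun e _ => ?_
  by_cases h1 : a e ∈ A <;> by_cases h2 : b e ∈ A <;> simp [h1, h2]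

lemma cubic_cut (a b : E → V) (hne : ∀ e, a e ≠ b e) (hc : ∀ x, (starS a b x).card = 3)
    (A : Finset V) :
    3 * A.card = cut a b A + 2 * (univ.filter (fun e => a e ∈ A ∧ b e ∈ A)).card := by
  rw [← sum_deg a b hne A, Finset.sum_congr rfl (fun x _ => hc x)]
  simp [mul_comm]

lemma cut_parity (a b : E → V) (hne : ∀ e, a e ≠ b e) (hc : ∀ x, (starS a b x).card = 3)
    (A : Finset V) : cut a b A % 2 = A.card % 2 := by
  have := cubic_cut a b hne hc A
  omega

lemma even_card (a b : E → V) (hne : ∀ e, a e ≠ b e) (hc : ∀ x, (starS a b x).card = 3) :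
    Fintype.card V % 2 = 0 := by
  have := cut_parity a b hne hc univ
  have h2 : cut a b univ = 0 := by simp [cut, cutS]
  rw [h2, Finset.card_univ] at this
  omega

end Pool.Agent.helper60.ECD
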