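import Mathlib
import Pool.Agent.helper60.ECD.Cut

/-!
# A perfect matching through a given edge of a bridgeless cubic multigraph
-/

namespace Pool.Agent.helper60.ECD

open Finset

universe u v w

variable {V : Type u} {E : Type v} [Fintype V] [Fintype E] [DecidableEq V] [DecidableEq E]

lemma odd_count {W : Type w} [Finite W] (a b : E → V) (hne : ∀ e, a e ≠ b e)
    (hc : ∀ x, (starS a b x).card = 3)
    (h2 : ∀ A : Finset V, A.Nonempty → Aᶜ.Nonempty → 2 ≤ cut a b A)
    (K : SimpleGraph W) (f : W → V) (hf : Function.Injective f) (S : Finset V)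
    (hS : ∀ x, x ∈ S ↔ ∀ y, f y ≠ x)
    (hadj : ∀ y y' e, y ≠ y' → s(a e, b e) = s(f y, f y') → K.Adj y y') (hSne : S.Nonempty) :
    3 * K.oddComponents.ncard ≤ cut a b S := by
  classical
  have _ := Fintype.ofFinite W
  let A : K.ConnectedComponent → Finset V := fun c => univ.filter (fun x => ∃ y ∈ c.supp, f y = x)
  have hAmem : ∀ c x, x ∈ A c ↔ ∃ y ∈ c.supp, f y = x := by
    intro c x; simp [A]
  have hAcard : ∀ c, (A c).card = c.supp.ncard := by
    intro c
    rw [← Set.ncard_coe_finset]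
    have : ((A c : Finset V) : Set V) = f '' c.supp := by
      ext x; simp [A]
    rw [this, Set.ncard_image_of_injective _ hf]
  have hfS : ∀ y : W, f y ∉ S := by
    intro y hy
    exact (hS _).mp hy y rfl
  -- cut edges of a component lead to `S`
  have hlead : ∀ c e x z, s(a e, b e) = s(x, z) → x ∈ A c → z ∉ A c → z ∈ S := by
    intro c e x z he hx hz
    by_contra hzS
    rw [hS] at hzS
    push Not at hzS
    obtain ⟨y, hy, rfl⟩ := (hAmem c x).mp hx
    obtain ⟨z', rfl⟩ := hzS
    have hyz : y ≠ z' := by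
      intro h
      apply hz
      rw [← h]; exact hx
    have := c.mem_supp_of_adj_mem_supp hy (hadj y z' e hyz he)
    apply hz
    rw [hAmem]
    exact ⟨_, this, rfl⟩
  have hcutends : ∀ c e, e ∈ cutS a b (A c) → ∃ x z, s(a e, b e) = s(x, z) ∧ x ∈ A c ∧ z ∉ A c := by
    intro c e he
    rw [mem_cutS] at he
    by_cases h1 : a e ∈ A c
    · refine ⟨a e, b e, rfl, h1, fun h => he (by simp [h1, h])⟩
    · refine ⟨b e, a e, Sym2.eq_swap, ?_, h1⟩
      by_contra h; exact he (by simp [h1, h])
  have hcutends' : ∀ c e, e ∈ cutS a b (A c) → ∃ y z, s(a e, b e) = s(f y, z) ∧ y ∈ c.supp ∧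
      z ∈ S := by
    intro c e he
    obtain ⟨x, z, h1, h3, h4⟩ := hcutends c e he
    obtain ⟨y, hy, hyx⟩ := (hAmem c x).mp h3
    exact ⟨y, z, by rw [hyx]; exact h1, hy, hlead c e x z h1 h3 h4⟩
  have hsub : ∀ c, cutS a b (A c) ⊆ cutS a b S := by
    intro c e he
    obtain ⟨y, z, h1, h3, h4⟩ := hcutends' c e he
    have hxS := hfS y
    rw [mem_cutS]
    rcases Sym2.eq_iff.mp h1 with ⟨h5, h6⟩ | ⟨h5, h6⟩
    · rw [h5, h6]; exact fun h => hxS (h.mpr h4)
    · rw [h5, h6]; exact fun h => hxS (h.mp h4)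
  have hdisj : ∀ c c', c ≠ c' → Disjoint (cutS a b (A c)) (cutS a b (A c')) := by
    intro c c' hcc
    rw [Finset.disjoint_left]
    intro e he he'
    obtain ⟨y, z, h1, h3, h4⟩ := hcutends' c e he
    obtain ⟨y', z', h1', h3', h4'⟩ := hcutends' c' e he'
    rw [h1] at h1'
    rcases Sym2.eq_iff.mp h1' with ⟨h5, -⟩ | ⟨h5, -⟩
    · have h6 : y = y' := hf h5
      rw [← h6] at h3'
      exact hcc (SimpleGraph.ConnectedComponent.eq_of_common_vertex h3 h3')
    · apply hfS y
      rw [h5]; exact h4'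
  -- counting
  let O : Finset K.ConnectedComponent := univ.filter (fun c => Odd c.supp.ncard)
  have hO : K.oddComponents.ncard = O.card := by
    rw [← Set.ncard_coe_finset]
    congr 1
    ext c; simp [O, SimpleGraph.oddComponents]
  have h3 : ∀ c ∈ O, 3 ≤ (cutS a b (A c)).card := by
    intro c hcO
    have hodd : Odd c.supp.ncard := by simpa [O] using hcO
    rw [← hAcard] at hodd
    have hpar := cut_parity a b hne hc (A c)
    have hn : (A c).Nonempty := by
      rw [← Finset.card_pos]
      exact hodd.pos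
    have hn' : (A c)ᶜ.Nonempty := by
      obtain ⟨x, hx⟩ := hSne
      refine ⟨x, ?_⟩
      rw [Finset.mem_compl, hAmem]
      rintro ⟨y, -, hy⟩
      exact (hS x).mp hx y hy
    have := h2 (A c) hn hn'
    rw [Nat.odd_iff] at hodd
    have h5 : cut a b (A c) = (cutS a b (A c)).card := rfl
    omega
  rw [hO]
  calc 3 * O.card = ∑ c ∈ O, 3 := by simp [mul_comm]
    _ ≤ ∑ c ∈ O, (cutS a b (A c)).card := Finset.sum_le_sum h3
    _ = (O.biUnion (fun c => cutS a b (A c))).card := by
        rw [Finset.card_biUnion]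
        intro c _ c' _ hcc
        exact hdisj c c' hcc
    _ ≤ (cutS a b S).card := by
        apply Finset.card_le_card
        intro e he
        obtain ⟨c, -, hc'⟩ := Finset.mem_biUnion.mp he
        exact hsub c hc'
    _ = cut a b S := rfl

/-- the simple graph of the multigraph outside the ends of `e0` -/
def auxG (a b : E → V) (e0 : E) : SimpleGraph {x : V // x ≠ a e0 ∧ x ≠ b e0} where
  Adj x y := x ≠ y ∧ ∃ e, s(a e, b e) = s(x.1, y.1)
  symm := ⟨fun x y ⟨h1, e, h2⟩ => ⟨h1.symm, e, by rw [h2]; exact Sym2.eq_swap⟩⟩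
  loopless := ⟨fun x h => h.1 rfl⟩

theorem aux_matching (a b : E → V) (hne : ∀ e, a e ≠ b e) (hc : ∀ x, (starS a b x).card = 3)
    (h2 : ∀ A : Finset V, A.Nonempty → Aᶜ.Nonempty → 2 ≤ cut a b A) (e0 : E) :
    ∃ M : (auxG a b e0).Subgraph, M.IsPerfectMatching := by
  classical
  apply SimpleGraph.tutte.mpr
  intro u hu
  unfold SimpleGraph.IsTutteViolator at hu
  have hverts : ∀ x, x ∈ ((⊤ : (auxG a b e0).Subgraph).deleteVerts u).verts ↔ x ∉ u := by
    intro x; rw [SimpleGraph.Subgraph.deleteVerts_verts]; simp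
  let S : Finset V := univ.filter (fun x => x = a e0 ∨ x = b e0 ∨ ∃ y ∈ u, y.1 = x)
  have hSmem : ∀ x, x ∈ S ↔ (x = a e0 ∨ x = b e0 ∨ ∃ y ∈ u, y.1 = x) := by
    intro x; simp [S]
  have h4 : 3 * ((⊤ : (auxG a b e0).Subgraph).deleteVerts u).coe.oddComponents.ncard ≤
      cut a b S := by
    apply odd_count a b hne hc h2 _ (fun y => y.1.1)
      (fun x y h => Subtype.ext (Subtype.ext h)) S
    · intro x
      rw [hSmem]
      constructor
      · intro h y hy
        rcases h with h | h | ⟨z, hz, h⟩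
        · exact y.1.2.1 (hy.trans h)
        · exact y.1.2.2 (hy.trans h)
        · have : z = y.1 := Subtype.ext (h.trans hy.symm)
          rw [this] at hz
          exact (hverts _).mp y.2 hz
      · intro h
        by_contra h'
        push Not at h'
        have hxu : (⟨x, h'.1, h'.2.1⟩ : {x : V // x ≠ a e0 ∧ x ≠ b e0}) ∉ u :=
          fun hh => h'.2.2 _ hh rfl
        exact h ⟨⟨x, h'.1, h'.2.1⟩, (hverts _).mpr hxu⟩ rfl
    · intro y y' e hyy he
      rw [SimpleGraph.Subgraph.coe_adj, SimpleGraph.Subgraph.deleteVerts_adj]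
      refine ⟨by simp, (hverts _).mp y.2, by simp, (hverts _).mp y'.2, ?_⟩
      rw [SimpleGraph.Subgraph.top_adj]
      exact ⟨fun h => hyy (Subtype.ext h), e, he⟩
    · exact ⟨a e0, (hSmem _).mpr (Or.inl rfl)⟩
  have h5 := cubic_cut a b hne hc S
  have h6 : 1 ≤ (univ.filter (fun e => a e ∈ S ∧ b e ∈ S)).card := by
    rw [Nat.one_le_iff_ne_zero, Ne, Finset.card_eq_zero, ← Ne, ← Finset.nonempty_iff_ne_empty]
    refine ⟨e0, ?_⟩
    simp only [Finset.mem_filter, Finset.mem_univ, true_and]
    exact ⟨(hSmem _).mpr (Or.inl rfl), (hSmem _).mpr (Or.inr (Or.inl rfl))⟩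
  have h7 : S.card ≤ u.ncard + 2 := by
    have hsub' : S ⊆ insert (a e0) (insert (b e0) (u.toFinset.image (fun y => y.1))) := by
      intro x hx
      rw [hSmem] at hx
      simp only [Finset.mem_insert, Finset.mem_image, Set.mem_toFinset]
      rcases hx with h | h | ⟨y, hy, h⟩
      · exact Or.inl h
      · exact Or.inr (Or.inl h)
      · exact Or.inr (Or.inr ⟨y, hy, h⟩)
    calc S.card ≤ _ := Finset.card_le_card hsub'
      _ ≤ (insert (b e0) (u.toFinset.image (fun y => y.1))).card + 1 := Finset.card_insert_le _ _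
      _ ≤ (u.toFinset.image (fun y => y.1)).card + 1 + 1 := by
          gcongr; exact Finset.card_insert_le _ _
      _ ≤ u.toFinset.card + 1 + 1 := by
          gcongr; exact Finset.card_image_le
      _ = u.ncard + 2 := by rw [Set.ncard_eq_toFinset_card']
  have h8 := SimpleGraph.odd_ncard_oddComponents
    ((⊤ : (auxG a b e0).Subgraph).deleteVerts u).coe
  have h9 : Nat.card ((⊤ : (auxG a b e0).Subgraph).deleteVerts u).verts + u.ncard + 2 =
      Fintype.card V := by
    have e1 : Nat.card ((⊤ : (auxG a b e0).Subgraph).deleteVerts u).verts =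
        (((⊤ : (auxG a b e0).Subgraph).deleteVerts u).verts).ncard := rfl
    have e2 : ((⊤ : (auxG a b e0).Subgraph).deleteVerts u).verts = uᶜ := by
      ext x; rw [hverts]; rfl
    have e3 : u.ncard + uᶜ.ncard = Nat.card {x : V // x ≠ a e0 ∧ x ≠ b e0} :=
      Set.ncard_add_ncard_compl u
    have e4 : Nat.card {x : V // x ≠ a e0 ∧ x ≠ b e0} + 2 = Fintype.card V := by
      rw [Nat.card_eq_fintype_card, Fintype.card_subtype]
      have : univ.filter (fun x => x ≠ a e0 ∧ x ≠ b e0) = ({a e0, b e0} : Finset V)ᶜ := by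
        ext x; simp
      rw [this, Finset.card_compl, Finset.card_pair (hne e0)]
      have : 2 ≤ Fintype.card V := by
        rw [← Finset.card_pair (hne e0)]
        exact Finset.card_le_univ _
      omega
    rw [e1, e2]
    omega
  have h10 := even_card a b hne hc
  rw [Nat.odd_iff, Nat.odd_iff] at h8
  omega

theorem exists_matching (a b : E → V) (hne : ∀ e, a e ≠ b e) (hc : ∀ x, (starS a b x).card = 3)
    (h2 : ∀ A : Finset V, A.Nonempty → Aᶜ.Nonempty → 2 ≤ cut a b A) (e0 : E) :
    ∃ M : Finset E, e0 ∈ M ∧ ∀ x, ∃! e, e ∈ M ∧ (a e = x ∨ b e = x) := by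
  classical
  obtain ⟨M, hM⟩ := aux_matching a b hne hc h2 e0
  rw [SimpleGraph.Subgraph.isPerfectMatching_iff] at hM
  choose p hp hpu using hM
  simp only at hp hpu
  have hpp : ∀ x, p (p x) = x := fun x => (hpu _ _ (hp x).symm).symm
  have hedge : ∀ x, ∃ e, s(a e, b e) = s(x.1, (p x).1) := fun x => (M.adj_sub (hp x)).2
  let ch : Sym2 V → E := fun z => if h : ∃ e, s(a e, b e) = z then h.choose else e0
  have hch : ∀ z, (∃ e, s(a e, b e) = z) → s(a (ch z), b (ch z)) = z := by
    intro z hz
    simp only [ch, dif_pos hz]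
    exact hz.choose_spec
  let g : {x : V // x ≠ a e0 ∧ x ≠ b e0} → E := fun x => ch s(x.1, (p x).1)
  have hg : ∀ x, s(a (g x), b (g x)) = s(x.1, (p x).1) := fun x => hch _ (hedge x)
  have hmem : ∀ e x, (a e = x ∨ b e = x) ↔ x ∈ s(a e, b e) := by
    intro e x
    simp only [Sym2.mem_iff]
    constructor
    · rintro (h | h)
      · exact Or.inl h.symm
      · exact Or.inr h.symm
    · rintro (h | h)
      · exact Or.inl h.symm
      · exact Or.inr h.symm
  refine ⟨insert e0 (univ.image g), Finset.mem_insert_self _ _, ?_⟩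
  intro x
  by_cases hx : x ≠ a e0 ∧ x ≠ b e0
  · refine ⟨g ⟨x, hx⟩, ⟨?_, ?_⟩, ?_⟩
    · simp
    · rw [hmem, hg]; simp
    · rintro e ⟨he, hex⟩
      rw [Finset.mem_insert, Finset.mem_image] at he
      rcases he with rfl | ⟨y, -, rfl⟩
      · exfalso
        rcases hex with h | h
        · exact hx.1 h.symm
        · exact hx.2 h.symm
      · rw [hmem, hg] at hex
        simp only [Sym2.mem_iff] at hex
        rcases hex with h | h
        · have : y = ⟨x, hx⟩ := Subtype.ext h.symm
          rw [this]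
        · have h' : p y = ⟨x, hx⟩ := Subtype.ext h.symm
          have h'' : y = p ⟨x, hx⟩ := by rw [← h', hpp]
          change ch s(y.1, (p y).1) = ch s(x, (p ⟨x, hx⟩).1)
          rw [h', ← h'', Sym2.eq_swap]
  · refine ⟨e0, ⟨Finset.mem_insert_self _ _, ?_⟩, ?_⟩
    · by_contra h
      push Not at h
      exact hx ⟨h.1.symm, h.2.symm⟩
    · rintro e ⟨he, hex⟩
      rw [Finset.mem_insert, Finset.mem_image] at he
      rcases he with rfl | ⟨y, -, rfl⟩
      · rfl
      · exfalso
        rw [hmem, hg] at hex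
        simp only [Sym2.mem_iff] at hex
        rcases hex with h | h
        · exact hx (by rw [h]; exact y.2)
        · exact hx (by rw [h]; exact (p y).2)

end Pool.Agent.helper60.ECD
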