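import Mathlib

/-!
# Linear systems over the field with two elements
-/

namespace Pool.Agent.helper60.ECD

open Finset

lemma exists_sol {ι V : Type*} [Fintype ι] [Fintype V] [DecidableEq ι] [DecidableEq V]
    (A : ι → V → ZMod 2) (b : ι → ZMod 2)
    (h : ∀ y : ι → ZMod 2, (∀ v, ∑ i, y i * A i v = 0) → ∑ i, y i * b i = 0) :
    ∃ x : V → ZMod 2, ∀ i, ∑ v, A i v * x v = b i := by
  classical
  let f : (V → ZMod 2) →ₗ[ZMod 2] (ι → ZMod 2) := Matrix.mulVecLin (Matrix.of A)
  by_cases hb : b ∈ LinearMap.range f
  · obtain ⟨x, hx⟩ := hb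
    refine ⟨x, fun i => ?_⟩
    have := congrFun hx i
    simpa [f, Matrix.mulVec, dotProduct] using this
  · exfalso
    obtain ⟨φ, hφ1, hφ2⟩ := Submodule.exists_le_ker_of_notMem hb
    let y : ι → ZMod 2 := fun i => φ (Pi.single i 1)
    have hφ : ∀ w : ι → ZMod 2, φ w = ∑ i, y i * w i := by
      intro w
      have hw : w = ∑ i, w i • (Pi.single i (1 : ZMod 2) : ι → ZMod 2) := by
        ext j
        simp [Finset.sum_apply, Pi.single_apply]
      conv_lhs => rw [hw]
      rw [map_sum]
      refine Finset.sum_congr rfl fun i _ => ?_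
      rw [map_smul, smul_eq_mul, mul_comm]
    apply hφ1
    rw [hφ]
    apply h
    intro v
    have h1 : φ (f (Pi.single v 1)) = 0 := by
      have : f (Pi.single v 1) ∈ LinearMap.range f := ⟨_, rfl⟩
      exact hφ2 this
    rw [hφ] at h1
    convert h1 using 2 with i _
    congr 1
    simp [f, Matrix.mulVec, dotProduct, Pi.single_apply]

section

variable {V : Type*} [Fintype V] [DecidableEq V]

/-- A recurrence along the permutation `σ` together with prescribed sums on the pairs of the
fixed-point-free involution `μ` inside an independent set `D`. -/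
lemma exists_rec (σ : Equiv.Perm V) (μ : V → V) (hμ : ∀ x, μ (μ x) = x) (hμ' : ∀ x, μ x ≠ x)
    (a : V → ZMod 2)
    (ha : ∀ c : V → ZMod 2, (∀ x, c (σ x) = c x) → ∑ x, c x * a x = 0)
    (D : Finset V) (hD : ∀ x ∈ D, μ x ∈ D)
    (hind : ∀ Y ⊆ D, (∀ x ∈ Y, μ x ∈ Y) →
      (∀ c : V → ZMod 2, (∀ x, c (σ x) = c x) → ∑ x ∈ Y, c x = 0) → Y = ∅)
    (b : V → ZMod 2) (hb : ∀ x ∈ D, b (μ x) = b x) :
    ∃ q : V → ZMod 2, (∀ x, q (σ x) = q x + a (σ x)) ∧ ∀ x ∈ D, q x + q (μ x) = b x := by
  classical
  have hD' : ∀ x, μ x ∈ D ↔ x ∈ D := fun x =>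
    ⟨fun h => by have := hD _ h; rwa [hμ] at this, hD x⟩
  have e2 : ∀ z : ZMod 2, z + z = 0 := by decide
  let A : V ⊕ V → V → ZMod 2 := Sum.elim
    (fun x v => (if v = σ x then 1 else 0) + (if v = x then 1 else 0))
    (fun x v => if x ∈ D then (if v = x then 1 else 0) + (if v = μ x then 1 else 0) else 0)
  let B : V ⊕ V → ZMod 2 := Sum.elim (fun x => a (σ x)) (fun x => if x ∈ D then b x else 0)
  obtain ⟨q, hq⟩ := exists_sol A B (by
    intro y hy
    let y1 : V → ZMod 2 := fun x => y (Sum.inl x)
    let y2 : V → ZMod 2 := fun x => y (Sum.inr x)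
    have hy' : ∀ v, y1 (σ.symm v) + y1 v + (if v ∈ D then y2 v + y2 (μ v) else 0) = 0 := by
      intro v
      have h0 := hy v
      rw [Fintype.sum_sum_type] at h0
      have e1 : ∑ x, y (Sum.inl x) * A (Sum.inl x) v = y1 (σ.symm v) + y1 v := by
        simp only [A, Sum.elim_inl, mul_add, Finset.sum_add_distrib, mul_ite, mul_one, mul_zero]
        congr 1
        · rw [Finset.sum_eq_single (σ.symm v)]
          · simp [y1]
          · intro x _ hx
            rw [if_neg]
            rintro rfl; simp at hx
          · intro hx; exact absurd (Finset.mem_univ _) hx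
        · simp [y1]
      have e3 : ∑ x, y (Sum.inr x) * A (Sum.inr x) v =
          if v ∈ D then y2 v + y2 (μ v) else 0 := by
        simp only [A, Sum.elim_inr]
        have : ∀ x, y (Sum.inr x) * (if x ∈ D then (if v = x then (1 : ZMod 2) else 0) +
            (if v = μ x then 1 else 0) else 0) =
            (if v = x then (if v ∈ D then y2 v else 0) else 0) +
            (if μ v = x then (if v ∈ D then y2 (μ v) else 0) else 0) := by
          intro x
          by_cases h1 : v = x
          · subst h1
            have h2 : ¬ μ v = v := hμ' v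
            have h3 : ¬ v = μ v := fun h => h2 h.symm
            by_cases h4 : v ∈ D <;> simp [h2, h3, h4, y2]
          · by_cases h2 : μ v = x
            · subst h2
              by_cases h4 : v ∈ D
              · have h5 : μ v ∈ D := hD _ h4
                simp [h1, h4, h5, hμ, y2]
              · have h5 : μ v ∉ D := fun h => h4 ((hD' v).mp h)
                simp [h1, h4, h5]
            · have h3 : ¬ v = μ x := by rintro rfl; exact h2 (hμ x)
              simp [h1, h2, h3]
        rw [Finset.sum_congr rfl (fun x _ => this x), Finset.sum_add_distrib]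
        by_cases h4 : v ∈ D <;> simp [h4]
      rw [e1, e3] at h0
      exact h0
    -- the set where `y2` is not symmetric is empty
    have hY : D.filter (fun v => y2 v + y2 (μ v) ≠ 0) = ∅ := by
      apply hind _ (Finset.filter_subset _ _)
      · intro x hx
        simp only [Finset.mem_filter] at hx ⊢
        refine ⟨hD _ hx.1, ?_⟩
        rw [hμ, add_comm]; exact hx.2
      · intro c hc
        rw [Finset.sum_filter]
        have h1 : ∀ x ∈ D, (if y2 x + y2 (μ x) ≠ 0 then c x else 0) =
            c x * (y1 (σ.symm x) + y1 x) := by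
          intro x hx
          have h2 := hy' x
          rw [if_pos hx] at h2
          have key : ∀ s t c : ZMod 2, s + t = 0 → (if t ≠ 0 then c else 0) = c * s := by decide
          exact key _ _ _ h2
        rw [Finset.sum_congr rfl h1]
        have h3 : ∑ x ∈ D, c x * (y1 (σ.symm x) + y1 x) = ∑ x, c x * (y1 (σ.symm x) + y1 x) := by
          apply Finset.sum_subset (Finset.subset_univ _)
          intro x _ hx
          have h2 := hy' x
          rw [if_neg hx, add_zero] at h2
          rw [h2, mul_zero]
        rw [h3]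
        simp only [mul_add, Finset.sum_add_distrib]
        have h4 : ∑ x, c x * y1 (σ.symm x) = ∑ x, c x * y1 x := by
          rw [← Equiv.sum_comp σ]
          refine Finset.sum_congr rfl fun x _ => ?_
          rw [hc, Equiv.symm_apply_apply]
        rw [h4]; exact e2 _
    have hsym : ∀ x ∈ D, y2 (μ x) = y2 x := by
      intro x hx
      by_contra hne
      have : x ∈ D.filter (fun v => y2 v + y2 (μ v) ≠ 0) := by
        simp only [Finset.mem_filter]
        refine ⟨hx, ?_⟩
        have key : ∀ s t : ZMod 2, ¬ t = s → s + t ≠ 0 := by decide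
        exact key _ _ hne
      rw [hY] at this
      exact absurd this (Finset.notMem_empty _)
    have hinv : ∀ x, y1 (σ x) = y1 x := by
      intro x
      have h0 := hy' (σ x)
      rw [Equiv.symm_apply_apply] at h0
      have : (if σ x ∈ D then y2 (σ x) + y2 (μ (σ x)) else 0) = 0 := by
        split_ifs with h
        · rw [hsym _ h]; exact e2 _
        · rfl
      rw [this, add_zero] at h0
      have key : ∀ s t : ZMod 2, s + t = 0 → t = s := by decide
      exact key _ _ h0
    rw [Fintype.sum_sum_type]
    have e1 : ∑ x, y (Sum.inl x) * B (Sum.inl x) = 0 := by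
      have : ∀ x, y (Sum.inl x) * B (Sum.inl x) = (fun z => y1 z * a z) (σ x) := by
        intro x; simp only [B, Sum.elim_inl]; rw [hinv]
      rw [Finset.sum_congr rfl (fun x _ => this x), Equiv.sum_comp σ (fun z => y1 z * a z)]
      exact ha _ hinv
    have e3 : ∑ x, y (Sum.inr x) * B (Sum.inr x) = 0 := by
      apply Finset.sum_involution (fun x _ => μ x)
      · intro x _
        simp only [B, Sum.elim_inr]
        by_cases h : x ∈ D
        · rw [if_pos h, if_pos (hD _ h), hb _ h]
          have := hsym _ h
          change y2 x * b x + y2 (μ x) * b x = 0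
          rw [this]; exact e2 _
        · rw [if_neg h, if_neg (fun h' => h ((hD' x).mp h'))]; simp
      · intro x _ _; exact hμ' x
      · intro x _; exact Finset.mem_univ _
      · intro x _; exact hμ x
    rw [e1, e3, add_zero])
  refine ⟨q, fun x => ?_, fun x hx => ?_⟩
  · have h0 := hq (Sum.inl x)
    simp only [A, B, Sum.elim_inl, add_mul, ite_mul, one_mul, zero_mul, Finset.sum_add_distrib,
      Finset.sum_ite_eq', Finset.mem_univ, if_true] at h0
    have key : ∀ s t u : ZMod 2, s + t = u → s = t + u := by decide
    exact key _ _ _ h0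
  · have h0 := hq (Sum.inr x)
    simp only [A, B, Sum.elim_inr, if_pos hx, add_mul, ite_mul, one_mul, zero_mul,
      Finset.sum_add_distrib, Finset.sum_ite_eq', Finset.mem_univ, if_true] at h0
    exact h0

end

end Pool.Agent.helper60.ECD
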