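import Mathlib

/-!
# Multigraphs, line graphs and even circuit decompositions

Definitions used in the statement about even circuit decompositions of line graphs of cubic graphs.
-/

namespace Pool.Agent.helper60.ECD

universe u v

/-- A multigraph with vertex type `V` and edge type `E`: every edge has an unordered pair of ends.
Parallel edges are allowed. -/
structure MGraph (V : Type u) (E : Type v) where
  /-- the unordered pair of ends of an edge -/
  ends : E → Sym2 V

namespace MGraph

variable {V : Type u} {E : Type v}

/-- No edge is a loop. -/
def Loopless (G : MGraph V E) : Prop := ∀ e, ¬ (G.ends e).IsDiag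

/-- The set of edges which have `v` as an end. -/
def edgesAt (G : MGraph V E) (v : V) : Set E := {e | v ∈ G.ends e}

/-- Every vertex is an end of exactly three edges (so it has degree 3 when `G` is loopless). -/
def Cubic (G : MGraph V E) : Prop := ∀ v, (G.edgesAt v).ncard = 3

/-- The subgraph of `G` induced on the vertex set `S` is nonempty and connected: any two vertices of
`S` are joined by a walk inside `S`. -/
def ConnectedOn (G : MGraph V E) (S : Set V) : Prop :=
  S.Nonempty ∧ ∀ x ∈ S, ∀ y ∈ S,
    Relation.ReflTransGen (fun a b => a ∈ S ∧ b ∈ S ∧ ∃ e, a ∈ G.ends e ∧ b ∈ G.ends e) x y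

/-- `G` is connected, and it stays (nonempty and) connected when any one vertex is deleted. -/
def TwoConnected (G : MGraph V E) : Prop :=
  G.ConnectedOn Set.univ ∧ ∀ v, G.ConnectedOn {v}ᶜ

/-- The edges of the line graph of `G`: a vertex `v` of `G` together with an unordered pair of
distinct edges of `G` which both have `v` as an end. -/
def LineEdge (G : MGraph V E) : Type (max u v) :=
  {p : V × Sym2 E // ¬ p.2.IsDiag ∧ ∀ e ∈ p.2, p.1 ∈ G.ends e}

/-- The line graph of `G`: its vertices are the edges of `G`, and two distinct edges of `G` are
joined by one edge of the line graph for each common end. -/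
def lineGraph (G : MGraph V E) : MGraph E G.LineEdge where
  ends p := p.1.2

/-- `C` is the edge set of a circuit of `G`, that is, of a connected 2-regular subgraph: `C` is
nonempty, every vertex is an end of no edge or of exactly two edges of `C`, and any two edges of `C`
are joined by a chain of edges of `C` in which consecutive edges share an end. -/
def IsCircuit (G : MGraph V E) (C : Set E) : Prop :=
  C.Nonempty ∧ (∀ v, C ∩ G.edgesAt v = ∅ ∨ (C ∩ G.edgesAt v).ncard = 2) ∧
    ∀ e ∈ C, ∀ f ∈ C,
      Relation.ReflTransGen (fun a b => a ∈ C ∧ b ∈ C ∧ ∃ v, v ∈ G.ends a ∧ v ∈ G.ends b) e f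

/-- `G` has an even circuit decomposition: its edge set can be partitioned into edge sets of
circuits with an even number of edges. -/
def HasEvenCircuitDecomposition (G : MGraph V E) : Prop :=
  ∃ D : Set (Set E), (∀ C ∈ D, G.IsCircuit C ∧ Even C.ncard) ∧ ∀ e, ∃! C, C ∈ D ∧ e ∈ C

end MGraph

end Pool.Agent.helper60.ECD
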