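import Mathlib
import Pool.Agent.helper60.ECD.Defs

/-!
# A certificate for even circuit decompositions
-/

namespace Pool.Agent.helper60.ECD

universe u v w

namespace MGraph

variable {V : Type u} {E : Type v}

theorem hasECD_of_cert [Finite V] [Finite E] (G : MGraph V E) (hl : G.Loopless) {L : Type w}
    (lam : E → L) (par : E → ZMod 2)
    (h : ∀ x, ∃ a₁ a₂ b₁ b₂, G.edgesAt x = {a₁, a₂, b₁, b₂} ∧ lam a₁ = lam a₂ ∧ lam b₁ = lam b₂ ∧
      lam a₁ ≠ lam b₁ ∧ par a₁ ≠ par a₂ ∧ par b₁ ≠ par b₂) :
    G.HasEvenCircuitDecomposition := by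
  classical
  have _ := Fintype.ofFinite V
  have _ := Fintype.ofFinite E
  -- the adjacency relation and its equivalence closure
  let r : E → E → Prop := fun a b => lam a = lam b ∧ ∃ x, x ∈ G.ends a ∧ x ∈ G.ends b
  let R := Relation.ReflTransGen r
  have rsymm : ∀ a b, r a b → r b a := fun a b ⟨h1, x, h2, h3⟩ => ⟨h1.symm, x, h3, h2⟩
  have Rsymm : ∀ a b, R a b → R b a := fun a b hab => by
    induction hab with
    | refl => exact Relation.ReflTransGen.refl
    | tail _ h2 ih => exact Relation.ReflTransGen.head (rsymm _ _ h2) ih
  have Rtrans : ∀ a b c, R a b → R b c → R a c := fun a b c h1 h2 => h1.trans h2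
  have Rlam : ∀ a b, R a b → lam a = lam b := fun a b hab => by
    induction hab with
    | refl => rfl
    | tail _ h2 ih => exact ih.trans h2.1
  -- at a vertex, the edges of a class form one of the two pairs
  have key : ∀ e x, {f | R e f} ∩ G.edgesAt x = ∅ ∨
      ∃ a b, {f | R e f} ∩ G.edgesAt x = {a, b} ∧ par a ≠ par b := by
    intro e x
    by_cases hne : ({f | R e f} ∩ G.edgesAt x) = ∅
    · exact Or.inl hne
    right
    obtain ⟨f, hf1, hf2⟩ := Set.nonempty_iff_ne_empty.mpr hne
    obtain ⟨a₁, a₂, b₁, b₂, hx, ha, hb, hab, hpa, hpb⟩ := h x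
    have hin : ∀ g, g ∈ G.edgesAt x ↔ g = a₁ ∨ g = a₂ ∨ g = b₁ ∨ g = b₂ := by
      intro g; rw [hx]; simp
    have hlf := Rlam e f hf1
    have close : ∀ g, g ∈ G.edgesAt x → lam g = lam f → R e g := by
      intro g hg hlg
      exact Rtrans _ _ _ hf1 (Relation.ReflTransGen.single ⟨hlg.symm, x, hf2, hg⟩)
    rcases (hin f).mp hf2 with hf | hf | hf | hf
    · refine ⟨a₁, a₂, ?_, hpa⟩
      ext g
      simp only [Set.mem_inter_iff, Set.mem_setOf_eq, Set.mem_insert_iff, Set.mem_singleton_iff]
      constructor
      · rintro ⟨hg1, hg2⟩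
        have := Rlam e g hg1
        rcases (hin g).mp hg2 with hg | hg | hg | hg
        · exact Or.inl hg
        · exact Or.inr hg
        · exfalso; subst hg; subst hf; exact hab (hlf.symm.trans this)
        · exfalso; subst hg; subst hf; exact hab ((hlf.symm.trans this).trans hb.symm)
      · rintro (hg | hg)
        · subst hg; exact ⟨close _ ((hin _).mpr (by simp)) (by rw [hf]), (hin _).mpr (by simp)⟩
        · subst hg; exact ⟨close _ ((hin _).mpr (by simp)) (by rw [hf, ha]), (hin _).mpr (by simp)⟩
    · refine ⟨a₁, a₂, ?_, hpa⟩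
      ext g
      simp only [Set.mem_inter_iff, Set.mem_setOf_eq, Set.mem_insert_iff, Set.mem_singleton_iff]
      constructor
      · rintro ⟨hg1, hg2⟩
        have := Rlam e g hg1
        rcases (hin g).mp hg2 with hg | hg | hg | hg
        · exact Or.inl hg
        · exact Or.inr hg
        · exfalso; subst hg; subst hf; exact hab (ha.trans (hlf.symm.trans this))
        · exfalso; subst hg; subst hf; exact hab (ha.trans ((hlf.symm.trans this).trans hb.symm))
      · rintro (hg | hg)
        · subst hg; exact ⟨close _ ((hin _).mpr (by simp)) (by rw [hf, ha]), (hin _).mpr (by simp)⟩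
        · subst hg; exact ⟨close _ ((hin _).mpr (by simp)) (by rw [hf]), (hin _).mpr (by simp)⟩
    · refine ⟨b₁, b₂, ?_, hpb⟩
      ext g
      simp only [Set.mem_inter_iff, Set.mem_setOf_eq, Set.mem_insert_iff, Set.mem_singleton_iff]
      constructor
      · rintro ⟨hg1, hg2⟩
        have := Rlam e g hg1
        rcases (hin g).mp hg2 with hg | hg | hg | hg
        · exfalso; subst hg; subst hf; exact hab (this.symm.trans hlf)
        · exfalso; subst hg; subst hf; exact hab (ha.trans (this.symm.trans hlf))
        · exact Or.inl hg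
        · exact Or.inr hg
      · rintro (hg | hg)
        · subst hg; exact ⟨close _ ((hin _).mpr (by simp)) (by rw [hf]), (hin _).mpr (by simp)⟩
        · subst hg; exact ⟨close _ ((hin _).mpr (by simp)) (by rw [hf, hb]), (hin _).mpr (by simp)⟩
    · refine ⟨b₁, b₂, ?_, hpb⟩
      ext g
      simp only [Set.mem_inter_iff, Set.mem_setOf_eq, Set.mem_insert_iff, Set.mem_singleton_iff]
      constructor
      · rintro ⟨hg1, hg2⟩
        have := Rlam e g hg1
        rcases (hin g).mp hg2 with hg | hg | hg | hg
        · exfalso; subst hg; subst hf; exact hab ((this.symm.trans hlf).trans hb.symm)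
        · exfalso; subst hg; subst hf; exact hab (ha.trans ((this.symm.trans hlf).trans hb.symm))
        · exact Or.inl hg
        · exact Or.inr hg
      · rintro (hg | hg)
        · subst hg; exact ⟨close _ ((hin _).mpr (by simp)) (by rw [hf, hb]), (hin _).mpr (by simp)⟩
        · subst hg; exact ⟨close _ ((hin _).mpr (by simp)) (by rw [hf]), (hin _).mpr (by simp)⟩
  -- number of ends of an edge
  have ends2 : ∀ e, (Finset.univ.filter (fun x => x ∈ G.ends e)).card = 2 := by
    intro e
    obtain ⟨⟨x, y⟩, hxy⟩ := Quot.exists_rep (G.ends e)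
    have hxy' : G.ends e = s(x, y) := hxy.symm
    have hne : x ≠ y := by
      intro hh; exact hl e (by rw [hxy', hh]; simp)
    have : (Finset.univ.filter (fun z => z ∈ G.ends e)) = {x, y} := by
      ext z; rw [hxy']; simp
    rw [this, Finset.card_pair hne]
  -- evenness
  have even : ∀ e, Even ({f | R e f} : Set E).ncard := by
    intro e
    let C : Finset E := Finset.univ.filter (fun f => R e f)
    have hC : ({f | R e f} : Set E) = (C : Set E) := by ext f; simp [C]
    rw [hC, Set.ncard_coe_finset]
    let W : Finset V := Finset.univ.filter (fun x => ({f | R e f} ∩ G.edgesAt x).Nonempty)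
    have cnt : ∀ p : ZMod 2, 2 * (C.filter (fun f => par f = p)).card = W.card := by
      intro p
      have h1 : ∑ f ∈ C.filter (fun f => par f = p),
          (Finset.univ.filter (fun x => x ∈ G.ends f)).card =
          ∑ x : V, ((C.filter (fun f => par f = p)).filter (fun f => x ∈ G.ends f)).card := by
        simp only [Finset.card_filter]
        rw [Finset.sum_comm]
      simp only [ends2, Finset.sum_const, smul_eq_mul] at h1
      rw [mul_comm, h1]
      have h2 : ∀ x : V, ((C.filter (fun f => par f = p)).filter (fun f => x ∈ G.ends f)).card =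
          if x ∈ W then 1 else 0 := by
        intro x
        rcases key e x with h0 | ⟨a, b, hab, hp⟩
        · have hx : x ∉ W := by
            simp only [W, Finset.mem_filter, Finset.mem_univ, true_and, h0]
            exact Set.not_nonempty_empty
          rw [if_neg hx, Finset.card_eq_zero]
          ext f
          simp only [Finset.mem_filter, C, Finset.mem_univ, true_and, Finset.notMem_empty, iff_false]
          rintro ⟨⟨hf1, -⟩, hf2⟩
          have : f ∈ ({f | R e f} ∩ G.edgesAt x) := ⟨hf1, hf2⟩
          rw [h0] at this; exact this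
        · have hx : x ∈ W := by
            simp only [W, Finset.mem_filter, Finset.mem_univ, true_and, hab]
            exact ⟨a, by simp⟩
          rw [if_pos hx, Finset.card_eq_one]
          have hmem : ∀ f, (R e f ∧ x ∈ G.ends f) ↔ (f = a ∨ f = b) := by
            intro f
            have : f ∈ ({f | R e f} ∩ G.edgesAt x) ↔ f ∈ ({a, b} : Set E) := by rw [hab]
            simpa [edgesAt] using this
          have hcase : par a = p ∨ par b = p := by
            have : ∀ a b p : ZMod 2, a ≠ b → (a = p ∨ b = p) := by decide
            exact this _ _ _ hp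
          rcases hcase with hp' | hp'
          · refine ⟨a, ?_⟩
            ext f
            simp only [Finset.mem_filter, C, Finset.mem_univ, true_and, Finset.mem_singleton]
            constructor
            · rintro ⟨⟨hf1, hf2⟩, hf3⟩
              rcases (hmem f).mp ⟨hf1, hf3⟩ with hf | hf
              · exact hf
              · exfalso; subst hf; exact hp (hp'.trans hf2.symm)
            · rintro rfl
              have := (hmem f).mpr (Or.inl rfl)
              exact ⟨⟨this.1, hp'⟩, this.2⟩
          · refine ⟨b, ?_⟩
            ext f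
            simp only [Finset.mem_filter, C, Finset.mem_univ, true_and, Finset.mem_singleton]
            constructor
            · rintro ⟨⟨hf1, hf2⟩, hf3⟩
              rcases (hmem f).mp ⟨hf1, hf3⟩ with hf | hf
              · exfalso; subst hf; exact hp (hf2.trans hp'.symm)
              · exact hf
            · rintro rfl
              have := (hmem f).mpr (Or.inr rfl)
              exact ⟨⟨this.1, hp'⟩, this.2⟩
      rw [Finset.sum_congr rfl (fun x _ => h2 x)]
      simp
    have hsplit : C.card = (C.filter (fun f => par f = 0)).card +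
        (C.filter (fun f => par f = 1)).card := by
      rw [← Finset.card_filter_add_card_filter_not (s := C) (fun f => par f = 0)]
      congr 2
      ext f
      simp only [Finset.mem_filter]
      have : ∀ a : ZMod 2, (¬ a = 0) ↔ a = 1 := by decide
      rw [this]
    have e0 := cnt 0
    have e1 := cnt 1
    exact ⟨(C.filter (fun f => par f = 0)).card, by omega⟩
  -- the decomposition
  refine ⟨{C | ∃ e, C = {f | R e f}}, ?_, ?_⟩
  · rintro C ⟨e, rfl⟩
    refine ⟨⟨⟨e, Relation.ReflTransGen.refl⟩, ?_, ?_⟩, even e⟩
    · intro x
      rcases key e x with h0 | ⟨a, b, hab, hp⟩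
      · exact Or.inl h0
      · right
        rw [hab, Set.ncard_pair]
        rintro rfl; exact hp rfl
    · intro f hf g hg
      have hfg : R f g := Rtrans _ _ _ (Rsymm _ _ hf) hg
      -- every element reachable from f lies in the class
      have : ∀ g, R f g → Relation.ReflTransGen
          (fun a b => a ∈ {f | R e f} ∧ b ∈ {f | R e f} ∧ ∃ v, v ∈ G.ends a ∧ v ∈ G.ends b) f g := by
        intro g hg
        induction hg with
        | refl => exact Relation.ReflTransGen.refl
        | tail h1 h2 ih =>
          refine Relation.ReflTransGen.tail ih ⟨?_, ?_, h2.2⟩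
          · exact Rtrans _ _ _ hf h1
          · exact Rtrans _ _ _ hf (Relation.ReflTransGen.tail h1 h2)
      exact this g hfg
  · intro e
    refine ⟨{f | R e f}, ⟨⟨e, rfl⟩, Relation.ReflTransGen.refl⟩, ?_⟩
    rintro C ⟨⟨g, rfl⟩, hg⟩
    ext f
    simp only [Set.mem_setOf_eq] at hg ⊢
    exact ⟨fun hf => Rtrans _ _ _ (Rsymm _ _ hg) hf, fun hf => Rtrans _ _ _ hg hf⟩

end MGraph

end Pool.Agent.helper60.ECD
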