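import Mathlib
import Pool.Agent.helper60.ECD.Linear

/-!
# The local certificate from vertex types
-/

namespace Pool.Agent.helper60.ECD

universe u

/-- The types of vertices: covered with jump (`J1`), covered without jump (`J0`), uncovered with the
detour taken by the other circuit (`Z`), uncovered with the detour taken by the circuit of the
2-factor (`D`), end of a splitting chord (`S`). -/
inductive Ty | J1 | J0 | Z | D | S
  deriving DecidableEq

/-- jump of the potential of colours 1, 2 -/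
def gT : Ty → ZMod 2 | .J1 => 1 | .J0 => 0 | .Z => 1 | .D => 0 | .S => 0
/-- change of the colour -/
def jT : Ty → ZMod 2 | .J1 => 1 | .J0 => 1 | .Z => 0 | .D => 0 | .S => 0
/-- jump of the potential of colour 0 -/
def dT : Ty → ZMod 2 | .J1 => 0 | .J0 => 0 | .Z => 0 | .D => 1 | .S => 1

/-- same label and different parity -/
def Pr {L : Type u} (A B : L × ZMod 2) : Prop := A.1 = B.1 ∧ A.2 ≠ B.2

/-- four labelled elements which split in two pairs of same label and opposite parities -/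
def Quad {L : Type u} (A B C D : L × ZMod 2) : Prop :=
  (Pr A B ∧ Pr C D ∧ A.1 ≠ C.1) ∨ (Pr A C ∧ Pr B D ∧ A.1 ≠ B.1) ∨ (Pr A D ∧ Pr B C ∧ A.1 ≠ B.1)

section

variable {V : Type u} (σ : Equiv.Perm V) (μ : V → V) {C : Type u} (cl : V → C) (ty : V → Ty)
  (side q0 q K : V → ZMod 2)

/-- the label and parity of the three edges of the line graph at a vertex (`0`: in-out, `1`:
out-matching, `2`: in-matching) -/
def lab0 (x : V) : ((C × ZMod 2) ⊕ ZMod 2) × ZMod 2 :=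
  match ty x with
  | .J1 | .J0 | .Z => (Sum.inl (cl x, side x), q0 x)
  | .D | .S => (Sum.inr (K x), q x)

/-- see `lab0` -/
def lab1 (x : V) : ((C × ZMod 2) ⊕ ZMod 2) × ZMod 2 :=
  match ty x with
  | .J1 | .J0 | .Z => (Sum.inr (K x), q x)
  | .D | .S => (Sum.inl (cl x, side x), q0 x)

/-- see `lab0` -/
def lab2 (x : V) : ((C × ZMod 2) ⊕ ZMod 2) × ZMod 2 :=
  match ty x with
  | .J1 | .J0 | .Z => (Sum.inr (K (σ.symm x)), q (σ.symm x) + 1)
  | .D | .S => (Sum.inl (cl x, side (σ.symm x)), q0 (σ.symm x) + 1)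

lemma quadF (hcl : ∀ x, cl (σ x) = cl x)
    (r0 : ∀ x, q0 (σ x) = q0 x + (1 + dT (ty (σ x))))
    (r1 : ∀ x, q (σ x) = q x + (1 + gT (ty (σ x))))
    (r2 : ∀ x, K (σ x) = K x + jT (ty (σ x)))
    (hside : ∀ x, ty (σ x) ≠ Ty.S → side (σ x) = side x) (x : V) :
    Quad (lab0 cl ty side q0 q K x) (lab1 cl ty side q0 q K x)
      (lab0 cl ty side q0 q K (σ x)) (lab2 σ cl ty side q0 q K (σ x)) := by
  have k1 : ∀ s : ZMod 2, s ≠ s + 1 := by decide
  have k2 : ∀ s : ZMod 2, s ≠ s + (1 + 0) := by decide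
  have h0 := r0 x
  have h1 := r1 x
  have h2 := r2 x
  have h3 := hside x
  unfold lab0 lab1 lab2 Quad Pr
  rcases hx : ty x <;> rcases hy : ty (σ x) <;>
    simp only [hy, gT, jT, dT, ne_eq, reduceCtorEq, not_false_eq_true, not_true_eq_false,
      forall_true_left, false_implies, add_zero, Equiv.symm_apply_apply, hcl] at h0 h1 h2 h3 ⊢ <;>
    simp [h0, h1, h2, h3, k1]

lemma quadM
    (r0 : ∀ x, q0 (σ x) = q0 x + (1 + dT (ty (σ x))))
    (r1 : ∀ x, q (σ x) = q x + (1 + gT (ty (σ x))))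
    (r2 : ∀ x, K (σ x) = K x + jT (ty (σ x)))
    (hside : ∀ x, ty (σ x) ≠ Ty.S → side (σ x) = side x)
    (hJ0 : ∀ x, ty x = Ty.J0 → ty (μ x) = Ty.J0 ∧ q x + q (μ x) = 1)
    (hJ1 : ∀ x, ty x = Ty.J1 → ty (μ x) = Ty.J1 ∧ K x + K (μ x) = 1 + q x + q (μ x))
    (hZ : ∀ x, ty x = Ty.Z → ty (μ x) = Ty.D)
    (hD : ∀ x, ty x = Ty.D → ty (μ x) = Ty.Z ∨ (ty (μ x) = Ty.D ∧ cl x ≠ cl (μ x)))
    (hS : ∀ x, ty x = Ty.S → ty (μ x) = Ty.S ∧ cl (μ x) = cl x ∧
      side (σ.symm (μ x)) = side x ∧ side (μ x) = side (σ.symm x) ∧ side x ≠ side (μ x) ∧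
      q0 (σ.symm (μ x)) = q0 x ∧ q0 (μ x) = q0 (σ.symm x)) (x : V) :
    Quad (lab1 cl ty side q0 q K x) (lab2 σ cl ty side q0 q K x)
      (lab1 cl ty side q0 q K (μ x)) (lab2 σ cl ty side q0 q K (μ x)) := by
  have k1 : ∀ s : ZMod 2, s ≠ s + 1 := by decide
  -- recurrences in the backward form
  have b0 : ∀ x, q0 (σ.symm x) + 1 = q0 x + dT (ty x) := by
    intro x
    have h := r0 (σ.symm x)
    rw [Equiv.apply_symm_apply] at h
    have key : ∀ a b c : ZMod 2, a = b + (1 + c) → b + 1 = a + c := by decide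
    exact key _ _ _ h
  have b1 : ∀ x, q (σ.symm x) + 1 = q x + gT (ty x) := by
    intro x
    have h := r1 (σ.symm x)
    rw [Equiv.apply_symm_apply] at h
    have key : ∀ a b c : ZMod 2, a = b + (1 + c) → b + 1 = a + c := by decide
    exact key _ _ _ h
  have b2 : ∀ x, K (σ.symm x) = K x + jT (ty x) := by
    intro x
    have h := r2 (σ.symm x)
    rw [Equiv.apply_symm_apply] at h
    have key : ∀ a b c : ZMod 2, a = b + c → b = a + c := by decide
    exact key _ _ _ h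
  have b3 : ∀ x, ty x ≠ Ty.S → side (σ.symm x) = side x := by
    intro x hx
    have h := hside (σ.symm x)
    rw [Equiv.apply_symm_apply] at h
    exact (h hx).symm
  have lJ : ∀ x, (ty x = Ty.J0 ∨ ty x = Ty.J1) →
      lab1 cl ty side q0 q K x = (Sum.inr (K x), q x) ∧
      lab2 σ cl ty side q0 q K x = (Sum.inr (K x + 1), q x + gT (ty x)) := by
    rintro x (hx | hx) <;> unfold lab1 lab2 <;> simp [hx, b1, b2, jT, gT]
  have lZ : ∀ x, ty x = Ty.Z →
      lab1 cl ty side q0 q K x = (Sum.inr (K x), q x) ∧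
      lab2 σ cl ty side q0 q K x = (Sum.inr (K x), q x + 1) := by
    rintro x hx; unfold lab1 lab2; simp [hx, b1, b2, jT, gT]
  have lD : ∀ x, ty x = Ty.D →
      lab1 cl ty side q0 q K x = (Sum.inl (cl x, side x), q0 x) ∧
      lab2 σ cl ty side q0 q K x = (Sum.inl (cl x, side x), q0 x + 1) := by
    rintro x hx; unfold lab1 lab2; simp [hx, b0, b3, dT]
  have lS : ∀ x, ty x = Ty.S →
      lab1 cl ty side q0 q K x = (Sum.inl (cl x, side x), q0 x) ∧
      lab2 σ cl ty side q0 q K x = (Sum.inl (cl x, side (σ.symm x)), q0 (σ.symm x) + 1) := by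
    rintro x hx; unfold lab1 lab2; simp [hx]
  rcases hx : ty x
  · -- J1
    obtain ⟨hy, hl⟩ := hJ1 x hx
    obtain ⟨l1, l2⟩ := lJ x (Or.inr hx)
    obtain ⟨m1, m2⟩ := lJ (μ x) (Or.inr hy)
    rw [l1, l2, m1, m2]
    unfold Quad Pr
    simp only [hx, hy, gT, Sum.inr.injEq, ne_eq]
    generalize K x = a at hl ⊢
    generalize K (μ x) = b at hl ⊢
    generalize q x = c at hl ⊢
    generalize q (μ x) = d at hl ⊢
    revert a b c d
    decide
  · -- J0
    obtain ⟨hy, hl⟩ := hJ0 x hx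
    obtain ⟨l1, l2⟩ := lJ x (Or.inl hx)
    obtain ⟨m1, m2⟩ := lJ (μ x) (Or.inl hy)
    rw [l1, l2, m1, m2]
    unfold Quad Pr
    simp only [hx, hy, gT, Sum.inr.injEq, ne_eq]
    generalize K x = a at hl ⊢
    generalize K (μ x) = b at hl ⊢
    generalize q x = c at hl ⊢
    generalize q (μ x) = d at hl ⊢
    revert a b c d
    decide
  · -- Z
    have hy := hZ x hx
    obtain ⟨l1, l2⟩ := lZ x hx
    obtain ⟨m1, m2⟩ := lD (μ x) hy
    rw [l1, l2, m1, m2]
    left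
    refine ⟨⟨rfl, k1 _⟩, ⟨rfl, k1 _⟩, by simp⟩
  · -- D
    obtain ⟨l1, l2⟩ := lD x hx
    rcases hD x hx with hy | ⟨hy, hne⟩
    · obtain ⟨m1, m2⟩ := lZ (μ x) hy
      rw [l1, l2, m1, m2]
      left
      refine ⟨⟨rfl, k1 _⟩, ⟨rfl, k1 _⟩, by simp⟩
    · obtain ⟨m1, m2⟩ := lD (μ x) hy
      rw [l1, l2, m1, m2]
      left
      refine ⟨⟨rfl, k1 _⟩, ⟨rfl, k1 _⟩, ?_⟩
      simp only [ne_eq, Sum.inl.injEq, Prod.mk.injEq, not_and]
      intro h; exact absurd h hne
  · -- S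
    obtain ⟨hy, hc, s1, s2, s3, t1, t2⟩ := hS x hx
    obtain ⟨l1, l2⟩ := lS x hx
    obtain ⟨m1, m2⟩ := lS (μ x) hy
    rw [l1, l2, m1, m2, hc, s1, s2, t1, t2]
    right; right
    refine ⟨⟨rfl, k1 _⟩, ⟨rfl, (k1 _).symm⟩, ?_⟩
    simp only [ne_eq, Sum.inl.injEq, Prod.mk.injEq, true_and]
    intro h; apply s3; rw [s2, h]

end

end Pool.Agent.helper60.ECD
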