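import Mathlib
import Pool.Agent.helper60.ECD.Types

/-!
# The choice of the vertex types
-/

namespace Pool.Agent.helper60.ECD

open Finset

universe u

/-- A cubic graph with an oriented 2-factor (successor permutation `σ`), the perfect matching `μ`,
two independent disjoint joins `D1`, `D2` (as sets of ends), and in each circuit with an odd number
of chords a shortest chord. -/
structure Setup (V : Type u) [Fintype V] [DecidableEq V] where
  σ : Equiv.Perm V
  μ : V → V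
  hμ : ∀ x, μ (μ x) = x
  hμ' : ∀ x, μ x ≠ x
  D1 : Finset V
  D2 : Finset V
  hD1 : ∀ x ∈ D1, μ x ∈ D1
  hD2 : ∀ x ∈ D2, μ x ∈ D2
  hdisj : Disjoint D1 D2
  p1 : ∀ c : V → ZMod 2, (∀ x, c (σ x) = c x) → ∑ x ∈ D1, c x = ∑ x, c x
  p2 : ∀ c : V → ZMod 2, (∀ x, c (σ x) = c x) → ∑ x ∈ D2, c x = ∑ x, c x
  ind1 : ∀ Y ⊆ D1, (∀ x ∈ Y, μ x ∈ Y) →
      (∀ c : V → ZMod 2, (∀ x, c (σ x) = c x) → ∑ x ∈ Y, c x = 0) → Y = ∅
  ind2 : ∀ Y ⊆ D2, (∀ x ∈ Y, μ x ∈ Y) →
      (∀ c : V → ZMod 2, (∀ x, c (σ x) = c x) → ∑ x ∈ Y, c x = 0) → Y = ∅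
  C : Type u
  cl : V → C
  hcl : ∀ x y, cl x = cl y ↔ σ.SameCycle x y
  pick : V → Prop
  hpick : ∀ x, pick (μ x) ↔ ¬ pick x
  odd : C → Prop
  nch : C → ℕ
  hnch : ∀ (S : Finset V) b, (∀ x, x ∈ S ↔ (cl x = b ∧ cl x = cl (μ x))) → S.card = nch b
  hodd : ∀ b, odd b ↔ nch b % 4 = 2
  uu : C → V
  jj : C → ℕ
  h1 : ∀ b, odd b → cl (uu b) = b
  h2 : ∀ b, odd b → 0 < jj b
  h3 : ∀ b, odd b → (σ ^ (jj b)) (uu b) = μ (uu b)
  h4 : ∀ b, odd b → ∀ x i, cl x = b → 0 < i → (σ ^ i) x = μ x → jj b ≤ i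

namespace Setup

variable {V : Type u} [Fintype V] [DecidableEq V] (T : Setup V)

lemma cl_σ (x : V) : T.cl (T.σ x) = T.cl x := by
  rw [T.hcl]
  exact ⟨-1, by simp⟩

lemma cl_pow (i : ℕ) (x : V) : T.cl ((T.σ ^ i) x) = T.cl x := by
  rw [T.hcl]
  exact ⟨-i, by simp⟩

lemma inv_pow {c : V → ZMod 2} (hc : ∀ x, c (T.σ x) = c x) (x y : V) (h : T.cl x = T.cl y) :
    c x = c y := by
  rw [T.hcl] at h
  obtain ⟨i, hi', hi⟩ := h.exists_pow_eq'
  rw [← hi]
  clear hi hi'
  induction i with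
  | zero => simp
  | succ n ih => rw [pow_succ', Equiv.Perm.mul_apply, hc]; exact ih

/-- position on the special arc -/
def U (b : T.C) (i : ℕ) : V := (T.σ ^ i) (T.uu b)

lemma U_zero (b : T.C) : T.U b 0 = T.uu b := by simp [U]

lemma U_succ (b : T.C) (i : ℕ) : T.U b (i + 1) = T.σ (T.U b i) := by
  simp [U, pow_succ', Equiv.Perm.mul_apply]

lemma U_jj {b : T.C} (hb : T.odd b) : T.U b (T.jj b) = T.μ (T.uu b) := T.h3 b hb

lemma cl_U {b : T.C} (hb : T.odd b) (i : ℕ) : T.cl (T.U b i) = b := by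
  rw [U, T.cl_pow, T.h1 b hb]

lemma U_inj {b : T.C} (hb : T.odd b) {i k : ℕ} (hik : i < k) (hk : k ≤ T.jj b) :
    T.U b i ≠ T.U b k := by
  intro h
  have hp : (T.σ ^ (k - i)) (T.uu b) = T.uu b := by
    have : (T.σ ^ i) ((T.σ ^ (k - i)) (T.uu b)) = (T.σ ^ i) (T.uu b) := by
      rw [← Equiv.Perm.mul_apply, ← pow_add]
      have : i + (k - i) = k := by omega
      rw [this]; exact h.symm
    exact (T.σ ^ i).injective this
  have h5 : (T.σ ^ (T.jj b - (k - i))) (T.uu b) = T.μ (T.uu b) := by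
    rw [← T.h3 b hb]
    conv_lhs => rw [← hp]
    rw [← Equiv.Perm.mul_apply, ← pow_add]
    congr 2; omega
  by_cases h6 : T.jj b = k - i
  · rw [h6] at h5
    simp only [Nat.sub_self, pow_zero, Equiv.Perm.coe_one, id_eq] at h5
    exact T.hμ' _ h5.symm
  · have := T.h4 b hb (T.uu b) (T.jj b - (k - i)) (T.h1 b hb) (by omega) h5
    omega

/-- interior of the special arc -/
def inI (x : V) : Prop := T.odd (T.cl x) ∧ ∃ i, 0 < i ∧ i < T.jj (T.cl x) ∧ x = T.U (T.cl x) i

/-- ends of the special chord -/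
def special (x : V) : Prop :=
  T.odd (T.cl x) ∧ (x = T.uu (T.cl x) ∨ x = T.μ (T.uu (T.cl x)))

lemma not_both (x : V) (h : T.inI x) (h' : T.inI (T.μ x)) (hc : T.cl x = T.cl (T.μ x)) : False := by
  obtain ⟨ho, i, hi1, hi2, hi3⟩ := h
  obtain ⟨-, k, hk1, hk2, hk3⟩ := h'
  rw [← hc] at hk2 hk3
  rcases lt_trichotomy i k with h | h | h
  · have : (T.σ ^ (k - i)) x = T.μ x := by
      rw [hk3]
      conv_lhs => rw [hi3]
      unfold U
      rw [← Equiv.Perm.mul_apply, ← pow_add]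
      congr 2; omega
    have := T.h4 _ ho x (k - i) rfl (by omega) this
    omega
  · subst h
    exact T.hμ' x (hk3.trans hi3.symm)
  · have : (T.σ ^ (i - k)) (T.μ x) = T.μ (T.μ x) := by
      rw [T.hμ]
      conv_rhs => rw [hi3]
      rw [hk3]
      unfold U
      rw [← Equiv.Perm.mul_apply, ← pow_add]
      congr 2; omega
    have := T.h4 _ ho (T.μ x) (i - k) hc.symm (by omega) this
    omega

lemma special_μ (x : V) (h : T.special x) : T.cl (T.μ x) = T.cl x ∧ T.special (T.μ x) := by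
  obtain ⟨ho, h⟩ := h
  have hv : T.cl (T.μ (T.uu (T.cl x))) = T.cl x := by
    rw [← T.h3 _ ho, T.cl_pow, T.h1 _ ho]
  have hcl : T.cl (T.μ x) = T.cl x := by
    rcases h with h | h
    · conv_lhs => rw [h]
      exact hv
    · conv_lhs => rw [h]
      rw [T.hμ, T.h1 _ ho]
  refine ⟨hcl, ?_, ?_⟩
  · rw [hcl]; exact ho
  · rw [hcl]
    rcases h with h | h
    · right; conv_lhs => rw [h]
    · left; conv_lhs => rw [h]
      exact T.hμ _

lemma special_iff (x : V) : T.special (T.μ x) ↔ T.special x :=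
  ⟨fun h => by have := (T.special_μ _ h).2; rwa [T.hμ] at this, fun h => (T.special_μ _ h).2⟩

/-- uncovered chord ends at which the other circuit takes the detour -/
def isZ (x : V) : Prop :=
  T.cl x = T.cl (T.μ x) ∧ ¬ T.special x ∧
    (T.inI (T.μ x) ∨ (¬ T.inI x ∧ ¬ T.inI (T.μ x) ∧ T.pick x))

lemma isZ_xor (x : V) (hc : T.cl x = T.cl (T.μ x)) (hs : ¬ T.special x) :
    T.isZ (T.μ x) ↔ ¬ T.isZ x := by
  have h0 := T.not_both x
  have h1 := T.hpick x
  have h2 := T.special_iff x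
  unfold isZ
  rw [T.hμ, h2, h1]
  by_cases a : T.inI x
  · have b : ¬ T.inI (T.μ x) := fun b => h0 a b hc
    simp only [a, b, hc, hs, not_true_eq_false, not_false_eq_true, true_and, false_and, or_false,
      and_false, or_self, and_self]
  · by_cases b : T.inI (T.μ x)
    · simp only [a, b, hc, hs, not_true_eq_false, not_false_eq_true, true_and, false_and, or_false,
        and_true, true_or, and_false, not_or, or_self, and_self]
    · simp only [a, b, hc, hs, not_false_eq_true, true_and, false_or, and_self]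

open Classical in
/-- number of ends of `D1` in the interior of the special arc -/
noncomputable def al (b : T.C) : ZMod 2 :=
  ∑ i ∈ range (T.jj b - 1), if T.U b (i + 1) ∈ T.D1 then 1 else 0

open Classical in
/-- number of ends of `D2` in the interior of the special arc -/
noncomputable def be (b : T.C) : ZMod 2 :=
  ∑ i ∈ range (T.jj b - 1), if T.U b (i + 1) ∈ T.D2 then 1 else 0

open Classical in
/-- the treatment of the special chord -/
noncomputable def mode (b : T.C) : Ty :=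
  if T.al b + T.be b = 0 then Ty.S
  else if ((T.jj b - 1 : ℕ) : ZMod 2) + T.be b = 0 then Ty.J1 else Ty.J0

open Classical in
/-- the type of a vertex -/
noncomputable def ty (x : V) : Ty :=
  if x ∈ T.D1 then Ty.J1 else if x ∈ T.D2 then Ty.J0
  else if T.special x then T.mode (T.cl x) else if T.isZ x then Ty.Z else Ty.D

lemma chord_notMem1 (x : V) (hc : T.cl x = T.cl (T.μ x)) : x ∉ T.D1 := by
  intro hx
  have : ({x, T.μ x} : Finset V) = ∅ := by
    apply T.ind1
    · intro y hy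
      simp only [Finset.mem_insert, Finset.mem_singleton] at hy
      rcases hy with rfl | rfl
      · exact hx
      · exact T.hD1 _ hx
    · intro y hy
      simp only [Finset.mem_insert, Finset.mem_singleton] at hy ⊢
      rcases hy with rfl | rfl
      · exact Or.inr rfl
      · left; exact T.hμ _
    · intro c hcc
      rw [Finset.sum_pair (T.hμ' x).symm, T.inv_pow hcc x (T.μ x) hc]
      have : ∀ z : ZMod 2, z + z = 0 := by decide
      exact this _
  have hx' : x ∈ ({x, T.μ x} : Finset V) := by simp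
  rw [this] at hx'
  exact absurd hx' (Finset.notMem_empty _)

lemma chord_notMem2 (x : V) (hc : T.cl x = T.cl (T.μ x)) : x ∉ T.D2 := by
  intro hx
  have : ({x, T.μ x} : Finset V) = ∅ := by
    apply T.ind2
    · intro y hy
      simp only [Finset.mem_insert, Finset.mem_singleton] at hy
      rcases hy with rfl | rfl
      · exact hx
      · exact T.hD2 _ hx
    · intro y hy
      simp only [Finset.mem_insert, Finset.mem_singleton] at hy ⊢
      rcases hy with rfl | rfl
      · exact Or.inr rfl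
      · left; exact T.hμ _
    · intro c hcc
      rw [Finset.sum_pair (T.hμ' x).symm, T.inv_pow hcc x (T.μ x) hc]
      have : ∀ z : ZMod 2, z + z = 0 := by decide
      exact this _
  have hx' : x ∈ ({x, T.μ x} : Finset V) := by simp
  rw [this] at hx'
  exact absurd hx' (Finset.notMem_empty _)

lemma special_notMem1 {x : V} (h : T.special x) : x ∉ T.D1 :=
  T.chord_notMem1 x (T.special_μ x h).1.symm

lemma special_notMem2 {x : V} (h : T.special x) : x ∉ T.D2 :=
  T.chord_notMem2 x (T.special_μ x h).1.symm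

lemma isZ_notMem1 {x : V} (h : T.isZ x) : x ∉ T.D1 := T.chord_notMem1 x h.1

lemma isZ_notMem2 {x : V} (h : T.isZ x) : x ∉ T.D2 := T.chord_notMem2 x h.1

lemma D1_notMem2 {x : V} (h : x ∈ T.D1) : x ∉ T.D2 := Finset.disjoint_left.mp T.hdisj h

lemma memD1_μ (x : V) : T.μ x ∈ T.D1 ↔ x ∈ T.D1 :=
  ⟨fun h => by have := T.hD1 _ h; rwa [T.hμ] at this, T.hD1 x⟩

lemma memD2_μ (x : V) : T.μ x ∈ T.D2 ↔ x ∈ T.D2 :=
  ⟨fun h => by have := T.hD2 _ h; rwa [T.hμ] at this, T.hD2 x⟩

lemma ty_special {x : V} (h : T.special x) : T.ty x = T.mode (T.cl x) := by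
  unfold ty
  rw [if_neg (T.special_notMem1 h), if_neg (T.special_notMem2 h), if_pos h]

lemma mode_cases (b : T.C) :
    (T.mode b = Ty.S ∧ T.al b + T.be b = 0) ∨
    (T.mode b = Ty.J1 ∧ ((T.jj b - 1 : ℕ) : ZMod 2) + T.be b = 0) ∨
    (T.mode b = Ty.J0 ∧ ((T.jj b - 1 : ℕ) : ZMod 2) + T.al b = 0) := by
  unfold mode
  split_ifs with a b'
  · exact Or.inl ⟨rfl, a⟩
  · exact Or.inr (Or.inl ⟨rfl, b'⟩)
  · right; right
    refine ⟨rfl, ?_⟩
    have key : ∀ s t u : ZMod 2, ¬ s + t = 0 → ¬ u + t = 0 → u + s = 0 := by decide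
    exact key _ _ _ a b'

lemma hZ (x : V) (h : T.ty x = Ty.Z) : T.ty (T.μ x) = Ty.D := by
  have hm := T.mode_cases (T.cl x)
  unfold ty at h ⊢
  split_ifs at h with a b c d
  · rcases hm with ⟨hm, -⟩ | ⟨hm, -⟩ | ⟨hm, -⟩ <;> rw [hm] at h <;> exact absurd h (by decide)
  · rw [if_neg (fun h => a ((T.memD1_μ x).mp h)), if_neg (fun h => b ((T.memD2_μ x).mp h)),
      if_neg (fun h => c ((T.special_iff x).mp h)), if_neg]
    rw [T.isZ_xor x d.1 c]
    exact not_not.mpr d

lemma hD (x : V) (h : T.ty x = Ty.D) :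
    T.ty (T.μ x) = Ty.Z ∨ (T.ty (T.μ x) = Ty.D ∧ T.cl x ≠ T.cl (T.μ x)) := by
  have hm := T.mode_cases (T.cl x)
  unfold ty at h ⊢
  split_ifs at h with a b c d
  · rcases hm with ⟨hm, -⟩ | ⟨hm, -⟩ | ⟨hm, -⟩ <;> rw [hm] at h <;> exact absurd h (by decide)
  · rw [if_neg (fun h => a ((T.memD1_μ x).mp h)), if_neg (fun h => b ((T.memD2_μ x).mp h)),
      if_neg (fun h => c ((T.special_iff x).mp h))]
    by_cases hc : T.cl x = T.cl (T.μ x)
    · left
      rw [if_pos]
      rw [T.isZ_xor x hc c]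
      exact d
    · right
      rw [if_neg]
      · exact ⟨rfl, hc⟩
      · intro h'
        have := h'.1
        rw [T.hμ] at this
        exact hc this.symm

lemma tyJ1 (x : V) (h : T.ty x = Ty.J1) : x ∈ T.D1 ∨ (T.special x ∧ T.mode (T.cl x) = Ty.J1) := by
  unfold ty at h
  split_ifs at h with a b c d
  · exact Or.inl a
  · exact Or.inr ⟨c, h⟩

lemma tyJ0 (x : V) (h : T.ty x = Ty.J0) : x ∈ T.D2 ∨ (T.special x ∧ T.mode (T.cl x) = Ty.J0) := by
  unfold ty at h
  split_ifs at h with a b c d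
  · exact Or.inl b
  · exact Or.inr ⟨c, h⟩

lemma tyS (x : V) (h : T.ty x = Ty.S) : T.special x ∧ T.mode (T.cl x) = Ty.S := by
  unfold ty at h
  split_ifs at h with a b c d
  exact ⟨c, h⟩

lemma ty_D1 {x : V} (h : x ∈ T.D1) : T.ty x = Ty.J1 := by
  unfold ty; rw [if_pos h]

lemma ty_D2 {x : V} (h : x ∈ T.D2) : T.ty x = Ty.J0 := by
  unfold ty
  rw [if_neg (fun h' => T.D1_notMem2 h' h), if_pos h]

/-- types in the interior of the special arc -/
lemma ty_arc {b : T.C} (hb : T.odd b) {i : ℕ} (hi : i < T.jj b - 1) (hx1 : T.U b (i + 1) ∉ T.D1)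
    (hx2 : T.U b (i + 1) ∉ T.D2) : T.ty (T.U b (i + 1)) = Ty.D := by
  have hcl := T.cl_U hb (i + 1)
  have hI : T.inI (T.U b (i + 1)) := by
    refine ⟨?_, i + 1, by omega, ?_, ?_⟩
    · rw [hcl]; exact hb
    · rw [hcl]; omega
    · rw [hcl]
  unfold ty
  rw [if_neg hx1, if_neg hx2, if_neg, if_neg]
  · rintro ⟨hc, -, h | h⟩
    · exact T.not_both _ hI h hc
    · exact h.1 hI
  · rintro ⟨-, h | h⟩
    · rw [hcl, ← T.U_zero] at h
      exact T.U_inj hb (Nat.succ_pos i) (by omega) h.symm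
    · rw [hcl, ← T.U_jj hb] at h
      exact T.U_inj hb (i := i + 1) (k := T.jj b) (by omega) le_rfl h

end Setup

end Pool.Agent.helper60.ECD
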