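import Mathlib
import Pool.Agent.helper60.ECD.Setup

/-!
# Solving the linear systems
-/

namespace Pool.Agent.helper60.ECD

open Finset

universe u

namespace Setup

variable {V : Type u} [Fintype V] [DecidableEq V] (T : Setup V)

open Classical in
lemma sum_cl (a : V → ZMod 2) (h : ∀ b, ∑ x ∈ univ.filter (fun x => T.cl x = b), a x = 0)
    (c : V → ZMod 2) (hc : ∀ x, c (T.σ x) = c x) : ∑ x, c x * a x = 0 := by
  rw [← Finset.sum_fiberwise_of_maps_to (t := univ.image T.cl) (g := T.cl)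
    (fun x _ => Finset.mem_image_of_mem _ (Finset.mem_univ x))]
  apply Finset.sum_eq_zero
  intro b hb
  obtain ⟨y, -, hy⟩ := Finset.mem_image.mp hb
  have : ∀ x ∈ univ.filter (fun x => T.cl x = b), c x * a x = c y * a x := by
    intro x hx
    simp only [Finset.mem_filter, Finset.mem_univ, true_and] at hx
    rw [T.inv_pow hc x y (hx.trans hy.symm)]
  rw [Finset.sum_congr rfl this, ← Finset.mul_sum, h b, mul_zero]

open Classical in
lemma card_special (b : T.C) :
    (univ.filter (fun x => T.cl x = b ∧ T.special x)).card = if T.odd b then 2 else 0 := by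
  by_cases hb : T.odd b
  · rw [if_pos hb]
    have : univ.filter (fun x => T.cl x = b ∧ T.special x) = {T.uu b, T.μ (T.uu b)} := by
      ext x
      simp only [Finset.mem_filter, Finset.mem_univ, true_and, Finset.mem_insert,
        Finset.mem_singleton]
      have hv : T.cl (T.μ (T.uu b)) = b := by rw [← T.h3 b hb, T.cl_pow, T.h1 b hb]
      constructor
      · rintro ⟨h1, -, h2⟩
        rw [h1] at h2; exact h2
      · rintro (h | h)
        · refine ⟨by rw [h]; exact T.h1 b hb, ?_, ?_⟩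
          · rw [h, T.h1 b hb]; exact hb
          · rw [h, T.h1 b hb]; exact Or.inl rfl
        · refine ⟨by rw [h]; exact hv, ?_, ?_⟩
          · rw [h, hv]; exact hb
          · rw [h, hv]; exact Or.inr rfl
    rw [this, Finset.card_pair (T.hμ' _).symm]
  · rw [if_neg hb, Finset.card_eq_zero]
    ext x
    simp only [Finset.mem_filter, Finset.mem_univ, true_and, Finset.notMem_empty, iff_false]
    rintro ⟨h1, h2, -⟩
    rw [h1] at h2; exact hb h2

open Classical in
lemma even_Z (b : T.C) : Even (univ.filter (fun x => T.cl x = b ∧ T.isZ x)).card := by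
  have h0 := T.hnch (univ.filter (fun x => T.cl x = b ∧ T.cl x = T.cl (T.μ x))) b (by simp)
  have h1 := T.card_special b
  have h2 := T.hodd b
  have h3 : (univ.filter (fun x => T.cl x = b ∧ T.cl x = T.cl (T.μ x) ∧ ¬ T.special x ∧
      ¬ T.isZ x)).card = (univ.filter (fun x => T.cl x = b ∧ T.isZ x)).card := by
    apply Finset.card_bij (fun x _ => T.μ x)
    · intro x hx
      simp only [Finset.mem_filter, Finset.mem_univ, true_and] at hx ⊢
      obtain ⟨a, b, c, d⟩ := hx
      exact ⟨b.symm.trans a, (T.isZ_xor x b c).mpr d⟩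
    · intro x _ y _ hxy
      rw [← T.hμ x, hxy, T.hμ]
    · intro y hy
      simp only [Finset.mem_filter, Finset.mem_univ, true_and] at hy
      obtain ⟨a, c⟩ := hy
      refine ⟨T.μ y, ?_, T.hμ y⟩
      simp only [Finset.mem_filter, Finset.mem_univ, true_and, T.hμ]
      refine ⟨c.1.symm.trans a, c.1.symm, ?_, ?_⟩
      · rw [T.special_iff]; exact c.2.1
      · rw [T.isZ_xor y c.1 c.2.1]
        exact not_not.mpr c
  have h4 : (univ.filter (fun x => T.cl x = b ∧ T.cl x = T.cl (T.μ x))).card =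
      (univ.filter (fun x => T.cl x = b ∧ T.special x)).card +
      ((univ.filter (fun x => T.cl x = b ∧ T.isZ x)).card +
      (univ.filter (fun x => T.cl x = b ∧ T.cl x = T.cl (T.μ x) ∧ ¬ T.special x ∧
      ¬ T.isZ x)).card) := by
    rw [← Finset.card_union_of_disjoint, ← Finset.card_union_of_disjoint]
    · congr 1
      ext x
      simp only [Finset.mem_filter, Finset.mem_univ, true_and, Finset.mem_union]
      constructor
      · rintro ⟨h5, h6⟩
        by_cases h7 : T.special x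
        · exact Or.inl ⟨h5, h7⟩
        · by_cases h8 : T.isZ x
          · exact Or.inr (Or.inl ⟨h5, h8⟩)
          · exact Or.inr (Or.inr ⟨h5, h6, h7, h8⟩)
      · rintro (⟨h5, h6⟩ | ⟨h5, h6⟩ | ⟨h5, h6, -⟩)
        · exact ⟨h5, (T.special_μ x h6).1.symm⟩
        · exact ⟨h5, h6.1⟩
        · exact ⟨h5, h6⟩
    · rw [Finset.disjoint_left]
      intro x hx
      simp only [Finset.mem_filter, Finset.mem_univ, true_and, Finset.mem_union, not_or] at hx ⊢
      exact ⟨fun h => h.2.2.1 hx.2, fun h => h.2.2.1 hx.2⟩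
    · rw [Finset.disjoint_left]
      intro x hx
      simp only [Finset.mem_filter, Finset.mem_univ, true_and] at hx ⊢
      exact fun h => h.2.2.2 hx.2
  rw [h0, h1, h3] at h4
  by_cases hb : T.odd b
  · rw [if_pos hb] at h4
    have := h2.mp hb
    rw [Nat.even_iff]; omega
  · rw [if_neg hb] at h4
    have : ¬ T.nch b % 4 = 2 := fun h => hb (h2.mpr h)
    rw [Nat.even_iff]; omega

open Classical in
lemma sum_Z (b : T.C) :
    ∑ x ∈ univ.filter (fun x => T.cl x = b), (if T.isZ x then (1 : ZMod 2) else 0) = 0 := by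
  rw [← Finset.sum_filter, Finset.sum_const, Finset.filter_filter, nsmul_eq_mul, mul_one]
  obtain ⟨k, hk⟩ := T.even_Z b
  rw [hk]; push_cast
  have : ∀ z : ZMod 2, z + z = 0 := by decide
  exact this _

open Classical in
lemma sum_sp (b : T.C) (m : Ty) :
    ∑ x ∈ univ.filter (fun x => T.cl x = b),
      (if T.special x ∧ T.mode (T.cl x) = m then (1 : ZMod 2) else 0) = 0 := by
  rw [Finset.sum_filter]
  apply Finset.sum_involution (fun x _ => T.μ x)
  · intro x _
    have : ∀ z : ZMod 2, z + z = 0 := by decide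
    by_cases h : T.special x
    · have h' := T.special_μ x h
      rw [h'.1]
      simp only [h, h'.2, true_and]
      exact this _
    · have h' : ¬ T.special (T.μ x) := fun h'' => h ((T.special_iff x).mp h'')
      simp [h, h']
  · intro x _ _; exact T.hμ' x
  · intro x _; exact Finset.mem_univ _
  · intro x _; exact T.hμ x

open Classical in
lemma sum_D1 (b : T.C) :
    ∑ x ∈ univ.filter (fun x => T.cl x = b), (if x ∈ T.D1 then (1 : ZMod 2) else 0) =
    ∑ x ∈ univ.filter (fun x => T.cl x = b), (1 : ZMod 2) := by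
  have h := T.p1 (fun x => if T.cl x = b then 1 else 0) (fun x => by simp only [T.cl_σ])
  rw [Finset.sum_filter, Finset.sum_filter]
  rw [← h, ← Finset.sum_filter_add_sum_filter_not univ (fun x => x ∈ T.D1)]
  have h1 : ∑ x ∈ univ.filter (fun x => x ∉ T.D1),
      (if T.cl x = b then (if x ∈ T.D1 then (1 : ZMod 2) else 0) else 0) = 0 := by
    apply Finset.sum_eq_zero
    intro x hx
    simp only [Finset.mem_filter, Finset.mem_univ, true_and] at hx
    simp [hx]
  rw [h1, add_zero]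
  have h2 : univ.filter (fun x => x ∈ T.D1) = T.D1 := by ext x; simp
  rw [h2]
  refine Finset.sum_congr rfl fun x hx => ?_
  simp [hx]

open Classical in
lemma sum_D2 (b : T.C) :
    ∑ x ∈ univ.filter (fun x => T.cl x = b), (if x ∈ T.D2 then (1 : ZMod 2) else 0) =
    ∑ x ∈ univ.filter (fun x => T.cl x = b), (1 : ZMod 2) := by
  have h := T.p2 (fun x => if T.cl x = b then 1 else 0) (fun x => by simp only [T.cl_σ])
  rw [Finset.sum_filter, Finset.sum_filter]
  rw [← h, ← Finset.sum_filter_add_sum_filter_not univ (fun x => x ∈ T.D2)]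
  have h1 : ∑ x ∈ univ.filter (fun x => x ∉ T.D2),
      (if T.cl x = b then (if x ∈ T.D2 then (1 : ZMod 2) else 0) else 0) = 0 := by
    apply Finset.sum_eq_zero
    intro x hx
    simp only [Finset.mem_filter, Finset.mem_univ, true_and] at hx
    simp [hx]
  rw [h1, add_zero]
  have h2 : univ.filter (fun x => x ∈ T.D2) = T.D2 := by ext x; simp
  rw [h2]
  refine Finset.sum_congr rfl fun x hx => ?_
  simp [hx]

lemma e2 : ∀ z : ZMod 2, z + z = 0 := by decide

open Classical in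
lemma pt_g (x : V) : 1 + gT (T.ty x) = (if x ∈ T.D1 then 1 else 0) + 1 +
    (if T.special x ∧ T.mode (T.cl x) = Ty.J1 then 1 else 0) + (if T.isZ x then 1 else 0) := by
  have hm := T.mode_cases (T.cl x)
  by_cases a : x ∈ T.D1
  · have b : ¬ T.special x := fun h => T.special_notMem1 h a
    have c : ¬ T.isZ x := fun h => T.isZ_notMem1 h a
    rw [T.ty_D1 a]
    simp only [gT, a, b, c, if_true, if_false, false_and]
    decide
  by_cases a2 : x ∈ T.D2
  · have b : ¬ T.special x := fun h => T.special_notMem2 h a2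
    have c : ¬ T.isZ x := fun h => T.isZ_notMem2 h a2
    rw [T.ty_D2 a2]
    simp only [gT, a, b, c, if_false, false_and]
    decide
  by_cases b : T.special x
  · have c : ¬ T.isZ x := fun h => h.2.1 b
    rw [T.ty_special b]
    rcases hm with ⟨hm, -⟩ | ⟨hm, -⟩ | ⟨hm, -⟩ <;> rw [hm] <;>
      simp [gT, a, b, c]
  by_cases c : T.isZ x
  · have : T.ty x = Ty.Z := by
      unfold ty; rw [if_neg a, if_neg a2, if_neg b, if_pos c]
    rw [this]
    simp [gT, a, b, c]
  · have : T.ty x = Ty.D := by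
      unfold ty; rw [if_neg a, if_neg a2, if_neg b, if_neg c]
    rw [this]
    simp [gT, a, b, c]

open Classical in
lemma pt_j (x : V) : jT (T.ty x) = (if x ∈ T.D1 then 1 else 0) + (if x ∈ T.D2 then 1 else 0) +
    (if T.special x ∧ T.mode (T.cl x) = Ty.J1 then 1 else 0) +
    (if T.special x ∧ T.mode (T.cl x) = Ty.J0 then 1 else 0) := by
  have hm := T.mode_cases (T.cl x)
  by_cases a : x ∈ T.D1
  · have b : ¬ T.special x := fun h => T.special_notMem1 h a
    have c : x ∉ T.D2 := T.D1_notMem2 a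
    rw [T.ty_D1 a]
    simp [jT, a, b, c]
  by_cases a2 : x ∈ T.D2
  · have b : ¬ T.special x := fun h => T.special_notMem2 h a2
    rw [T.ty_D2 a2]
    simp [jT, a, b, a2]
  by_cases b : T.special x
  · rw [T.ty_special b]
    rcases hm with ⟨hm, -⟩ | ⟨hm, -⟩ | ⟨hm, -⟩ <;> rw [hm] <;>
      simp [jT, a, b, a2]
  by_cases c : T.isZ x
  · have : T.ty x = Ty.Z := by
      unfold ty; rw [if_neg a, if_neg a2, if_neg b, if_pos c]
    rw [this]
    simp [jT, a, b, a2]
  · have : T.ty x = Ty.D := by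
      unfold ty; rw [if_neg a, if_neg a2, if_neg b, if_neg c]
    rw [this]
    simp [jT, a, b, a2]

open Classical in
lemma pt_d (x : V) : 1 + dT (T.ty x) = (if x ∈ T.D1 then 1 else 0) + (if x ∈ T.D2 then 1 else 0) +
    (if T.special x ∧ T.mode (T.cl x) = Ty.J1 then 1 else 0) +
    (if T.special x ∧ T.mode (T.cl x) = Ty.J0 then 1 else 0) + (if T.isZ x then 1 else 0) := by
  have hm := T.mode_cases (T.cl x)
  have h11 : (1 + 1 : ZMod 2) = 0 := by decide
  by_cases a : x ∈ T.D1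
  · have b : ¬ T.special x := fun h => T.special_notMem1 h a
    have c : x ∉ T.D2 := T.D1_notMem2 a
    have d : ¬ T.isZ x := fun h => T.isZ_notMem1 h a
    rw [T.ty_D1 a]
    simp [dT, a, b, c, d]
  by_cases a2 : x ∈ T.D2
  · have b : ¬ T.special x := fun h => T.special_notMem2 h a2
    have d : ¬ T.isZ x := fun h => T.isZ_notMem2 h a2
    rw [T.ty_D2 a2]
    simp [dT, a, b, a2, d]
  by_cases b : T.special x
  · have d : ¬ T.isZ x := fun h => h.2.1 b
    rw [T.ty_special b]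
    rcases hm with ⟨hm, -⟩ | ⟨hm, -⟩ | ⟨hm, -⟩ <;> rw [hm] <;>
      simp [dT, a, b, a2, d, h11]
  by_cases c : T.isZ x
  · have : T.ty x = Ty.Z := by
      unfold ty; rw [if_neg a, if_neg a2, if_neg b, if_pos c]
    rw [this]
    simp [dT, a, b, a2, c]
  · have : T.ty x = Ty.D := by
      unfold ty; rw [if_neg a, if_neg a2, if_neg b, if_neg c]
    rw [this]
    simp [dT, a, b, a2, c, h11]

lemma inv_g (c : V → ZMod 2) (hc : ∀ x, c (T.σ x) = c x) :
    ∑ x, c x * (1 + gT (T.ty x)) = 0 := by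
  classical
  apply T.sum_cl _ _ c hc
  intro b
  rw [Finset.sum_congr rfl (fun x _ => T.pt_g x)]
  simp only [Finset.sum_add_distrib]
  rw [T.sum_Z, T.sum_sp, T.sum_D1, add_zero, add_zero]
  exact e2 _

lemma inv_j (c : V → ZMod 2) (hc : ∀ x, c (T.σ x) = c x) :
    ∑ x, c x * jT (T.ty x) = 0 := by
  classical
  apply T.sum_cl _ _ c hc
  intro b
  rw [Finset.sum_congr rfl (fun x _ => T.pt_j x)]
  simp only [Finset.sum_add_distrib]
  rw [T.sum_sp, T.sum_sp, T.sum_D1, T.sum_D2, add_zero, add_zero]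
  exact e2 _

lemma inv_d (c : V → ZMod 2) (hc : ∀ x, c (T.σ x) = c x) :
    ∑ x, c x * (1 + dT (T.ty x)) = 0 := by
  classical
  apply T.sum_cl _ _ c hc
  intro b
  rw [Finset.sum_congr rfl (fun x _ => T.pt_d x)]
  simp only [Finset.sum_add_distrib]
  rw [T.sum_sp, T.sum_sp, T.sum_D1, T.sum_D2, T.sum_Z, add_zero, add_zero, add_zero]
  exact e2 _

/-- iterating a recurrence along the special arc -/
lemma rec_U (b : T.C) (q a : V → ZMod 2) (h : ∀ x, q (T.σ x) = q x + a (T.σ x)) (n : ℕ) :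
    q (T.U b n) = q (T.uu b) + ∑ i ∈ range n, a (T.U b (i + 1)) := by
  induction n with
  | zero => simp [U_zero]
  | succ n ih => rw [U_succ, h, ih, Finset.sum_range_succ, ← U_succ, add_assoc]

open Classical in
lemma arc_g {b : T.C} (hb : T.odd b) {i : ℕ} (hi : i < T.jj b - 1) :
    gT (T.ty (T.U b (i + 1))) = if T.U b (i + 1) ∈ T.D1 then 1 else 0 := by
  by_cases h1 : T.U b (i + 1) ∈ T.D1
  · rw [T.ty_D1 h1, if_pos h1]; rfl
  · rw [if_neg h1]
    by_cases h2 : T.U b (i + 1) ∈ T.D2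
    · rw [T.ty_D2 h2]; rfl
    · rw [T.ty_arc hb hi h1 h2]; rfl

open Classical in
lemma arc_j {b : T.C} (hb : T.odd b) {i : ℕ} (hi : i < T.jj b - 1) :
    jT (T.ty (T.U b (i + 1))) = (if T.U b (i + 1) ∈ T.D1 then 1 else 0) +
      (if T.U b (i + 1) ∈ T.D2 then 1 else 0) := by
  by_cases h1 : T.U b (i + 1) ∈ T.D1
  · rw [T.ty_D1 h1, if_pos h1, if_neg (T.D1_notMem2 h1)]; rfl
  · rw [if_neg h1]
    by_cases h2 : T.U b (i + 1) ∈ T.D2
    · rw [T.ty_D2 h2, if_pos h2]; rfl
    · rw [T.ty_arc hb hi h1 h2, if_neg h2]; rfl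

open Classical in
lemma arc_d {b : T.C} (hb : T.odd b) {i : ℕ} (hi : i < T.jj b - 1) :
    1 + dT (T.ty (T.U b (i + 1))) = (if T.U b (i + 1) ∈ T.D1 then 1 else 0) +
      (if T.U b (i + 1) ∈ T.D2 then 1 else 0) := by
  by_cases h1 : T.U b (i + 1) ∈ T.D1
  · rw [T.ty_D1 h1, if_pos h1, if_neg (T.D1_notMem2 h1)]; rfl
  · rw [if_neg h1]
    by_cases h2 : T.U b (i + 1) ∈ T.D2
    · rw [T.ty_D2 h2, if_pos h2]; rfl
    · rw [T.ty_arc hb hi h1 h2, if_neg h2]; rfl

lemma q_arc {b : T.C} (hb : T.odd b) (q : V → ZMod 2)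
    (r1 : ∀ x, q (T.σ x) = q x + (1 + gT (T.ty (T.σ x)))) :
    q (T.μ (T.uu b)) = q (T.uu b) + (((T.jj b - 1 : ℕ) : ZMod 2) + T.al b +
      (1 + gT (T.mode b))) := by
  classical
  have hj := T.h2 b hb
  have h := T.rec_U b q (fun x => 1 + gT (T.ty x)) r1 (T.jj b - 1 + 1)
  rw [Finset.sum_range_succ, Nat.sub_add_cancel hj, T.U_jj hb] at h
  rw [h]
  have hs : T.special (T.μ (T.uu b)) := by
    refine (T.special_iff _).mpr ⟨?_, ?_⟩
    · rw [T.h1 b hb]; exact hb
    · rw [T.h1 b hb]; exact Or.inl rfl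
  have hcl : T.cl (T.μ (T.uu b)) = b := by rw [← T.h3 b hb, T.cl_pow, T.h1 b hb]
  rw [T.ty_special hs, hcl]
  congr 2
  rw [Finset.sum_congr rfl (fun i hi => by rw [T.arc_g hb (Finset.mem_range.mp hi)]),
    Finset.sum_add_distrib]
  simp [al]

lemma K_arc {b : T.C} (hb : T.odd b) (K : V → ZMod 2)
    (r2 : ∀ x, K (T.σ x) = K x + jT (T.ty (T.σ x))) :
    K (T.μ (T.uu b)) = K (T.uu b) + (T.al b + T.be b + jT (T.mode b)) := by
  classical
  have hj := T.h2 b hb
  have h := T.rec_U b K (fun x => jT (T.ty x)) r2 (T.jj b - 1 + 1)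
  rw [Finset.sum_range_succ, Nat.sub_add_cancel hj, T.U_jj hb] at h
  rw [h]
  have hs : T.special (T.μ (T.uu b)) := by
    refine (T.special_iff _).mpr ⟨?_, ?_⟩
    · rw [T.h1 b hb]; exact hb
    · rw [T.h1 b hb]; exact Or.inl rfl
  have hcl : T.cl (T.μ (T.uu b)) = b := by rw [← T.h3 b hb, T.cl_pow, T.h1 b hb]
  rw [T.ty_special hs, hcl]
  congr 2
  rw [Finset.sum_congr rfl (fun i hi => by rw [T.arc_j hb (Finset.mem_range.mp hi)]),
    Finset.sum_add_distrib]
  simp [al, be]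

lemma q0_arc {b : T.C} (hb : T.odd b) (q : V → ZMod 2)
    (r0 : ∀ x, q (T.σ x) = q x + (1 + dT (T.ty (T.σ x)))) :
    q (T.σ.symm (T.μ (T.uu b))) = q (T.uu b) + (T.al b + T.be b) := by
  classical
  have hj := T.h2 b hb
  have h := T.rec_U b q (fun x => 1 + dT (T.ty x)) r0 (T.jj b - 1)
  have h5 : T.σ.symm (T.μ (T.uu b)) = T.U b (T.jj b - 1) := by
    rw [Equiv.symm_apply_eq, ← U_succ, Nat.sub_add_cancel hj, T.U_jj hb]
  rw [h5, h]
  congr 1
  rw [Finset.sum_congr rfl (fun i hi => by rw [T.arc_d hb (Finset.mem_range.mp hi)]),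
    Finset.sum_add_distrib]
  simp [al, be]

open Classical in
/-- the side of the splitting chord -/
noncomputable def side (x : V) : ZMod 2 :=
  if T.odd (T.cl x) ∧ T.mode (T.cl x) = Ty.S ∧ ∃ i < T.jj (T.cl x), x = T.U (T.cl x) i then 1 else 0

lemma hside (x : V) (h : T.ty (T.σ x) ≠ Ty.S) : T.side (T.σ x) = T.side x := by
  classical
  unfold side
  rw [T.cl_σ]
  by_cases ho : T.odd (T.cl x)
  swap
  · simp [ho]
  by_cases hm : T.mode (T.cl x) = Ty.S
  swap
  · simp [hm]
  simp only [ho, hm, true_and]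
  have hns : ¬ T.special (T.σ x) := by
    intro hs
    apply h
    rw [T.ty_special hs, T.cl_σ, hm]
  have hnu : T.σ x ≠ T.uu (T.cl x) := by
    intro h'
    apply hns
    refine ⟨by rw [T.cl_σ]; exact ho, Or.inl (by rw [T.cl_σ]; exact h')⟩
  have hnv : T.σ x ≠ T.μ (T.uu (T.cl x)) := by
    intro h'
    apply hns
    refine ⟨by rw [T.cl_σ]; exact ho, Or.inr (by rw [T.cl_σ]; exact h')⟩
  have : (∃ i < T.jj (T.cl x), T.σ x = T.U (T.cl x) i) ↔ ∃ i < T.jj (T.cl x), x = T.U (T.cl x) i := by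
    constructor
    · rintro ⟨i, hi, h'⟩
      rcases i with _ | i
      · rw [U_zero] at h'; exact absurd h' hnu
      · rw [U_succ] at h'
        exact ⟨i, by omega, T.σ.injective h'⟩
    · rintro ⟨i, hi, h'⟩
      have h6 : T.σ x = T.U (T.cl x) (i + 1) := by
        rw [U_succ]; conv_lhs => rw [h']
      refine ⟨i + 1, ?_, h6⟩
      rcases Nat.lt_or_ge (i + 1) (T.jj (T.cl x)) with h7 | h7
      · exact h7
      · exfalso
        have h8 : i + 1 = T.jj (T.cl x) := by omega
        rw [h8, T.U_jj ho] at h6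
        exact hnv h6
  simp only [this]

lemma side_facts {b : T.C} (hb : T.odd b) (hm : T.mode b = Ty.S) :
    T.side (T.uu b) = 1 ∧ T.side (T.μ (T.uu b)) = 0 ∧ T.side (T.σ.symm (T.uu b)) = 0 ∧
      T.side (T.σ.symm (T.μ (T.uu b))) = 1 := by
  classical
  have hj := T.h2 b hb
  have c1 := T.h1 b hb
  have c2 : T.cl (T.μ (T.uu b)) = b := by rw [← T.h3 b hb, T.cl_pow, T.h1 b hb]
  have c3 : T.cl (T.σ.symm (T.uu b)) = b := by
    rw [← T.cl_σ, Equiv.apply_symm_apply]; exact c1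
  have c4 : T.cl (T.σ.symm (T.μ (T.uu b))) = b := by
    rw [← T.cl_σ, Equiv.apply_symm_apply]; exact c2
  refine ⟨?_, ?_, ?_, ?_⟩
  · unfold side
    rw [if_pos]
    rw [c1]
    exact ⟨hb, hm, 0, hj, (T.U_zero b).symm⟩
  · unfold side
    rw [if_neg]
    rw [c2]
    rintro ⟨-, -, i, hi, h⟩
    rw [← T.U_jj hb] at h
    exact T.U_inj hb hi le_rfl h.symm
  · unfold side
    rw [if_neg]
    rw [c3]
    rintro ⟨-, -, i, hi, h⟩
    rw [Equiv.symm_apply_eq, ← U_succ, ← T.U_zero b] at h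
    exact T.U_inj hb (Nat.succ_pos i) (by omega) h
  · unfold side
    rw [if_pos]
    rw [c4]
    refine ⟨hb, hm, T.jj b - 1, by omega, ?_⟩
    rw [Equiv.symm_apply_eq, ← U_succ, Nat.sub_add_cancel hj, T.U_jj hb]

/-- The certificate for a setup. -/
theorem cert : ∃ f0 f1 f2 : V → ((T.C × ZMod 2) ⊕ ZMod 2) × ZMod 2,
    (∀ x, Quad (f0 x) (f1 x) (f0 (T.σ x)) (f2 (T.σ x))) ∧
    ∀ x, Quad (f1 x) (f2 x) (f1 (T.μ x)) (f2 (T.μ x)) := by
  classical
  obtain ⟨q0, r0, -⟩ := exists_rec T.σ T.μ T.hμ T.hμ' (fun x => 1 + dT (T.ty x)) T.inv_d ∅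
    (by simp) (by intro Y hY _ _; exact Finset.subset_empty.mp hY) (fun _ => 0) (by simp)
  obtain ⟨q, r1, hq⟩ := exists_rec T.σ T.μ T.hμ T.hμ' (fun x => 1 + gT (T.ty x)) T.inv_g T.D2
    T.hD2 T.ind2 (fun _ => 1) (by simp)
  obtain ⟨K, r2, hK⟩ := exists_rec T.σ T.μ T.hμ T.hμ' (fun x => jT (T.ty x)) T.inv_j T.D1
    T.hD1 T.ind1 (fun x => 1 + q x + q (T.μ x)) (by
      intro x _
      rw [T.hμ]; ring)
  have hJ0 : ∀ x, T.ty x = Ty.J0 → T.ty (T.μ x) = Ty.J0 ∧ q x + q (T.μ x) = 1 := by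
    intro x hx
    rcases T.tyJ0 x hx with h | ⟨h, hm⟩
    · exact ⟨T.ty_D2 (T.hD2 _ h), hq x h⟩
    · obtain ⟨hc, h'⟩ := T.special_μ x h
      refine ⟨by rw [T.ty_special h', hc]; exact hm, ?_⟩
      obtain ⟨ho, h⟩ := h
      have hq1 := T.q_arc ho q r1
      have hmc := T.mode_cases (T.cl x)
      have hcond : ((T.jj (T.cl x) - 1 : ℕ) : ZMod 2) + T.al (T.cl x) = 0 := by
        rcases hmc with ⟨h1, -⟩ | ⟨h1, -⟩ | ⟨-, h2⟩
        · rw [hm] at h1; exact absurd h1 (by decide)
        · rw [hm] at h1; exact absurd h1 (by decide)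
        · exact h2
      rw [hcond, hm] at hq1
      simp only [gT] at hq1
      have k : ∀ s t : ZMod 2, s = t + (0 + (1 + 0)) → t + s = 1 := by decide
      rcases h with h | h
      · rw [← h] at hq1
        exact k _ _ hq1
      · have h5 : T.μ x = T.uu (T.cl x) := by
          conv_lhs => rw [h]
          exact T.hμ _
        rw [← h, ← h5] at hq1
        rw [add_comm]; exact k _ _ hq1
  have hJ1 : ∀ x, T.ty x = Ty.J1 → T.ty (T.μ x) = Ty.J1 ∧ K x + K (T.μ x) =
      1 + q x + q (T.μ x) := by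
    intro x hx
    rcases T.tyJ1 x hx with h | ⟨h, hm⟩
    · exact ⟨T.ty_D1 (T.hD1 _ h), hK x h⟩
    · obtain ⟨hc, h'⟩ := T.special_μ x h
      refine ⟨by rw [T.ty_special h', hc]; exact hm, ?_⟩
      obtain ⟨ho, h⟩ := h
      have hq1 := T.q_arc ho q r1
      have hK1 := T.K_arc ho K r2
      have hmc := T.mode_cases (T.cl x)
      have hcond : ((T.jj (T.cl x) - 1 : ℕ) : ZMod 2) + T.be (T.cl x) = 0 := by
        rcases hmc with ⟨h1, -⟩ | ⟨-, h2⟩ | ⟨h1, -⟩
        · rw [hm] at h1; exact absurd h1 (by decide)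
        · exact h2
        · rw [hm] at h1; exact absurd h1 (by decide)
      rw [hm] at hq1 hK1
      simp only [gT, jT] at hq1 hK1
      have k : ∀ a b k1 k2 q1 q2 j : ZMod 2, j + b = 0 → q2 = q1 + (j + a + (1 + 1)) →
          k2 = k1 + (a + b + 1) → k1 + k2 = 1 + q1 + q2 := by decide
      rcases h with h | h
      · rw [← h] at hq1 hK1
        exact k _ _ _ _ _ _ _ hcond hq1 hK1
      · have h5 : T.μ x = T.uu (T.cl x) := by
          conv_lhs => rw [h]
          exact T.hμ _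
        rw [← h, ← h5] at hq1 hK1
        have := k _ _ _ _ _ _ _ hcond hq1 hK1
        rw [add_comm, this]; ring
  have hS : ∀ x, T.ty x = Ty.S → T.ty (T.μ x) = Ty.S ∧ T.cl (T.μ x) = T.cl x ∧
      T.side (T.σ.symm (T.μ x)) = T.side x ∧ T.side (T.μ x) = T.side (T.σ.symm x) ∧
      T.side x ≠ T.side (T.μ x) ∧ q0 (T.σ.symm (T.μ x)) = q0 x ∧ q0 (T.μ x) = q0 (T.σ.symm x) := by
    intro x hx
    obtain ⟨h, hm⟩ := T.tyS x hx
    obtain ⟨hc, h'⟩ := T.special_μ x h
    have ho := h.1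
    have hty' : T.ty (T.μ x) = Ty.S := by rw [T.ty_special h', hc]; exact hm
    refine ⟨hty', hc, ?_⟩
    obtain ⟨s1, s2, s3, s4⟩ := T.side_facts ho hm
    have hq1 := T.q0_arc ho q0 r0
    have hmc := T.mode_cases (T.cl x)
    have hcond : T.al (T.cl x) + T.be (T.cl x) = 0 := by
      rcases hmc with ⟨-, h2⟩ | ⟨h1, -⟩ | ⟨h1, -⟩
      · exact h2
      · rw [hm] at h1; exact absurd h1 (by decide)
      · rw [hm] at h1; exact absurd h1 (by decide)
    rw [hcond, add_zero] at hq1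
    -- no jump at ends of type S
    have nj : ∀ y, T.ty y = Ty.S → q0 y = q0 (T.σ.symm y) := by
      intro y hy
      have := r0 (T.σ.symm y)
      rw [Equiv.apply_symm_apply, hy] at this
      rw [this]
      simp only [dT]
      have k : ∀ s : ZMod 2, s + (1 + 1) = s := by decide
      exact k _
    have n1 := nj x hx
    have n2 := nj (T.μ x) hty'
    have h01 : (1 : ZMod 2) ≠ 0 := by decide
    rcases h.2 with h | h
    · rw [← h] at s1 s2 s3 s4 hq1
      refine ⟨by rw [s4, s1], by rw [s2, s3], by rw [s1, s2]; exact h01, hq1, ?_⟩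
      rw [n2, hq1, n1]
    · have h5 : T.μ x = T.uu (T.cl x) := by
        conv_lhs => rw [h]
        exact T.hμ _
      rw [← h] at s2 s4 hq1
      rw [← h5] at s1 s3 hq1
      refine ⟨by rw [s3, s2], by rw [s1, s4], by rw [s1, s2]; exact h01.symm, ?_, ?_⟩
      · rw [← n2, ← hq1, n1]
      · rw [hq1]
  exact ⟨lab0 T.cl T.ty T.side q0 q K, lab1 T.cl T.ty T.side q0 q K,
    lab2 T.σ T.cl T.ty T.side q0 q K,
    fun x => quadF T.σ T.cl T.ty T.side q0 q K T.cl_σ r0 r1 r2 T.hside x,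
    fun x => quadM T.σ T.μ T.cl T.ty T.side q0 q K r0 r1 r2 T.hside hJ0 hJ1 T.hZ T.hD hS x⟩

end Setup

end Pool.Agent.helper60.ECD
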