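import Mathlib
import Pool.Agent.helper60.ECD.Solve

/-!
# The certificate from an oriented 2-factor and two disjoint joins
-/

namespace Pool.Agent.helper60.ECD

open Finset

universe u

variable {V : Type u} [Fintype V] [DecidableEq V]

/-- a minimal join is independent -/
lemma exists_min_join (σ : Equiv.Perm V) (μ : V → V) (hμ : ∀ x, μ (μ x) = x)
    (D : Finset V) (hD : ∀ x ∈ D, μ x ∈ D)
    (p : ∀ c : V → ZMod 2, (∀ x, c (σ x) = c x) → ∑ x ∈ D, c x = ∑ x, c x) :
    ∃ D' ⊆ D, (∀ x ∈ D', μ x ∈ D') ∧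
      (∀ c : V → ZMod 2, (∀ x, c (σ x) = c x) → ∑ x ∈ D', c x = ∑ x, c x) ∧
      (∀ Y ⊆ D', (∀ x ∈ Y, μ x ∈ Y) →
        (∀ c : V → ZMod 2, (∀ x, c (σ x) = c x) → ∑ x ∈ Y, c x = 0) → Y = ∅) := by
  classical
  let cand := D.powerset.filter (fun D' => (∀ x ∈ D', μ x ∈ D') ∧
      (∀ c : V → ZMod 2, (∀ x, c (σ x) = c x) → ∑ x ∈ D', c x = ∑ x, c x))
  have hne : cand.Nonempty := ⟨D, by simp only [cand, Finset.mem_filter, Finset.mem_powerset]; exact ⟨subset_rfl, hD, p⟩⟩
  obtain ⟨D', hD', hmin⟩ := Finset.exists_min_image cand Finset.card hne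
  simp only [cand, Finset.mem_filter, Finset.mem_powerset] at hD' hmin
  refine ⟨D', hD'.1, hD'.2.1, hD'.2.2, ?_⟩
  intro Y hY hYμ hYc
  have hsub : D' \ Y ⊆ D' := Finset.sdiff_subset
  have hc := hmin (D' \ Y) ⟨hsub.trans hD'.1, ?_, ?_⟩
  · rw [Finset.card_sdiff_of_subset hY] at hc
    have h1 := Finset.card_le_card hY
    have : Y.card = 0 := by omega
    exact Finset.card_eq_zero.mp this
  · intro x hx
    simp only [Finset.mem_sdiff] at hx ⊢
    refine ⟨hD'.2.1 _ hx.1, fun h => hx.2 ?_⟩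
    have := hYμ _ h
    rwa [hμ] at this
  · intro c hcc
    have h1 := hD'.2.2 c hcc
    have h2 := hYc c hcc
    rw [← h1, ← Finset.sum_sdiff hY, h2, add_zero]

theorem model_exists (σ : Equiv.Perm V) (μ : V → V) (hμ : ∀ x, μ (μ x) = x)
    (hμ' : ∀ x, μ x ≠ x) (D1 D2 : Finset V) (hD1 : ∀ x ∈ D1, μ x ∈ D1) (hD2 : ∀ x ∈ D2, μ x ∈ D2)
    (hdisj : Disjoint D1 D2)
    (p1 : ∀ c : V → ZMod 2, (∀ x, c (σ x) = c x) → ∑ x ∈ D1, c x = ∑ x, c x)
    (p2 : ∀ c : V → ZMod 2, (∀ x, c (σ x) = c x) → ∑ x ∈ D2, c x = ∑ x, c x) :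
    ∃ (C : Type u) (f0 f1 f2 : V → ((C × ZMod 2) ⊕ ZMod 2) × ZMod 2),
    (∀ x, Quad (f0 x) (f1 x) (f0 (σ x)) (f2 (σ x))) ∧
    ∀ x, Quad (f1 x) (f2 x) (f1 (μ x)) (f2 (μ x)) := by
  classical
  obtain ⟨E1, hE1, e1a, e1b, e1c⟩ := exists_min_join σ μ hμ D1 hD1 p1
  obtain ⟨E2, hE2, e2a, e2b, e2c⟩ := exists_min_join σ μ hμ D2 hD2 p2
  let C := Quotient (Equiv.Perm.SameCycle.setoid σ)
  let cl : V → C := fun x => Quotient.mk _ x
  have hcl : ∀ x y, cl x = cl y ↔ σ.SameCycle x y := fun x y => Quotient.eq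
  let nch : C → ℕ := fun b => (univ.filter (fun x => cl x = b ∧ cl x = cl (μ x))).card
  let odd : C → Prop := fun b => nch b % 4 = 2
  have sel : ∀ b : C, ∃ (u : V) (j : ℕ), odd b → (cl u = b ∧ 0 < j ∧ (σ ^ j) u = μ u ∧
      ∀ x i, cl x = b → 0 < i → (σ ^ i) x = μ x → j ≤ i) := by
    intro b
    by_cases hb : odd b
    · have hne : (univ.filter (fun x => cl x = b ∧ cl x = cl (μ x))).Nonempty := by
        rw [Finset.nonempty_iff_ne_empty]
        intro h
        have : nch b = 0 := by simp only [nch, h, Finset.card_empty]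
        have hb' : nch b % 4 = 2 := hb
        omega
      obtain ⟨x, hx⟩ := hne
      simp only [Finset.mem_filter, Finset.mem_univ, true_and] at hx
      have hex : ∃ j, 0 < j ∧ ∃ x, cl x = b ∧ (σ ^ j) x = μ x := by
        obtain ⟨i, -, hi⟩ := ((hcl _ _).mp hx.2).exists_pow_eq'
        refine ⟨i, ?_, x, hx.1, hi⟩
        rcases Nat.eq_zero_or_pos i with h0 | h0
        · subst h0
          simp only [pow_zero, Equiv.Perm.coe_one, id_eq] at hi
          exact absurd hi.symm (hμ' x)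
        · exact h0
      obtain ⟨h1, u, h2, h3⟩ := Nat.find_spec hex
      refine ⟨u, Nat.find hex, fun _ => ⟨h2, h1, h3, ?_⟩⟩
      intro y i hy hi hyi
      exact Nat.find_min' hex ⟨hi, y, hy, hyi⟩
    · exact ⟨b.out, 0, fun h => absurd h hb⟩
  choose uu jj hsel using sel
  let e := Fintype.equivFin V
  let T : Setup V :=
    { σ := σ, μ := μ, hμ := hμ, hμ' := hμ', D1 := E1, D2 := E2, hD1 := e1a, hD2 := e2a
      hdisj := Finset.disjoint_of_subset_left hE1 (Finset.disjoint_of_subset_right hE2 hdisj)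
      p1 := e1b, p2 := e2b, ind1 := e1c, ind2 := e2c
      C := C, cl := cl, hcl := hcl
      pick := fun x => e x < e (μ x)
      hpick := by
        intro x
        rw [hμ, not_lt]
        constructor
        · exact fun h => h.le
        · intro h
          refine lt_of_le_of_ne h fun h' => hμ' x (e.injective h')
      odd := odd
      nch := nch
      hnch := by
        intro S b hS
        simp only [nch]
        congr 1
        ext x
        rw [hS]; simp
      hodd := fun b => Iff.rfl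
      uu := uu, jj := jj
      h1 := fun b hb => (hsel b hb).1
      h2 := fun b hb => (hsel b hb).2.1
      h3 := fun b hb => (hsel b hb).2.2.1
      h4 := fun b hb => (hsel b hb).2.2.2 }
  obtain ⟨f0, f1, f2, h⟩ := T.cert
  exact ⟨C, f0, f1, f2, h⟩

end Pool.Agent.helper60.ECD
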