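import Mathlib
import Pool.Agent.helper60.ECD.Cert
import Pool.Agent.helper60.ECD.Model

/-!
# From the certificate to the line graph
-/

namespace Pool.Agent.helper60.ECD

open Finset

universe u v

/-- An oriented 2-factor and the complementary perfect matching of a cubic multigraph. -/
structure Frame {V : Type u} {E : Type v} (G : MGraph V E) where
  σ : Equiv.Perm V
  μ : V → V
  out : V → E
  mm : V → E
  hout : ∀ x, G.ends (out x) = s(x, σ x)
  hmm : ∀ x, G.ends (mm x) = s(x, μ x)
  hmmμ : ∀ x, mm (μ x) = mm x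
  hσ : ∀ x, σ x ≠ x
  hμ : ∀ x, μ (μ x) = x
  hμ' : ∀ x, μ x ≠ x
  all : ∀ e x, x ∈ G.ends e → e = out x ∨ e = out (σ.symm x) ∨ e = mm x
  ne1 : ∀ x, out x ≠ out (σ.symm x)
  ne2 : ∀ x y, out x ≠ mm y

namespace Frame

variable {V : Type u} {E : Type v} {G : MGraph V E} (T : Frame G)

lemma out_inj {x y : V} (h : T.out x = T.out y) : x = y := by
  have h1 := T.hout x
  rw [h, T.hout y] at h1
  rcases Sym2.eq_iff.mp h1 with ⟨h2, -⟩ | ⟨-, h2⟩
  · exact h2.symm
  · exfalso
    -- `x = σ y`, so `y = σ⁻¹ x`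
    have h3 : T.σ.symm x = y := by rw [← h2, Equiv.symm_apply_apply]
    have := T.ne1 x
    rw [h3] at this
    exact this h

lemma mem_out (x : V) : x ∈ G.ends (T.out x) := by rw [T.hout]; simp

lemma mem_inn (x : V) : x ∈ G.ends (T.out (T.σ.symm x)) := by rw [T.hout]; simp

lemma mem_mm (x : V) : x ∈ G.ends (T.mm x) := by rw [T.hmm]; simp

/-- in-out edge of the line graph -/
def io (x : V) : G.LineEdge :=
  ⟨(x, s(T.out x, T.out (T.σ.symm x))), by
    constructor
    · simpa using T.ne1 x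
    · intro e he
      simp only [Sym2.mem_iff] at he
      rcases he with rfl | rfl
      · exact T.mem_out x
      · exact T.mem_inn x⟩

/-- out-matching edge of the line graph -/
def om (x : V) : G.LineEdge :=
  ⟨(x, s(T.out x, T.mm x)), by
    constructor
    · simpa using T.ne2 x x
    · intro e he
      simp only [Sym2.mem_iff] at he
      rcases he with rfl | rfl
      · exact T.mem_out x
      · exact T.mem_mm x⟩

/-- in-matching edge of the line graph -/
def im (x : V) : G.LineEdge :=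
  ⟨(x, s(T.out (T.σ.symm x), T.mm x)), by
    constructor
    · simpa using T.ne2 (T.σ.symm x) x
    · intro e he
      simp only [Sym2.mem_iff] at he
      rcases he with rfl | rfl
      · exact T.mem_inn x
      · exact T.mem_mm x⟩

lemma classify (p : G.LineEdge) : p = T.io p.1.1 ∨ p = T.om p.1.1 ∨ p = T.im p.1.1 := by
  obtain ⟨⟨x, z⟩, hz1, hz2⟩ := p
  induction z using Sym2.ind with
  | _ a b =>
    simp only [Sym2.isDiag_iff_proj_eq] at hz1
    have ha := T.all a x (hz2 a (by simp))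
    have hb := T.all b x (hz2 b (by simp))
    simp only
    rcases ha with rfl | rfl | rfl <;> rcases hb with rfl | rfl | rfl
    · exact absurd rfl hz1
    · left; rfl
    · right; left; rfl
    · left; apply Subtype.ext; simp only [io, Prod.mk.injEq, true_and]; exact Sym2.eq_swap
    · exact absurd rfl hz1
    · right; right; rfl
    · right; left; apply Subtype.ext; simp only [om, Prod.mk.injEq, true_and]; exact Sym2.eq_swap
    · right; right; apply Subtype.ext; simp only [im, Prod.mk.injEq, true_and]; exact Sym2.eq_swap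
    · exact absurd rfl hz1

section

variable {L : Type u} (f0 f1 f2 : V → L × ZMod 2)

open Classical in
/-- the label and parity of an edge of the line graph -/
noncomputable def Fn (p : G.LineEdge) : L × ZMod 2 :=
  if p.1.2 = s(T.out p.1.1, T.out (T.σ.symm p.1.1)) then f0 p.1.1
  else if p.1.2 = s(T.out p.1.1, T.mm p.1.1) then f1 p.1.1 else f2 p.1.1

lemma Fn_io (x : V) : T.Fn f0 f1 f2 (T.io x) = f0 x := by
  unfold Fn io
  simp

lemma Fn_om (x : V) : T.Fn f0 f1 f2 (T.om x) = f1 x := by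
  unfold Fn om
  simp only
  rw [if_neg]
  · simp
  · intro h
    rcases Sym2.eq_iff.mp h with ⟨-, h2⟩ | ⟨h2, h3⟩
    · exact T.ne2 _ _ h2.symm
    · exact T.ne1 _ h2

lemma Fn_im (x : V) : T.Fn f0 f1 f2 (T.im x) = f2 x := by
  unfold Fn im
  simp only
  rw [if_neg, if_neg]
  · intro h
    rcases Sym2.eq_iff.mp h with ⟨h2, -⟩ | ⟨h2, -⟩
    · exact T.ne1 _ h2.symm
    · exact T.ne2 _ _ h2
  · intro h
    rcases Sym2.eq_iff.mp h with ⟨h2, -⟩ | ⟨-, h2⟩
    · exact T.ne1 _ h2.symm
    · exact T.ne2 _ _ h2.symm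

lemma edgesAt_out (x : V) : G.lineGraph.edgesAt (T.out x) =
    {T.io x, T.om x, T.io (T.σ x), T.im (T.σ x)} := by
  ext p
  simp only [MGraph.edgesAt, MGraph.lineGraph, Set.mem_setOf_eq, Set.mem_insert_iff,
    Set.mem_singleton_iff]
  constructor
  · intro h
    rcases T.classify p with hp | hp | hp
    · rw [hp] at h
      simp only [io, Sym2.mem_iff] at h
      rcases h with h | h
      · left; rw [hp, ← T.out_inj h]
      · right; right; left
        have := T.out_inj h
        rw [hp, this, Equiv.apply_symm_apply]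
    · rw [hp] at h
      simp only [om, Sym2.mem_iff] at h
      rcases h with h | h
      · right; left; rw [hp, ← T.out_inj h]
      · exact absurd h (T.ne2 _ _)
    · rw [hp] at h
      simp only [im, Sym2.mem_iff] at h
      rcases h with h | h
      · right; right; right
        have := T.out_inj h
        rw [hp, this, Equiv.apply_symm_apply]
      · exact absurd h (T.ne2 _ _)
  · rintro (rfl | rfl | rfl | rfl)
    · simp [io]
    · simp [om]
    · simp [io]
    · simp [im]

lemma mm_eq {x y : V} (h : T.mm x = T.mm y) : y = x ∨ y = T.μ x := by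
  have h1 := T.hmm x
  rw [h, T.hmm y] at h1
  rcases Sym2.eq_iff.mp h1 with ⟨h2, -⟩ | ⟨h2, -⟩
  · exact Or.inl h2
  · exact Or.inr h2

lemma edgesAt_mm (x : V) : G.lineGraph.edgesAt (T.mm x) =
    {T.om x, T.im x, T.om (T.μ x), T.im (T.μ x)} := by
  ext p
  simp only [MGraph.edgesAt, MGraph.lineGraph, Set.mem_setOf_eq, Set.mem_insert_iff,
    Set.mem_singleton_iff]
  constructor
  · intro h
    rcases T.classify p with hp | hp | hp
    · rw [hp] at h
      simp only [io, Sym2.mem_iff] at h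
      rcases h with h | h
      · exact absurd h.symm (T.ne2 _ _)
      · exact absurd h.symm (T.ne2 _ _)
    · rw [hp] at h
      simp only [om, Sym2.mem_iff] at h
      rcases h with h | h
      · exact absurd h.symm (T.ne2 _ _)
      · rcases T.mm_eq h with h2 | h2
        · left; rw [hp, h2]
        · right; right; left; rw [hp, h2]
    · rw [hp] at h
      simp only [im, Sym2.mem_iff] at h
      rcases h with h | h
      · exact absurd h.symm (T.ne2 _ _)
      · rcases T.mm_eq h with h2 | h2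
        · right; left; rw [hp, h2]
        · right; right; right; rw [hp, h2]
  · rintro (rfl | rfl | rfl | rfl)
    · simp [om]
    · simp [im]
    · simp [om, T.hmmμ]
    · simp [im, T.hmmμ]

lemma quad_cert {P : Type*} (F : P → L × ZMod 2) (S : Set P) (a b c d : P) (hS : S = {a, b, c, d})
    (h : Quad (F a) (F b) (F c) (F d)) :
    ∃ a₁ a₂ b₁ b₂, S = {a₁, a₂, b₁, b₂} ∧ (F a₁).1 = (F a₂).1 ∧ (F b₁).1 = (F b₂).1 ∧
      (F a₁).1 ≠ (F b₁).1 ∧ (F a₁).2 ≠ (F a₂).2 ∧ (F b₁).2 ≠ (F b₂).2 := by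
  unfold Quad Pr at h
  rcases h with ⟨⟨h1, h2⟩, ⟨h3, h4⟩, h5⟩ | ⟨⟨h1, h2⟩, ⟨h3, h4⟩, h5⟩ | ⟨⟨h1, h2⟩, ⟨h3, h4⟩, h5⟩
  · exact ⟨a, b, c, d, hS, h1, h3, h5, h2, h4⟩
  · refine ⟨a, c, b, d, ?_, h1, h3, h5, h2, h4⟩
    rw [hS]; ext x; simp only [Set.mem_insert_iff, Set.mem_singleton_iff]; tauto
  · refine ⟨a, d, b, c, ?_, h1, h3, h5, h2, h4⟩
    rw [hS]; ext x; simp only [Set.mem_insert_iff, Set.mem_singleton_iff]; tauto

theorem ecd [Finite V] [Finite E]
    (hF : ∀ x, Quad (f0 x) (f1 x) (f0 (T.σ x)) (f2 (T.σ x)))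
    (hM : ∀ x, Quad (f1 x) (f2 x) (f1 (T.μ x)) (f2 (T.μ x)))
    (hcov : ∀ e, ∃ x, e = T.out x ∨ e = T.mm x) :
    G.lineGraph.HasEvenCircuitDecomposition := by
  have : Finite G.LineEdge := by unfold MGraph.LineEdge; infer_instance
  refine MGraph.hasECD_of_cert G.lineGraph (fun p => p.2.1) (fun p => (T.Fn f0 f1 f2 p).1)
    (fun p => (T.Fn f0 f1 f2 p).2) ?_
  intro e
  obtain ⟨x, rfl | rfl⟩ := hcov e
  · apply quad_cert (T.Fn f0 f1 f2) _ _ _ _ _ (T.edgesAt_out x)
    rw [T.Fn_io, T.Fn_om, T.Fn_io, T.Fn_im]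
    exact hF x
  · apply quad_cert (T.Fn f0 f1 f2) _ _ _ _ _ (T.edgesAt_mm x)
    rw [T.Fn_om, T.Fn_im, T.Fn_om, T.Fn_im]
    exact hM x

end

end Frame

end Pool.Agent.helper60.ECD
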