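import Mathlib
import Pool.Agent.helper60.ECD.Frame

/-!
# Orienting the 2-factor
-/

namespace Pool.Agent.helper60.ECD

open Finset

universe u v

/-- A good labelling: label `0` is a 2-factor, and the labels `1, 2, 3` are joins in the graph
obtained by contracting the circuits of the 2-factor. -/
def GoodL {V : Type u} {E : Type v} [Fintype V] [Fintype E] (a b : E → V) (l : E → Fin 4) : Prop :=
  (∀ x, ∃! e, l e ≠ 0 ∧ (a e = x ∨ b e = x)) ∧
  ∀ i : Fin 4, i ≠ 0 → ∀ c : V → ZMod 2, (∀ e, l e = 0 → c (a e) = c (b e)) →
    ∑ e, (if l e = i then c (a e) + c (b e) else 0) = ∑ x, c x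

variable {V : Type u} {E : Type v} [Fintype V] [Fintype E] [DecidableEq V] [DecidableEq E]

theorem ecd_of_good (G : MGraph V E) (a b : E → V) (hab : ∀ e, G.ends e = s(a e, b e))
    (hne : ∀ e, a e ≠ b e) (hcub : ∀ x, (univ.filter (fun e => a e = x ∨ b e = x)).card = 3)
    (l : E → Fin 4) (hl : GoodL a b l) : G.lineGraph.HasEvenCircuitDecomposition := by
  classical
  obtain ⟨hu, hj⟩ := hl
  have hmem : ∀ e x, x ∈ G.ends e ↔ (a e = x ∨ b e = x) := by
    intro e x; rw [hab]; simp only [Sym2.mem_iff]
    constructor
    · rintro (h | h)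
      · exact Or.inl h.symm
      · exact Or.inr h.symm
    · rintro (h | h)
      · exact Or.inl h.symm
      · exact Or.inr h.symm
  -- the matching
  choose mm hmm hmu using hu
  simp only at hmm hmu
  let μ : V → V := fun x => if a (mm x) = x then b (mm x) else a (mm x)
  have hμends : ∀ x, G.ends (mm x) = s(x, μ x) := by
    intro x
    rw [hab]
    rcases (hmm x).2 with h | h
    · simp only [μ, if_pos h]; rw [h]
    · by_cases h' : a (mm x) = x
      · exact absurd (h'.trans h.symm) (hne _)
      · simp only [μ, if_neg h']; rw [h]; exact Sym2.eq_swap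
  have hμ' : ∀ x, μ x ≠ x := by
    intro x hx
    have := hμends x
    rw [hx, hab] at this
    have h2 := Sym2.eq_iff.mp this
    rcases h2 with ⟨h3, h4⟩ | ⟨h3, h4⟩ <;> exact hne _ (h3.trans h4.symm)
  have hmmμ : ∀ x, mm (μ x) = mm x := by
    intro x
    symm
    apply hmu (μ x)
    refine ⟨(hmm x).1, ?_⟩
    rw [← hmem, hμends]; simp
  have hμ : ∀ x, μ (μ x) = x := by
    intro x
    have h1 := hμends (μ x)
    rw [hmmμ, hμends x] at h1
    rcases Sym2.eq_iff.mp h1 with ⟨h2, -⟩ | ⟨h2, -⟩
    · exact absurd h2.symm (hμ' x)
    · exact h2.symm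
  -- edges of the 2-factor at a vertex
  have hF2 : ∀ x, (univ.filter (fun e => l e = 0 ∧ (a e = x ∨ b e = x))).card = 2 := by
    intro x
    have h1 := hcub x
    have h2 : univ.filter (fun e => a e = x ∨ b e = x) =
        insert (mm x) (univ.filter (fun e => l e = 0 ∧ (a e = x ∨ b e = x))) := by
      ext e
      simp only [Finset.mem_filter, Finset.mem_univ, true_and, Finset.mem_insert]
      constructor
      · intro h
        by_cases h0 : l e = 0
        · exact Or.inr ⟨h0, h⟩
        · exact Or.inl (hmu x e ⟨h0, h⟩)
      · rintro (rfl | h)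
        · exact (hmm x).2
        · exact h.2
    rw [h2, Finset.card_insert_of_notMem] at h1
    · omega
    · simp only [Finset.mem_filter, Finset.mem_univ, true_and, not_and]
      intro h; exact absurd h (hmm x).1
  -- Hall's theorem
  let ι := {e : E // l e = 0}
  let tt : ι → Finset V := fun e => {a e.1, b e.1}
  have hdc : ∀ A : Finset ι, ∀ S : Finset V, A.biUnion tt ⊆ S → 2 * A.card ≤ 2 * S.card := by
    intro A S hS
    have h1 : ∑ e ∈ A, (tt e).card = ∑ x ∈ S, (A.filter (fun e => x ∈ tt e)).card := by
      have : ∀ e ∈ A, (tt e).card = ∑ x ∈ S, if x ∈ tt e then 1 else 0 := by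
        intro e he
        rw [← Finset.card_filter]
        congr 1
        ext x
        simp only [Finset.mem_filter]
        constructor
        · intro hx; exact ⟨hS (Finset.mem_biUnion.mpr ⟨e, he, hx⟩), hx⟩
        · exact fun hx => hx.2
      rw [Finset.sum_congr rfl this, Finset.sum_comm]
      refine Finset.sum_congr rfl fun x _ => ?_
      rw [Finset.card_filter]
    have h2 : ∑ e ∈ A, (tt e).card = 2 * A.card := by
      rw [Finset.sum_congr rfl (fun e _ => Finset.card_pair (hne e.1))]
      simp [mul_comm]
    have h3 : ∀ x ∈ S, (A.filter (fun e => x ∈ tt e)).card ≤ 2 := by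
      intro x _
      rw [← hF2 x]
      apply Finset.card_le_card_of_injOn (fun e => e.1)
      · intro e he
        simp only [Finset.coe_filter, Set.mem_setOf_eq, tt, Finset.mem_insert,
          Finset.mem_singleton] at he
        simp only [Finset.coe_filter, Finset.mem_univ, true_and, Set.mem_setOf_eq]
        refine ⟨e.2, ?_⟩
        rcases he.2 with h | h
        · exact Or.inl h.symm
        · exact Or.inr h.symm
      · intro e _ f _ h; exact Subtype.ext h
    rw [← h2, h1]
    calc ∑ x ∈ S, (A.filter (fun e => x ∈ tt e)).card ≤ ∑ x ∈ S, 2 := Finset.sum_le_sum h3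
      _ = 2 * S.card := by simp [mul_comm]
  obtain ⟨f, hfinj, hf⟩ := (Finset.all_card_le_biUnion_card_iff_exists_injective tt).mp (by
    intro A
    have := hdc A _ (subset_refl _)
    omega)
  have hcard : Fintype.card ι = Fintype.card V := by
    have h1 : ∑ e : ι, (tt e).card = ∑ x : V, (univ.filter (fun e : ι => x ∈ tt e)).card := by
      simp only [Finset.card_eq_sum_ones, Finset.sum_filter]
      rw [Finset.sum_comm]
      refine Finset.sum_congr rfl fun e _ => ?_
      rw [← Finset.sum_filter]
      congr 1
      ext x; simp
    have h2 : ∑ e : ι, (tt e).card = 2 * Fintype.card ι := by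
      rw [Finset.sum_congr rfl (fun e _ => Finset.card_pair (hne e.1))]
      simp [mul_comm]
    have h3 : ∀ x : V, (univ.filter (fun e : ι => x ∈ tt e)).card = 2 := by
      intro x
      rw [← hF2 x]
      apply Finset.card_bij (fun e _ => e.1)
      · intro e he
        simp only [Finset.mem_filter, Finset.mem_univ, true_and, tt, Finset.mem_insert,
          Finset.mem_singleton] at he ⊢
        refine ⟨e.2, ?_⟩
        rcases he with h | h
        · exact Or.inl h.symm
        · exact Or.inr h.symm
      · intro e _ f _ h; exact Subtype.ext h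
      · intro e he
        simp only [Finset.mem_filter, Finset.mem_univ, true_and] at he
        refine ⟨⟨e, he.1⟩, ?_, rfl⟩
        simp only [Finset.mem_filter, Finset.mem_univ, true_and, tt, Finset.mem_insert,
          Finset.mem_singleton]
        rcases he.2 with h | h
        · exact Or.inl h.symm
        · exact Or.inr h.symm
    rw [h2, Finset.sum_congr rfl (fun x _ => h3 x)] at h1
    simp only [Finset.sum_const, Finset.card_univ, smul_eq_mul] at h1
    omega
  have hbij : Function.Bijective f := (Fintype.bijective_iff_injective_and_card f).mpr ⟨hfinj, hcard⟩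
  let fe : ι ≃ V := Equiv.ofBijective f hbij
  let out : V → E := fun x => (fe.symm x).1
  have hout0 : ∀ x, l (out x) = 0 := fun x => (fe.symm x).2
  have hfout : ∀ x, f (fe.symm x) = x := fun x => fe.apply_symm_apply x
  have houtinj : ∀ x y, out x = out y → x = y := by
    intro x y h
    have : fe.symm x = fe.symm y := Subtype.ext h
    exact fe.symm.injective this
  have hxout : ∀ x, a (out x) = x ∨ b (out x) = x := by
    intro x
    have := hf (fe.symm x)
    rw [hfout] at this
    simp only [tt, Finset.mem_insert, Finset.mem_singleton] at this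
    rcases this with h | h
    · exact Or.inl h.symm
    · exact Or.inr h.symm
  let σ0 : V → V := fun x => if a (out x) = x then b (out x) else a (out x)
  have hσends : ∀ x, G.ends (out x) = s(x, σ0 x) := by
    intro x
    rw [hab]
    rcases hxout x with h | h
    · simp only [σ0, if_pos h]; rw [h]
    · by_cases h' : a (out x) = x
      · exact absurd (h'.trans h.symm) (hne _)
      · simp only [σ0, if_neg h']; rw [h]; exact Sym2.eq_swap
  have hσ' : ∀ x, σ0 x ≠ x := by
    intro x hx
    have := hσends x
    rw [hx, hab] at this
    rcases Sym2.eq_iff.mp this with ⟨h3, h4⟩ | ⟨h3, h4⟩ <;> exact hne _ (h3.trans h4.symm)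
  have hσinj : Function.Injective σ0 := by
    intro x y hxy
    by_contra hne'
    have hz : ({out x, out y, out (σ0 x)} : Finset E) ⊆
        univ.filter (fun e => l e = 0 ∧ (a e = σ0 x ∨ b e = σ0 x)) := by
      intro e he
      simp only [Finset.mem_insert, Finset.mem_singleton] at he
      simp only [Finset.mem_filter, Finset.mem_univ, true_and]
      rcases he with rfl | rfl | rfl
      · refine ⟨hout0 _, ?_⟩
        rw [← hmem, hσends]; simp
      · refine ⟨hout0 _, ?_⟩
        rw [← hmem, hσends, hxy]; simp
      · refine ⟨hout0 _, ?_⟩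
        rw [← hmem, hσends]; simp
    have h3 := Finset.card_le_card hz
    rw [hF2, Finset.card_insert_of_notMem, Finset.card_pair] at h3
    · omega
    · intro h; have := houtinj _ _ h; rw [hxy] at this; exact hσ' y this.symm
    · simp only [Finset.mem_insert, Finset.mem_singleton, not_or]
      exact ⟨fun h => hne' (houtinj _ _ h), fun h => hσ' x (houtinj _ _ h).symm⟩
  let σ : Equiv.Perm V := Equiv.ofBijective σ0 ((Finite.injective_iff_bijective).mp hσinj)
  have hσσ : ∀ x, σ x = σ0 x := fun x => rfl
  have hσsymm : ∀ x, σ.symm x ≠ x := by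
    intro x h
    rw [Equiv.symm_apply_eq] at h
    exact hσ' x h.symm
  have hinn : ∀ x, a (out (σ.symm x)) = x ∨ b (out (σ.symm x)) = x := by
    intro x
    rw [← hmem, hσends, ← hσσ, Equiv.apply_symm_apply]; simp
  let T : Frame G :=
    { σ := σ, μ := μ, out := out, mm := mm
      hout := hσends
      hmm := hμends
      hmmμ := hmmμ
      hσ := hσ'
      hμ := hμ
      hμ' := hμ'
      all := by
        intro e x hx
        rw [hmem] at hx
        by_cases h0 : l e = 0
        · have h2 : ({out x, out (σ.symm x)} : Finset E) =
              univ.filter (fun e => l e = 0 ∧ (a e = x ∨ b e = x)) := by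
            apply Finset.eq_of_subset_of_card_le
            · intro f hf
              simp only [Finset.mem_insert, Finset.mem_singleton] at hf
              simp only [Finset.mem_filter, Finset.mem_univ, true_and]
              rcases hf with rfl | rfl
              · exact ⟨hout0 _, hxout _⟩
              · exact ⟨hout0 _, hinn _⟩
            · rw [hF2, Finset.card_pair]
              intro h; exact hσsymm x (houtinj _ _ h).symm
          have : e ∈ ({out x, out (σ.symm x)} : Finset E) := by
            rw [h2]; simp [h0, hx]
          simp only [Finset.mem_insert, Finset.mem_singleton] at this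
          rcases this with h | h
          · exact Or.inl h
          · exact Or.inr (Or.inl h)
        · exact Or.inr (Or.inr (hmu x e ⟨h0, hx⟩))
      ne1 := fun x h => hσsymm x (houtinj _ _ h).symm
      ne2 := fun x y h => (hmm y).1 (by rw [← h]; exact hout0 x) }
  have hcov : ∀ e, ∃ x, e = T.out x ∨ e = T.mm x := by
    intro e
    by_cases h0 : l e = 0
    · refine ⟨f ⟨e, h0⟩, Or.inl ?_⟩
      change e = (fe.symm (fe ⟨e, h0⟩)).1
      rw [Equiv.symm_apply_apply]
    · exact ⟨a e, Or.inr (hmu (a e) e ⟨h0, Or.inl rfl⟩)⟩
  -- joins
  have hjoin : ∀ i : Fin 4, i ≠ 0 → ∀ c : V → ZMod 2, (∀ x, c (σ x) = c x) →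
      ∑ x ∈ univ.filter (fun x => l (mm x) = i), c x = ∑ x, c x := by
    intro i hi c hc
    rw [← hj i hi c]
    · rw [Finset.sum_filter, ← Finset.sum_fiberwise_of_maps_to (t := univ) (g := mm)
        (fun x _ => Finset.mem_univ _)]
      refine Finset.sum_congr rfl fun e _ => ?_
      by_cases he : l e = i
      · rw [if_pos he]
        have : univ.filter (fun x => mm x = e) = {a e, b e} := by
          ext x
          simp only [Finset.mem_filter, Finset.mem_univ, true_and, Finset.mem_insert,
            Finset.mem_singleton]
          constructor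
          · rintro rfl
            rcases (hmm x).2 with h | h
            · exact Or.inl h.symm
            · exact Or.inr h.symm
          · rintro (rfl | rfl)
            · exact (hmu _ e ⟨by rw [he]; exact hi, Or.inl rfl⟩).symm
            · exact (hmu _ e ⟨by rw [he]; exact hi, Or.inr rfl⟩).symm
        rw [this, Finset.sum_pair (hne e)]
        have h1 : mm (a e) = e := (hmu _ e ⟨by rw [he]; exact hi, Or.inl rfl⟩).symm
        have h2 : mm (b e) = e := (hmu _ e ⟨by rw [he]; exact hi, Or.inr rfl⟩).symm
        rw [h1, h2, if_pos he, if_pos he]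
      · rw [if_neg he]
        apply Finset.sum_eq_zero
        intro x hx
        simp only [Finset.mem_filter, Finset.mem_univ, true_and] at hx
        rw [hx, if_neg he]
    · intro e h0
      obtain ⟨x, hx | hx⟩ := hcov e
      · have h1 := hσends x
        have h2 : e = out x := hx
        rw [← h2, hab] at h1
        have h3 := hc x
        rw [hσσ] at h3
        rcases Sym2.eq_iff.mp h1 with ⟨h4, h5⟩ | ⟨h4, h5⟩
        · rw [h4, h5, h3]
        · rw [h4, h5, h3]
      · exfalso
        have h2 : e = mm x := hx
        rw [h2] at h0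
        exact (hmm x).1 h0
  obtain ⟨C, f0, f1, f2, h1, h2⟩ := model_exists σ μ hμ hμ'
    (univ.filter (fun x => l (mm x) = 1)) (univ.filter (fun x => l (mm x) = 2))
    (by intro x hx; simp only [Finset.mem_filter, Finset.mem_univ, true_and] at hx ⊢; rw [hmmμ]; exact hx)
    (by intro x hx; simp only [Finset.mem_filter, Finset.mem_univ, true_and] at hx ⊢; rw [hmmμ]; exact hx)
    (by
      rw [Finset.disjoint_left]
      intro x hx
      simp only [Finset.mem_filter, Finset.mem_univ, true_and] at hx ⊢
      rw [hx]; decide)
    (hjoin 1 (by decide)) (hjoin 2 (by decide))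
  exact T.ecd f0 f1 f2 h1 h2 hcov

end Pool.Agent.helper60.ECD
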