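import Mathlib

/-!
# Splitting a set with respect to a submodular function
-/

namespace Pool.Agent.helper60.ECD

open Finset

variable {E : Type*} [DecidableEq E]

lemma two_partition_aux (M : Finset E) (r : Finset E → ℤ)
    (hsub : ∀ I ⊆ M, ∀ J ⊆ M, r (I ∪ J) + r (I ∩ J) ≤ r I + r J) (h0 : r ∅ ≤ 0) :
    ∀ (n : ℕ) (P Q R : Finset E), Q.card = n → Disjoint P Q → Disjoint P R → Disjoint Q R →
      P ∪ Q ∪ R = M →
      (∀ I ⊆ M, (I.card : ℤ) ≤ r (I ∩ (Q ∪ P)) + r (I ∩ (Q ∪ R))) →
      ∃ P' ⊆ M, (P'.card : ℤ) ≤ r P' ∧ ((M \ P').card : ℤ) ≤ r (M \ P') := by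
  intro n
  induction n with
  | zero =>
    intro P Q R hQ _ hPR _ hM h
    have hQ' : Q = ∅ := Finset.card_eq_zero.mp hQ
    subst hQ'
    simp only [Finset.empty_union, Finset.union_empty] at h hM
    have hPM : P ⊆ M := by rw [← hM]; exact Finset.subset_union_left
    have hRM : R ⊆ M := by rw [← hM]; exact Finset.subset_union_right
    have hMP : M \ P = R := by
      rw [← hM, Finset.union_sdiff_left]
      exact Finset.sdiff_eq_self_of_disjoint hPR.symm
    refine ⟨P, hPM, ?_, ?_⟩
    · have := h P hPM
      rw [Finset.inter_self, Finset.disjoint_iff_inter_eq_empty.mp hPR] at this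
      linarith
    · rw [hMP]
      have := h R hRM
      rw [Finset.inter_self, Finset.disjoint_iff_inter_eq_empty.mp hPR.symm] at this
      linarith
  | succ n ih =>
    intro P Q R hQ hPQ hPR hQR hM h
    have hne : Q.Nonempty := by rw [← Finset.card_pos]; omega
    obtain ⟨x, hx⟩ := hne
    have hxP : x ∉ P := fun hh => (Finset.disjoint_left.mp hPQ hh) hx
    have hxR : x ∉ R := fun hh => (Finset.disjoint_left.mp hQR hx) hh
    have hxM : x ∈ M := by rw [← hM]; simp [hx]
    have hcard : (Q.erase x).card = n := by rw [Finset.card_erase_of_mem hx]; omega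
    by_cases c1 : ∀ I ⊆ M, (I.card : ℤ) ≤ r (I ∩ (Q ∪ P)) + r (I ∩ (Q.erase x ∪ R))
    · apply ih (insert x P) (Q.erase x) R hcard
      · rw [Finset.disjoint_left]
        intro y hy hy'
        simp only [Finset.mem_insert, Finset.mem_erase] at hy hy'
        rcases hy with hy | hy
        · exact hy'.1 hy
        · exact Finset.disjoint_left.mp hPQ hy hy'.2
      · rw [Finset.disjoint_left]
        intro y hy hy'
        simp only [Finset.mem_insert] at hy
        rcases hy with hy | hy
        · subst hy; exact hxR hy'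
        · exact Finset.disjoint_left.mp hPR hy hy'
      · exact Finset.disjoint_of_subset_left (Finset.erase_subset _ _) hQR
      · rw [← hM]
        ext y
        simp only [Finset.mem_union, Finset.mem_insert, Finset.mem_erase]
        by_cases hy : y = x
        · subst hy; simp [hx]
        · simp [hy]
      · intro I hI
        have := c1 I hI
        have e1 : Q.erase x ∪ insert x P = Q ∪ P := by
          ext y
          simp only [Finset.mem_union, Finset.mem_insert, Finset.mem_erase]
          by_cases hy : y = x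
          · subst hy; simp [hx]
          · simp [hy]
        rw [e1]; exact this
    by_cases c2 : ∀ I ⊆ M, (I.card : ℤ) ≤ r (I ∩ (Q.erase x ∪ P)) + r (I ∩ (Q ∪ R))
    · apply ih P (Q.erase x) (insert x R) hcard
      · exact Finset.disjoint_of_subset_right (Finset.erase_subset _ _) hPQ
      · rw [Finset.disjoint_right]
        intro y hy hy'
        simp only [Finset.mem_insert] at hy
        rcases hy with hy | hy
        · subst hy; exact hxP hy'
        · exact Finset.disjoint_left.mp hPR hy' hy
      · rw [Finset.disjoint_left]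
        intro y hy hy'
        simp only [Finset.mem_insert, Finset.mem_erase] at hy hy'
        rcases hy' with hy' | hy'
        · exact hy.1 hy'
        · exact Finset.disjoint_left.mp hQR hy.2 hy'
      · rw [← hM]
        ext y
        simp only [Finset.mem_union, Finset.mem_insert, Finset.mem_erase]
        by_cases hy : y = x
        · subst hy; simp [hx]
        · simp [hy]
      · intro I hI
        have := c2 I hI
        have e1 : Q.erase x ∪ insert x R = Q ∪ R := by
          ext y
          simp only [Finset.mem_union, Finset.mem_insert, Finset.mem_erase]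
          by_cases hy : y = x
          · subst hy; simp [hx]
          · simp [hy]
        rw [e1]; exact this
    exfalso
    push Not at c1 c2
    obtain ⟨I, hI, hI'⟩ := c1
    obtain ⟨J, hJ, hJ'⟩ := c2
    have hxI : x ∈ I := by
      by_contra hxI
      have := h I hI
      have e1 : I ∩ (Q.erase x ∪ R) = I ∩ (Q ∪ R) := by
        ext y
        simp only [Finset.mem_inter, Finset.mem_union, Finset.mem_erase]
        by_cases hy : y = x
        · subst hy; simp [hxI]
        · simp [hy]
      rw [e1] at hI'
      linarith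
    have hxJ : x ∈ J := by
      by_contra hxJ
      have := h J hJ
      have e1 : J ∩ (Q.erase x ∪ P) = J ∩ (Q ∪ P) := by
        ext y
        simp only [Finset.mem_inter, Finset.mem_union, Finset.mem_erase]
        by_cases hy : y = x
        · subst hy; simp [hxJ]
        · simp [hy]
      rw [e1] at hJ'
      linarith
    have s1 := hsub (I ∩ (Q ∪ P)) (Finset.inter_subset_left.trans hI) (J ∩ (Q.erase x ∪ P))
      (Finset.inter_subset_left.trans hJ)
    have s2 := hsub (I ∩ (Q.erase x ∪ R)) (Finset.inter_subset_left.trans hI) (J ∩ (Q ∪ R))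
      (Finset.inter_subset_left.trans hJ)
    have u1 : I ∩ (Q ∪ P) ∪ J ∩ (Q.erase x ∪ P) = (I ∪ J) ∩ (Q ∪ P) := by
      ext y
      simp only [Finset.mem_inter, Finset.mem_union, Finset.mem_erase]
      by_cases hy : y = x
      · subst hy; simp [hxI, hx]
      · simp only [hy, ne_eq, not_false_eq_true, true_and]; tauto
    have u2 : I ∩ (Q ∪ P) ∩ (J ∩ (Q.erase x ∪ P)) = (I ∩ J).erase x ∩ (Q ∪ P) := by
      ext y
      simp only [Finset.mem_inter, Finset.mem_union, Finset.mem_erase]
      by_cases hy : y = x
      · subst hy; simp [hxP]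
      · simp only [hy, ne_eq, not_false_eq_true, true_and]; tauto
    have u3 : I ∩ (Q.erase x ∪ R) ∪ J ∩ (Q ∪ R) = (I ∪ J) ∩ (Q ∪ R) := by
      ext y
      simp only [Finset.mem_inter, Finset.mem_union, Finset.mem_erase]
      by_cases hy : y = x
      · subst hy; simp [hxJ, hx]
      · simp only [hy, ne_eq, not_false_eq_true, true_and]; tauto
    have u4 : I ∩ (Q.erase x ∪ R) ∩ (J ∩ (Q ∪ R)) = (I ∩ J).erase x ∩ (Q ∪ R) := by
      ext y
      simp only [Finset.mem_inter, Finset.mem_union, Finset.mem_erase]
      by_cases hy : y = x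
      · subst hy; simp [hxR]
      · simp only [hy, ne_eq, not_false_eq_true, true_and]; tauto
    rw [u1, u2] at s1
    rw [u3, u4] at s2
    have t1 := h (I ∪ J) (Finset.union_subset hI hJ)
    have t2 := h ((I ∩ J).erase x) ((Finset.erase_subset _ _).trans
      (Finset.inter_subset_left.trans hI))
    have hxIJ : x ∈ I ∩ J := Finset.mem_inter.mpr ⟨hxI, hxJ⟩
    have c3 : (((I ∩ J).erase x).card : ℤ) = ((I ∩ J).card : ℤ) - 1 := by
      have := Finset.card_erase_add_one hxIJ
      have h5 : (((I ∩ J).erase x).card : ℤ) + 1 = ((I ∩ J).card : ℤ) := by exact_mod_cast this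
      linarith
    have c4 : ((I ∪ J).card : ℤ) + ((I ∩ J).card : ℤ) = (I.card : ℤ) + (J.card : ℤ) := by
      exact_mod_cast Finset.card_union_add_card_inter I J
    rw [c3] at t2
    linarith

/-- If `|I| ≤ 2 r(I)` for a submodular `r` with `r ∅ ≤ 0`, then the ground set splits in two sets
with `|P| ≤ r(P)`. -/
theorem two_partition (M : Finset E) (r : Finset E → ℤ)
    (hsub : ∀ I ⊆ M, ∀ J ⊆ M, r (I ∪ J) + r (I ∩ J) ≤ r I + r J) (h0 : r ∅ ≤ 0)
    (h : ∀ I ⊆ M, (I.card : ℤ) ≤ 2 * r I) :
    ∃ P ⊆ M, (P.card : ℤ) ≤ r P ∧ ((M \ P).card : ℤ) ≤ r (M \ P) := by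
  apply two_partition_aux M r hsub h0 M.card ∅ M ∅ rfl
  · simp
  · simp
  · simp
  · simp
  · intro I hI
    have := h I hI
    simp only [Finset.union_empty, Finset.inter_eq_left.mpr hI]
    linarith

end Pool.Agent.helper60.ECD
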