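import Mathlib
import Pool.Agent.helper60.ECD.Match
import Pool.Agent.helper60.ECD.Partition
import Pool.Agent.helper60.ECD.Linear
import Pool.Agent.helper60.ECD.Orient

/-!
# Good labellings of cubic multigraphs without small edge cuts
-/

namespace Pool.Agent.helper60.ECD

open Finset

set_option linter.unusedSectionVars false

universe u v

variable {V : Type u} {E : Type v} [Fintype V] [Fintype E] [DecidableEq V] [DecidableEq E]

/-- functions constant along the edges outside `I` -/
def WW (a b : E → V) (I : Finset E) : Submodule (ZMod 2) (V → ZMod 2) where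
  carrier := {c | ∀ e ∉ I, c (a e) = c (b e)}
  add_mem' := by
    intro c d hc hd e he
    simp only [Pi.add_apply, hc e he, hd e he]
  zero_mem' := by intro e _; rfl
  smul_mem' := by
    intro r c hc e he
    simp only [Pi.smul_apply, hc e he]

lemma mem_WW {a b : E → V} {I : Finset E} {c : V → ZMod 2} :
    c ∈ WW a b I ↔ ∀ e ∉ I, c (a e) = c (b e) := Iff.rfl

/-- adjacency through edges outside `I` -/
def rr (a b : E → V) (I : Finset E) (x y : V) : Prop := ∃ e ∉ I, a e = x ∧ b e = y

/-- functions on the components -/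
noncomputable def quotEquiv (a b : E → V) (I : Finset E) :
    (Quot (rr a b I) → ZMod 2) ≃ₗ[ZMod 2] WW a b I where
  toFun g := ⟨fun x => g (Quot.mk _ x), by
    intro e he
    have : Quot.mk (rr a b I) (a e) = Quot.mk _ (b e) := Quot.sound ⟨e, he, rfl, rfl⟩
    simp only [this]⟩
  map_add' g h := rfl
  map_smul' r g := rfl
  invFun c := Quot.lift c.1 (by
    rintro x y ⟨e, he, rfl, rfl⟩
    exact c.2 e he)
  left_inv g := by
    funext x
    induction x using Quot.ind
    rfl
  right_inv c := by
    apply Subtype.ext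
    funext x
    rfl

lemma finrank_WW (a b : E → V) (I : Finset E) :
    Module.finrank (ZMod 2) (WW a b I) = Nat.card (Quot (rr a b I)) := by
  classical
  have : Finite (Quot (rr a b I)) := Quot.finite _
  have := Fintype.ofFinite (Quot (rr a b I))
  rw [← LinearEquiv.finrank_eq (quotEquiv a b I), Module.finrank_fintype_fun_eq_card,
    Nat.card_eq_fintype_card]

lemma WW_inf (a b : E → V) (I J : Finset E) : WW a b I ⊓ WW a b J = WW a b (I ∩ J) := by
  ext c
  simp only [Submodule.mem_inf, mem_WW, Finset.mem_inter, not_and_or]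
  constructor
  · rintro ⟨h1, h2⟩ e (he | he)
    · exact h1 e he
    · exact h2 e he
  · intro h
    exact ⟨fun e he => h e (Or.inl he), fun e he => h e (Or.inr he)⟩

lemma WW_sup (a b : E → V) (I J : Finset E) : WW a b I ⊔ WW a b J ≤ WW a b (I ∪ J) := by
  apply sup_le
  · intro c hc e he
    exact hc e (fun h => he (Finset.mem_union_left _ h))
  · intro c hc e he
    exact hc e (fun h => he (Finset.mem_union_right _ h))

lemma finrank_submod (a b : E → V) (I J : Finset E) :
    Module.finrank (ZMod 2) (WW a b I) + Module.finrank (ZMod 2) (WW a b J) ≤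
    Module.finrank (ZMod 2) (WW a b (I ∪ J)) + Module.finrank (ZMod 2) (WW a b (I ∩ J)) := by
  rw [← Submodule.finrank_sup_add_finrank_inf_eq, WW_inf]
  gcongr
  exact Submodule.finrank_mono (WW_sup a b I J)

lemma exists_F_edge (a b : E → V) (hc : ∀ x, (starS a b x).card = 3) (M : Finset E)
    (hM : ∀ x, ∃! e, e ∈ M ∧ (a e = x ∨ b e = x)) (x : V) :
    ∃ e, e ∉ M ∧ (a e = x ∨ b e = x) := by
  by_contra h
  push Not at h
  obtain ⟨e1, -, hu⟩ := hM x
  have : starS a b x ⊆ {e1} := by
    intro e he
    rw [mem_starS] at he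
    rw [Finset.mem_singleton]
    apply hu
    refine ⟨?_, he⟩
    by_contra h'
    have := h e h'
    tauto
  have := Finset.card_le_card this
  rw [hc, Finset.card_singleton] at this
  omega

lemma comp_bound (a b : E → V) (hne : ∀ e, a e ≠ b e) (hc : ∀ x, (starS a b x).card = 3)
    (h3 : ∀ A : Finset V, A.Nonempty → Aᶜ.Nonempty → 3 ≤ cut a b A)
    (h3' : ∀ A : Finset V, cut a b A = 3 → A.card ≤ 1 ∨ Aᶜ.card ≤ 1)
    (M : Finset E) (hM : ∀ x, ∃! e, e ∈ M ∧ (a e = x ∨ b e = x)) (I : Finset E) (hI : I ⊆ M) :
    2 * Nat.card (Quot (rr a b I)) ≤ I.card + 2 := by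
  classical
  have : Finite (Quot (rr a b I)) := Quot.finite _
  have _ := Fintype.ofFinite (Quot (rr a b I))
  rw [Nat.card_eq_fintype_card]
  by_cases h1 : Fintype.card (Quot (rr a b I)) ≤ 1
  · omega
  push Not at h1
  let A : Quot (rr a b I) → Finset V := fun X => univ.filter (fun x => Quot.mk (rr a b I) x = X)
  have hAmem : ∀ X x, x ∈ A X ↔ Quot.mk (rr a b I) x = X := by intro X x; simp [A]
  have hAn : ∀ X, (A X).Nonempty := by
    intro X
    obtain ⟨x, hx⟩ := Quot.exists_rep X
    exact ⟨x, (hAmem X x).mpr hx⟩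
  have hAn' : ∀ X, (A X)ᶜ.Nonempty := by
    intro X
    obtain ⟨Y, hY⟩ := Fintype.exists_ne_of_one_lt_card h1 X
    obtain ⟨y, hy⟩ := hAn Y
    refine ⟨y, ?_⟩
    rw [Finset.mem_compl, hAmem]
    rw [hAmem] at hy
    rw [hy]; exact hY
  have two : ∀ (B : Finset V), (∀ x y, Quot.mk (rr a b I) x = Quot.mk (rr a b I) y → x ∈ B → y ∈ B) →
      B.Nonempty → 2 ≤ B.card := by
    intro B hB hBn
    obtain ⟨x, hx⟩ := hBn
    obtain ⟨e, he, hex⟩ := exists_F_edge a b hc M hM x
    have hq : Quot.mk (rr a b I) (a e) = Quot.mk (rr a b I) (b e) :=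
      Quot.sound ⟨e, fun h => he (hI h), rfl, rfl⟩
    have hab : a e ∈ B ∧ b e ∈ B := by
      rcases hex with h | h
      · rw [← h] at hx; exact ⟨hx, hB _ _ hq hx⟩
      · rw [← h] at hx; exact ⟨hB _ _ hq.symm hx, hx⟩
    have : ({a e, b e} : Finset V) ⊆ B := by
      intro y hy
      simp only [Finset.mem_insert, Finset.mem_singleton] at hy
      rcases hy with rfl | rfl
      · exact hab.1
      · exact hab.2
    rw [← Finset.card_pair (hne e)]
    exact Finset.card_le_card this
  have h4 : ∀ X, 4 ≤ cut a b (A X) := by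
    intro X
    have e1 := h3 (A X) (hAn X) (hAn' X)
    have e2 := h3' (A X)
    have e3 := two (A X) (by
      intro x y hxy hx
      rw [hAmem] at hx ⊢
      rw [← hxy]; exact hx) (hAn X)
    have e4 := two (A X)ᶜ (by
      intro x y hxy hx
      rw [Finset.mem_compl, hAmem] at hx ⊢
      rw [← hxy]; exact hx) (hAn' X)
    by_contra h
    have : cut a b (A X) = 3 := by omega
    have := e2 this
    omega
  have h5 : ∑ X, cut a b (A X) ≤ 2 * I.card := by
    have e1 : ∀ X, cut a b (A X) = ∑ e : E, if e ∈ cutS a b (A X) then 1 else 0 := by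
      intro X
      unfold cut
      rw [← Finset.sum_filter, Finset.sum_const, smul_eq_mul, mul_one]
      congr 1
      ext e; simp
    rw [Finset.sum_congr rfl (fun X _ => e1 X), Finset.sum_comm]
    have e2 : ∀ e : E, (∑ X, if e ∈ cutS a b (A X) then 1 else 0) ≤ if e ∈ I then 2 else 0 := by
      intro e
      rw [← Finset.sum_filter, Finset.sum_const, smul_eq_mul, mul_one]
      by_cases he : e ∈ I
      · rw [if_pos he]
        have : univ.filter (fun X => e ∈ cutS a b (A X)) ⊆
            {Quot.mk (rr a b I) (a e), Quot.mk (rr a b I) (b e)} := by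
          intro X hX
          simp only [Finset.mem_filter, Finset.mem_univ, true_and, mem_cutS, hAmem] at hX
          simp only [Finset.mem_insert, Finset.mem_singleton]
          by_contra hh
          push Not at hh
          apply hX
          constructor
          · intro h; exact absurd h.symm hh.1
          · intro h; exact absurd h.symm hh.2
        exact (Finset.card_le_card this).trans Finset.card_le_two
      · rw [if_neg he]
        rw [Nat.le_zero, Finset.card_eq_zero]
        ext X
        simp only [Finset.mem_filter, Finset.mem_univ, true_and, mem_cutS, hAmem,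
          Finset.notMem_empty, iff_false, not_not]
        have : Quot.mk (rr a b I) (a e) = Quot.mk (rr a b I) (b e) :=
          Quot.sound ⟨e, he, rfl, rfl⟩
        rw [this]
    calc _ ≤ ∑ e : E, (if e ∈ I then 2 else 0) := Finset.sum_le_sum (fun e _ => e2 e)
      _ = 2 * I.card := by
        rw [← Finset.sum_filter, Finset.sum_const, smul_eq_mul, mul_comm]
        congr 2
        ext e; simp
  have h6 : 4 * Fintype.card (Quot (rr a b I)) ≤ ∑ X, cut a b (A X) := by
    calc 4 * Fintype.card (Quot (rr a b I)) = ∑ X : Quot (rr a b I), 4 := by simp [mul_comm]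
      _ ≤ _ := Finset.sum_le_sum (fun X _ => h4 X)
  omega

/-- existence of a join inside the kept edges -/
lemma exists_join (a b : E → V) (hev : Fintype.card V % 2 = 0) (M B : Finset E)
    (hconst : ∀ c : V → ZMod 2, (∀ e, (e ∉ M ∨ e ∈ B) → c (a e) = c (b e)) → ∀ x y, c x = c y) :
    ∃ z : E → ZMod 2, (∀ e ∉ B, z e = 0) ∧ ∀ c : V → ZMod 2, (∀ e ∉ M, c (a e) = c (b e)) →
      ∑ e, z e * (c (a e) + c (b e)) = ∑ x, c x := by
  classical
  have e2 : ∀ z : ZMod 2, z + z = 0 := by decide
  let Fc : (V → ZMod 2) → Prop := fun c => ∀ e ∉ M, c (a e) = c (b e)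
  obtain ⟨z0, hz0⟩ := exists_sol (ι := V → ZMod 2) (V := E)
    (fun c e => if Fc c ∧ e ∈ B then c (a e) + c (b e) else 0)
    (fun c => if Fc c then ∑ x, c x else 0) (by
    intro y hy
    let C : V → ZMod 2 := fun x => ∑ c : V → ZMod 2, y c * (if Fc c then c x else 0)
    have hC : ∀ e, (e ∉ M ∨ e ∈ B) → C (a e) = C (b e) := by
      intro e he
      rcases he with he | he
      · simp only [C]
        refine Finset.sum_congr rfl fun c _ => ?_
        by_cases hF : Fc c
        · rw [if_pos hF, if_pos hF, hF e he]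
        · rw [if_neg hF, if_neg hF]
      · have h0 := hy e
        have h1 : C (a e) + C (b e) =
            ∑ c : V → ZMod 2, y c * (if Fc c ∧ e ∈ B then c (a e) + c (b e) else 0) := by
          simp only [C]
          rw [← Finset.sum_add_distrib]
          refine Finset.sum_congr rfl fun c _ => ?_
          by_cases hF : Fc c
          · rw [if_pos hF, if_pos hF, if_pos ⟨hF, he⟩, mul_add]
          · rw [if_neg hF, if_neg hF, if_neg (fun h => hF h.1), mul_zero, add_zero]
        rw [h0] at h1
        have key : ∀ s t : ZMod 2, s + t = 0 → s = t := by decide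
        exact key _ _ h1
    have hCc := hconst C hC
    have h1 : ∑ c : V → ZMod 2, y c * (if Fc c then ∑ x, c x else 0) = ∑ x, C x := by
      simp only [C]
      rw [Finset.sum_comm]
      refine Finset.sum_congr rfl fun c _ => ?_
      by_cases hF : Fc c
      · simp only [if_pos hF, Finset.mul_sum]
      · simp [if_neg hF]
    rw [h1]
    rcases isEmpty_or_nonempty V with hV | ⟨⟨x0⟩⟩
    · simp
    · rw [Finset.sum_congr rfl (fun x _ => hCc x x0), Finset.sum_const, Finset.card_univ]
      obtain ⟨k, hk⟩ : ∃ k, Fintype.card V = k + k := ⟨Fintype.card V / 2, by omega⟩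
      rw [hk, add_smul]; exact e2 _)
  refine ⟨fun e => if e ∈ B then z0 e else 0, fun e he => if_neg he, ?_⟩
  intro c hc
  have h1 := hz0 c
  rw [if_pos hc] at h1
  rw [← h1]
  refine Finset.sum_congr rfl fun e _ => ?_
  beta_reduce
  by_cases he : e ∈ B
  · rw [if_pos he, if_pos ⟨hc, he⟩, mul_comm]
  · rw [if_neg he, if_neg (fun h => he h.2), zero_mul, zero_mul]

theorem base_good (a b : E → V) (hne : ∀ e, a e ≠ b e) (hc : ∀ x, (starS a b x).card = 3)
    (h3 : ∀ A : Finset V, A.Nonempty → Aᶜ.Nonempty → 3 ≤ cut a b A)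
    (h3' : ∀ A : Finset V, cut a b A = 3 → A.card ≤ 1 ∨ Aᶜ.card ≤ 1) (e0 : E) :
    ∃ l : E → Fin 4, GoodL a b l ∧ l e0 ≠ 0 := by
  classical
  obtain ⟨M, he0, hM⟩ := exists_matching a b hne hc
    (fun A h h' => by have := h3 A h h'; omega) e0
  have hV : Nonempty V := ⟨a e0⟩
  let r : Finset E → ℤ := fun I => (I.card : ℤ) + 1 - (Module.finrank (ZMod 2) (WW a b I) : ℤ)
  have hconn : ∀ I, (I.card : ℤ) ≤ r I → ∀ c ∈ WW a b I, ∀ x y, c x = c y := by
    intro I hI c hcI x y
    have h1 : Module.finrank (ZMod 2) (WW a b I) ≤ 1 := by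
      simp only [r] at hI
      have : (Module.finrank (ZMod 2) (WW a b I) : ℤ) ≤ 1 := by linarith
      exact_mod_cast this
    rw [finrank_WW] at h1
    have : Finite (Quot (rr a b I)) := Quot.finite _
    have hsub : Subsingleton (Quot (rr a b I)) := Finite.card_le_one_iff_subsingleton.mp h1
    have h2 : Quot.mk (rr a b I) x = Quot.mk (rr a b I) y := Subsingleton.elim _ _
    have h3 := congrArg (Quot.lift c (by
      rintro x y ⟨e, he, rfl, rfl⟩
      exact hcI e he)) h2
    exact h3
  obtain ⟨P, hPM, hP1, hP2⟩ := two_partition M r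
    (by
      intro I _ J _
      have h1 := finrank_submod a b I J
      have h2 : ((I ∪ J).card : ℤ) + ((I ∩ J).card : ℤ) = (I.card : ℤ) + (J.card : ℤ) := by
        exact_mod_cast Finset.card_union_add_card_inter I J
      have h1' : (Module.finrank (ZMod 2) (WW a b I) : ℤ) + Module.finrank (ZMod 2) (WW a b J) ≤
        Module.finrank (ZMod 2) (WW a b (I ∪ J)) + Module.finrank (ZMod 2) (WW a b (I ∩ J)) := by
        exact_mod_cast h1
      simp only [r]
      linarith)
    (by
      simp only [r]
      rw [finrank_WW]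
      have : Finite (Quot (rr a b ∅)) := Quot.finite _
      have : Nonempty (Quot (rr a b (∅ : Finset E))) := ⟨Quot.mk _ (a e0)⟩
      have h1 : 0 < Nat.card (Quot (rr a b (∅ : Finset E))) := Nat.card_pos
      have h2 : (1 : ℤ) ≤ (Nat.card (Quot (rr a b (∅ : Finset E))) : ℤ) := by exact_mod_cast h1
      simp only [Finset.card_empty, Nat.cast_zero]
      linarith)
    (by
      intro I hI
      have h1 := comp_bound a b hne hc h3 h3' M hM I hI
      rw [← finrank_WW] at h1
      have h2 : 2 * (Module.finrank (ZMod 2) (WW a b I) : ℤ) ≤ (I.card : ℤ) + 2 := by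
        exact_mod_cast h1
      simp only [r]
      linarith)
  have hev := even_card a b hne hc
  obtain ⟨z, hz1, hz2⟩ := exists_join a b hev M (M \ P) (by
    intro c hc'
    apply hconn P hP1 c
    intro e he
    apply hc'
    by_cases h : e ∈ M
    · right; exact Finset.mem_sdiff.mpr ⟨h, he⟩
    · exact Or.inl h)
  obtain ⟨z', hz1', hz2'⟩ := exists_join a b hev M P (by
    intro c hc'
    apply hconn (M \ P) hP2 c
    intro e he
    apply hc'
    rw [Finset.mem_sdiff, not_and_or, not_not] at he
    exact he)
  let l : E → Fin 4 := fun e => if e ∉ M then 0 else if z e = 1 then 1 else if z' e = 1 then 2 else 3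
  have hl0 : ∀ e, l e = 0 ↔ e ∉ M := by
    intro e
    simp only [l]
    by_cases h : e ∈ M
    · rw [if_neg (not_not.mpr h)]
      constructor
      · intro h'
        split_ifs at h' <;> exact absurd h' (by decide)
      · intro h'; exact absurd h h'
    · rw [if_pos h]; simp [h]
  have hz01 : ∀ t : ZMod 2, t ≠ 1 → t = 0 := by decide
  have hzM : ∀ e, z e = 1 → e ∈ M := by
    intro e he
    by_contra h
    have := hz1 e (fun h' => h (Finset.mem_sdiff.mp h').1)
    rw [this] at he; exact absurd he (by decide)
  have hz'M : ∀ e, z' e = 1 → e ∈ M ∧ z e = 0 := by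
    intro e he
    have hP : e ∈ P := by
      by_contra h
      have := hz1' e h
      rw [this] at he; exact absurd he (by decide)
    exact ⟨hPM hP, hz1 e (fun h' => (Finset.mem_sdiff.mp h').2 hP)⟩
  have hl1 : ∀ e, l e = 1 ↔ z e = 1 := by
    intro e
    constructor
    · intro h
      by_contra h'
      simp only [l] at h
      split_ifs at h <;> contradiction
    · intro h
      simp only [l]
      rw [if_neg (not_not.mpr (hzM e h)), if_pos h]
  have hl2 : ∀ e, l e = 2 ↔ z' e = 1 := by
    intro e
    constructor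
    · intro h
      by_contra h'
      simp only [l] at h
      split_ifs at h <;> contradiction
    · intro h
      obtain ⟨h1, h2⟩ := hz'M e h
      simp only [l]
      rw [if_neg (not_not.mpr h1), if_neg (by rw [h2]; decide), if_pos h]
  refine ⟨l, ⟨?_, ?_⟩, ?_⟩
  · intro x
    obtain ⟨e, he, heu⟩ := hM x
    refine ⟨e, ⟨fun h => (hl0 e).mp h he.1, he.2⟩, ?_⟩
    rintro f ⟨hf1, hf2⟩
    apply heu
    refine ⟨?_, hf2⟩
    by_contra h
    exact hf1 ((hl0 f).mpr h)
  · intro i hi c hc'
    have hcM : ∀ e ∉ M, c (a e) = c (b e) := fun e he => hc' e ((hl0 e).mpr he)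
    have s1 : ∑ e, (if l e = 1 then c (a e) + c (b e) else 0) = ∑ x, c x := by
      rw [← hz2 c hcM]
      refine Finset.sum_congr rfl fun e _ => ?_
      by_cases h : z e = 1
      · rw [if_pos ((hl1 e).mpr h), h, one_mul]
      · rw [if_neg (fun h' => h ((hl1 e).mp h')), hz01 _ h, zero_mul]
    have s2 : ∑ e, (if l e = 2 then c (a e) + c (b e) else 0) = ∑ x, c x := by
      rw [← hz2' c hcM]
      refine Finset.sum_congr rfl fun e _ => ?_
      by_cases h : z' e = 1
      · rw [if_pos ((hl2 e).mpr h), h, one_mul]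
      · rw [if_neg (fun h' => h ((hl2 e).mp h')), hz01 _ h, zero_mul]
    have s0 : ∑ e, (if e ∈ M then c (a e) + c (b e) else 0) = ∑ x, c x := by
      have h1 : ∀ e, (if e ∈ M then c (a e) + c (b e) else 0) =
          ∑ x, (if e ∈ M ∧ (a e = x ∨ b e = x) then c x else 0) := by
        intro e
        by_cases h : e ∈ M
        · rw [if_pos h]
          have : ∀ x, (if e ∈ M ∧ (a e = x ∨ b e = x) then c x else 0) =
              (if a e = x then c x else 0) + (if b e = x then c x else 0) := by
            intro x
            by_cases h1 : a e = x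
            · have h2 : ¬ b e = x := fun h2 => hne e (h1.trans h2.symm)
              simp [h, h1, h2]
            · by_cases h2 : b e = x <;> simp [h, h1, h2]
          rw [Finset.sum_congr rfl (fun x _ => this x), Finset.sum_add_distrib]
          simp
        · simp [h]
      rw [Finset.sum_congr rfl (fun e _ => h1 e), Finset.sum_comm]
      refine Finset.sum_congr rfl fun x _ => ?_
      obtain ⟨e, he, heu⟩ := hM x
      rw [Finset.sum_eq_single e]
      · rw [if_pos he]
      · intro f _ hf
        rw [if_neg]
        intro h; exact hf (heu f h)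
      · intro h; exact absurd (Finset.mem_univ _) h
    have hi' : i = 1 ∨ i = 2 ∨ i = 3 := by
      revert i; decide
    rcases hi' with rfl | rfl | rfl
    · exact s1
    · exact s2
    · have h1 : ∀ e, (if l e = 3 then c (a e) + c (b e) else 0) =
          (if e ∈ M then c (a e) + c (b e) else 0) + (if l e = 1 then c (a e) + c (b e) else 0) +
          (if l e = 2 then c (a e) + c (b e) else 0) := by
        intro e
        have e2 : ∀ z : ZMod 2, z + z = 0 := by decide
        by_cases h : e ∈ M
        · have h0 : l e ≠ 0 := fun h' => (hl0 e).mp h' h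
          have h4 : ∀ i : Fin 4, i ≠ 0 → i = 1 ∨ i = 2 ∨ i = 3 := by decide
          rcases h4 _ h0 with h5 | h5 | h5
          · simp [h, h5, e2]
          · simp [h, h5, e2]
          · simp [h, h5]
        · have h0 : l e = 0 := (hl0 e).mpr h
          simp [h, h0]
      rw [Finset.sum_congr rfl (fun e _ => h1 e), Finset.sum_add_distrib, Finset.sum_add_distrib,
        s0, s1, s2]
      have key : ∀ s : ZMod 2, s + s + s = s := by decide
      exact key _
  · intro h; exact (hl0 e0).mp h he0

end Pool.Agent.helper60.ECD
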