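import Mathlib
import Pool.Agent.helper60.ECD.Base

/-!
# Gluing good labellings over 3-edge-cuts
-/

namespace Pool.Agent.helper60.ECD

open Finset

set_option linter.unusedSectionVars false

universe u v

variable {V : Type u} {E : Type v} [Fintype V] [Fintype E] [DecidableEq V] [DecidableEq E]

lemma F2 (a b : E → V) (hc : ∀ x, (starS a b x).card = 3) (l : E → Fin 4)
    (hu : ∀ x, ∃! e, l e ≠ 0 ∧ (a e = x ∨ b e = x)) (x : V) :
    (univ.filter (fun e => l e = 0 ∧ (a e = x ∨ b e = x))).card = 2 := by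
  obtain ⟨e1, he1, hu1⟩ := hu x
  have h1 := hc x
  have h2 : starS a b x = insert e1 (univ.filter (fun e => l e = 0 ∧ (a e = x ∨ b e = x))) := by
    ext e
    simp only [starS, Finset.mem_filter, Finset.mem_univ, true_and, Finset.mem_insert]
    constructor
    · intro h
      by_cases h0 : l e = 0
      · exact Or.inr ⟨h0, h⟩
      · exact Or.inl (hu1 e ⟨h0, h⟩)
    · rintro (rfl | h)
      · exact he1.2
      · exact h.2
  rw [h2, Finset.card_insert_of_notMem] at h1
  · omega
  · simp only [Finset.mem_filter, Finset.mem_univ, true_and, not_and]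
    intro h; exact absurd h he1.1

/-- parity of a function constant along the 2-factor on the edges of the 2-factor in a cut -/
lemma par (a b : E → V) (hne : ∀ e, a e ≠ b e) (hc : ∀ x, (starS a b x).card = 3) (l : E → Fin 4)
    (hu : ∀ x, ∃! e, l e ≠ 0 ∧ (a e = x ∨ b e = x)) (c : V → ZMod 2)
    (hcc : ∀ e, l e = 0 → c (a e) = c (b e)) (X : Finset V) :
    ∑ e ∈ cutS a b X, (if l e = 0 then c (a e) else 0) = 0 := by
  have e2 : ∀ z : ZMod 2, z + z = 0 := by decide
  have h1 : ∑ x ∈ X, ∑ e : E, (if l e = 0 ∧ (a e = x ∨ b e = x) then c x else 0) = 0 := by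
    apply Finset.sum_eq_zero
    intro x _
    rw [← Finset.sum_filter, Finset.sum_const, F2 a b hc l hu x, two_smul]
    exact e2 _
  rw [Finset.sum_comm] at h1
  refine Eq.trans ?_ h1
  rw [cutS, Finset.sum_filter]
  refine Finset.sum_congr rfl fun e _ => ?_
  have h3 : ∀ x, (if l e = 0 ∧ (a e = x ∨ b e = x) then c x else 0) =
      (if a e = x then (if l e = 0 then c x else 0) else 0) +
      (if b e = x then (if l e = 0 then c x else 0) else 0) := by
    intro x
    by_cases h1 : a e = x
    · have h2 : ¬ b e = x := fun h2 => hne e (h1.trans h2.symm)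
      simp [h1, h2]
    · by_cases h2 : b e = x <;> simp [h1, h2]
  rw [Finset.sum_congr rfl (fun x _ => h3 x), Finset.sum_add_distrib, Finset.sum_ite_eq,
    Finset.sum_ite_eq]
  by_cases h0 : l e = 0
  · have := hcc e h0
    by_cases h4 : a e ∈ X <;> by_cases h5 : b e ∈ X <;> simp [h0, h4, h5, this, e2]
  · simp [h0]

lemma existsUnique_iff_sum {α : Type*} [Fintype α] (p : α → Prop) [DecidablePred p] :
    (∃! x, p x) ↔ ∑ x, (if p x then 1 else 0) = 1 := by
  rw [← Finset.sum_filter, Finset.sum_const, smul_eq_mul, mul_one]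
  exact Fintype.existsUnique_iff_card_one p

lemma GoodL.perm {a b : E → V} {l : E → Fin 4} (h : GoodL a b l) (π : Equiv.Perm (Fin 4))
    (hπ : π 0 = 0) : GoodL a b (fun e => π (l e)) := by
  have h0 : ∀ e, π (l e) = 0 ↔ l e = 0 := by
    intro e
    constructor
    · intro h'; exact π.injective (h'.trans hπ.symm)
    · intro h'; rw [h', hπ]
  refine ⟨?_, ?_⟩
  · intro x
    simp only [ne_eq, h0]
    exact h.1 x
  · intro i hi c hc
    have h1 := h.2 (π.symm i) (by
      intro h'
      rw [Equiv.symm_apply_eq, hπ] at h'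
      exact hi h') c (fun e he => hc e ((h0 e).mpr he))
    rw [← h1]
    refine Finset.sum_congr rfl fun e _ => ?_
    have : π (l e) = i ↔ l e = π.symm i := by rw [Equiv.eq_symm_apply]
    simp only [this]

/-- contraction of the complement of `X` -/
def qq (X : Finset V) (x : V) : Option {x // x ∈ X} := if h : x ∈ X then some ⟨x, h⟩ else none

lemma qq_mem {X : Finset V} {x : V} (h : x ∈ X) : qq X x = some ⟨x, h⟩ := dif_pos h

lemma qq_notMem {X : Finset V} {x : V} (h : x ∉ X) : qq X x = none := dif_neg h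

lemma qq_some {X : Finset V} {x : V} {y : {x // x ∈ X}} : qq X x = some y ↔ x = y.1 := by
  constructor
  · intro h
    by_cases hx : x ∈ X
    · rw [qq_mem hx] at h
      have := Option.some.inj h
      rw [← this]
    · rw [qq_notMem hx] at h; exact absurd h (by simp)
  · rintro rfl
    rw [qq_mem y.2]

lemma qq_none {X : Finset V} {x : V} : qq X x = none ↔ x ∉ X := by
  constructor
  · intro h hx
    rw [qq_mem hx] at h; exact absurd h (by simp)
  · exact qq_notMem

/-- the edges which survive the contraction of the complement of `X` -/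
abbrev CE (a b : E → V) (X : Finset V) := {e : E // a e ∈ X ∨ b e ∈ X}

/-- first end in the contracted graph -/
def ca (a b : E → V) (X : Finset V) (e : CE a b X) : Option {x // x ∈ X} := qq X (a e.1)

/-- second end in the contracted graph -/
def cb (a b : E → V) (X : Finset V) (e : CE a b X) : Option {x // x ∈ X} := qq X (b e.1)

lemma ce_ne (a b : E → V) (hne : ∀ e, a e ≠ b e) (X : Finset V) (e : CE a b X) :
    ca a b X e ≠ cb a b X e := by
  intro h
  unfold ca cb at h
  by_cases h1 : a e.1 ∈ X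
  · rw [qq_mem h1] at h
    have := qq_some.mp h.symm
    exact hne e.1 this.symm
  · rcases e.2 with h2 | h2
    · exact h1 h2
    · rw [qq_mem h2] at h
      exact hne e.1 (qq_some.mp h)

lemma ce_cut (a b : E → V) (X : Finset V) (A : Finset (Option {x // x ∈ X})) :
    cut (ca a b X) (cb a b X) A = cut a b (univ.filter (fun x => qq X x ∈ A)) := by
  unfold cut
  apply Finset.card_bij (fun e _ => e.1)
  · intro e he
    rw [mem_cutS] at he ⊢
    simpa [ca, cb] using he
  · intro e _ f _ h; exact Subtype.ext h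
  · intro e he
    rw [mem_cutS] at he
    simp only [Finset.mem_filter, Finset.mem_univ, true_and] at he
    have : a e ∈ X ∨ b e ∈ X := by
      by_contra h
      rw [not_or] at h
      rw [qq_notMem h.1, qq_notMem h.2] at he
      exact he Iff.rfl
    refine ⟨⟨e, this⟩, ?_, rfl⟩
    rw [mem_cutS]
    exact he

lemma ce_deg (a b : E → V) (hc : ∀ x, (starS a b x).card = 3) (X : Finset V)
    (hX : cut a b X = 3) (y : Option {x // x ∈ X}) : (starS (ca a b X) (cb a b X) y).card = 3 := by
  rcases y with _ | y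
  · rw [← hX]
    unfold cut
    apply Finset.card_bij (fun e _ => e.1)
    · intro e he
      rw [mem_starS] at he
      rw [mem_cutS]
      unfold ca cb at he
      rw [qq_none, qq_none] at he
      have := e.2
      tauto
    · intro e _ f _ h; exact Subtype.ext h
    · intro e he
      rw [mem_cutS] at he
      have : a e ∈ X ∨ b e ∈ X := by tauto
      refine ⟨⟨e, this⟩, ?_, rfl⟩
      rw [mem_starS]
      unfold ca cb
      rw [qq_none, qq_none]
      tauto
  · rw [← hc y.1]
    apply Finset.card_bij (fun e _ => e.1)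
    · intro e he
      rw [mem_starS] at he ⊢
      unfold ca cb at he
      rwa [qq_some, qq_some] at he
    · intro e _ f _ h; exact Subtype.ext h
    · intro e he
      rw [mem_starS] at he
      have : a e ∈ X ∨ b e ∈ X := by
        rcases he with h | h
        · left; rw [h]; exact y.2
        · right; rw [h]; exact y.2
      refine ⟨⟨e, this⟩, ?_, rfl⟩
      rw [mem_starS]
      unfold ca cb
      rw [qq_some, qq_some]
      exact he

lemma ce_two (a b : E → V) (h2 : ∀ A : Finset V, A.Nonempty → Aᶜ.Nonempty → 2 ≤ cut a b A)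
    (X : Finset V) (hX : Xᶜ.Nonempty) (A : Finset (Option {x // x ∈ X})) (hA : A.Nonempty)
    (hA' : Aᶜ.Nonempty) : 2 ≤ cut (ca a b X) (cb a b X) A := by
  rw [ce_cut]
  have hsurj : ∀ y : Option {x // x ∈ X}, ∃ x, qq X x = y := by
    rintro (_ | y)
    · obtain ⟨x, hx⟩ := hX
      exact ⟨x, qq_notMem (Finset.mem_compl.mp hx)⟩
    · exact ⟨y.1, qq_some.mpr rfl⟩
  apply h2
  · obtain ⟨y, hy⟩ := hA
    obtain ⟨x, hx⟩ := hsurj y
    exact ⟨x, by simp [hx, hy]⟩
  · obtain ⟨y, hy⟩ := hA'
    obtain ⟨x, hx⟩ := hsurj y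
    refine ⟨x, ?_⟩
    rw [Finset.mem_compl] at hy ⊢
    simpa [hx] using hy

lemma ce_card (X : Finset V) : Fintype.card (Option {x // x ∈ X}) = X.card + 1 := by
  rw [Fintype.card_option, Fintype.card_coe]

lemma sum_CE (a b : E → V) (X : Finset V) (g : E → ZMod 2)
    (hg : ∀ e, ¬ (a e ∈ X ∨ b e ∈ X) → g e = 0) : ∑ e : CE a b X, g e.1 = ∑ e, g e := by
  rw [← Finset.sum_subtype (univ.filter (fun e => a e ∈ X ∨ b e ∈ X)) (by simp) g,
    Finset.sum_filter]
  refine Finset.sum_congr rfl fun e _ => ?_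
  by_cases h : a e ∈ X ∨ b e ∈ X
  · rw [if_pos h]
  · rw [if_neg h, hg e h]

theorem glue3 (a b : E → V) (hne : ∀ e, a e ≠ b e) (hc : ∀ x, (starS a b x).card = 3)
    (X : Finset V) (hX : cut a b X = 3)
    (l1 : CE a b X → Fin 4) (hl1 : GoodL (ca a b X) (cb a b X) l1)
    (l2 : CE a b Xᶜ → Fin 4) (hl2 : GoodL (ca a b Xᶜ) (cb a b Xᶜ) l2)
    (l : E → Fin 4) (h1 : ∀ e h, l e = l1 ⟨e, h⟩) (h2 : ∀ e h, l e = l2 ⟨e, h⟩) :
    GoodL a b l := by
  have e2 : ∀ z : ZMod 2, z + z = 0 := by decide
  have hu : ∀ x, ∃! e, l e ≠ 0 ∧ (a e = x ∨ b e = x) := by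
    intro x
    by_cases hx : x ∈ X
    · obtain ⟨e, ⟨he1, he2⟩, heu⟩ := hl1.1 (some ⟨x, hx⟩)
      unfold ca cb at he2
      rw [qq_some, qq_some] at he2
      refine ⟨e.1, ⟨?_, he2⟩, ?_⟩
      · rw [h1 e.1 e.2]; exact he1
      · rintro f ⟨hf1, hf2⟩
        have hf3 : a f ∈ X ∨ b f ∈ X := by
          rcases hf2 with h | h
          · left; rw [h]; exact hx
          · right; rw [h]; exact hx
        have := heu ⟨f, hf3⟩ ⟨by rw [← h1 f hf3]; exact hf1, by
          unfold ca cb
          rw [qq_some, qq_some]; exact hf2⟩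
        rw [← this]
    · have hx' : x ∈ Xᶜ := Finset.mem_compl.mpr hx
      obtain ⟨e, ⟨he1, he2⟩, heu⟩ := hl2.1 (some ⟨x, hx'⟩)
      unfold ca cb at he2
      rw [qq_some, qq_some] at he2
      refine ⟨e.1, ⟨?_, he2⟩, ?_⟩
      · rw [h2 e.1 e.2]; exact he1
      · rintro f ⟨hf1, hf2⟩
        have hf3 : a f ∈ Xᶜ ∨ b f ∈ Xᶜ := by
          rcases hf2 with h | h
          · left; rw [h]; exact hx'
          · right; rw [h]; exact hx'
        have := heu ⟨f, hf3⟩ ⟨by rw [← h2 f hf3]; exact hf1, by
          unfold ca cb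
          rw [qq_some, qq_some]; exact hf2⟩
        rw [← this]
  refine ⟨hu, ?_⟩
  intro i hi c hcc
  -- the common value of `c` on the edges of the 2-factor in the cut
  have hpar := par a b hne hc l hu c hcc X
  obtain ⟨e1, ⟨he1, he1'⟩, he1u⟩ := hl1.1 none
  have hmemcut : ∀ e : E, e ∈ cutS a b X ↔ ∃ h : a e ∈ X ∨ b e ∈ X,
      (ca a b X ⟨e, h⟩ = none ∨ cb a b X ⟨e, h⟩ = none) := by
    intro e
    rw [mem_cutS]
    unfold ca cb
    simp only [qq_none]
    constructor
    · intro h
      have : a e ∈ X ∨ b e ∈ X := by tauto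
      exact ⟨this, by tauto⟩
    · rintro ⟨h, h'⟩; tauto
  have he1cut : e1.1 ∈ cutS a b X := (hmemcut _).mpr ⟨e1.2, he1'⟩
  have hzero : ∀ e ∈ cutS a b X, e ≠ e1.1 → l e = 0 := by
    intro e he hee
    obtain ⟨h, h'⟩ := (hmemcut e).mp he
    by_contra h0
    rw [h1 e h] at h0
    have := he1u ⟨e, h⟩ ⟨h0, h'⟩
    exact hee (by rw [← this])
  have hne1 : l e1.1 ≠ 0 := by rw [h1 _ e1.2]; exact he1
  have hcard : ((cutS a b X).erase e1.1).card = 2 := by
    rw [Finset.card_erase_of_mem he1cut]
    have : (cutS a b X).card = 3 := hX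
    omega
  obtain ⟨f, g, hfg, hfgset⟩ := Finset.card_eq_two.mp hcard
  have hβ : c (a f) = c (a g) := by
    rw [← Finset.add_sum_erase _ _ he1cut, if_neg hne1, zero_add, hfgset,
      Finset.sum_pair hfg] at hpar
    have hf : f ∈ (cutS a b X).erase e1.1 := by rw [hfgset]; simp
    have hg : g ∈ (cutS a b X).erase e1.1 := by rw [hfgset]; simp
    rw [Finset.mem_erase] at hf hg
    rw [if_pos (hzero f hf.2 hf.1), if_pos (hzero g hg.2 hg.1)] at hpar
    have key : ∀ s t : ZMod 2, s + t = 0 → s = t := by decide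
    exact key _ _ hpar
  have hval : ∀ e, l e = 0 → ¬ (a e ∈ X ↔ b e ∈ X) → c (a e) = c (a f) ∧ c (b e) = c (a f) := by
    intro e he hecut
    have h3 : e ∈ cutS a b X := mem_cutS.mpr hecut
    have h4 : e ∈ (cutS a b X).erase e1.1 := by
      rw [Finset.mem_erase]
      refine ⟨?_, h3⟩
      rintro rfl; exact hne1 he
    rw [hfgset] at h4
    simp only [Finset.mem_insert, Finset.mem_singleton] at h4
    have h5 := hcc e he
    rcases h4 with rfl | rfl
    · exact ⟨rfl, h5.symm⟩
    · exact ⟨hβ.symm, by rw [← h5, hβ]⟩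
  set β := c (a f) with hβdef
  let c1 : Option {x // x ∈ X} → ZMod 2 := fun y => match y with
    | some y => c y.1
    | none => β
  let c2 : Option {x // x ∈ Xᶜ} → ZMod 2 := fun y => match y with
    | some y => c y.1
    | none => β
  have hc1 : ∀ x, c1 (qq X x) = if x ∈ X then c x else β := by
    intro x
    by_cases hx : x ∈ X
    · rw [qq_mem hx, if_pos hx]
    · rw [qq_notMem hx, if_neg hx]
  have hc2 : ∀ x, c2 (qq Xᶜ x) = if x ∈ X then β else c x := by
    intro x
    by_cases hx : x ∈ X
    · rw [qq_notMem (by simpa using hx), if_pos hx]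
    · rw [qq_mem (by simpa using hx), if_neg hx]
  have g1 := hl1.2 i hi c1 (by
    intro e he
    rw [← h1 e.1 e.2] at he
    unfold ca cb
    rw [hc1, hc1]
    have h5 := hcc e.1 he
    have h6 := hval e.1 he
    by_cases h3 : a e.1 ∈ X <;> by_cases h4 : b e.1 ∈ X
    · rw [if_pos h3, if_pos h4, h5]
    · rw [if_pos h3, if_neg h4]; exact (h6 (by tauto)).1
    · rw [if_neg h3, if_pos h4]; exact (h6 (by tauto)).2.symm
    · rw [if_neg h3, if_neg h4])
  have g2 := hl2.2 i hi c2 (by
    intro e he
    rw [← h2 e.1 e.2] at he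
    unfold ca cb
    rw [hc2, hc2]
    have h5 := hcc e.1 he
    have h6 := hval e.1 he
    by_cases h3 : a e.1 ∈ X <;> by_cases h4 : b e.1 ∈ X
    · rw [if_pos h3, if_pos h4]
    · rw [if_pos h3, if_neg h4]; exact (h6 (by tauto)).2.symm
    · rw [if_neg h3, if_pos h4]; exact (h6 (by tauto)).1
    · rw [if_neg h3, if_neg h4, h5])
  have t1 : ∑ e : CE a b X, (if l1 e = i then c1 (ca a b X e) + c1 (cb a b X e) else 0) =
      ∑ e, (if l e = i then (if a e ∈ X then c (a e) else β) + (if b e ∈ X then c (b e) else β)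
        else 0) := by
    rw [← sum_CE a b X (fun e => if l e = i then (if a e ∈ X then c (a e) else β) +
      (if b e ∈ X then c (b e) else β) else 0)]
    · refine Finset.sum_congr rfl fun e _ => ?_
      rw [h1 e.1 e.2]
      unfold ca cb
      rw [hc1, hc1]
    · intro e he
      rw [not_or] at he
      simp [he.1, he.2, e2]
  have t2 : ∑ e : CE a b Xᶜ, (if l2 e = i then c2 (ca a b Xᶜ e) + c2 (cb a b Xᶜ e) else 0) =
      ∑ e, (if l e = i then (if a e ∈ X then β else c (a e)) + (if b e ∈ X then β else c (b e))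
        else 0) := by
    rw [← sum_CE a b Xᶜ (fun e => if l e = i then (if a e ∈ X then β else c (a e)) +
      (if b e ∈ X then β else c (b e)) else 0)]
    · refine Finset.sum_congr rfl fun e _ => ?_
      rw [h2 e.1 e.2]
      unfold ca cb
      rw [hc2, hc2]
    · intro e he
      rw [not_or, Finset.mem_compl, Finset.mem_compl, not_not, not_not] at he
      simp [he.1, he.2, e2]
  rw [t1] at g1
  rw [t2] at g2
  have r1 : ∑ y, c1 y = β + ∑ x ∈ X, c x := by
    rw [Fintype.sum_option]
    congr 1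
    exact Finset.sum_coe_sort X c
  have r2 : ∑ y, c2 y = β + ∑ x ∈ Xᶜ, c x := by
    rw [Fintype.sum_option]
    congr 1
    exact Finset.sum_coe_sort Xᶜ c
  rw [r1] at g1
  rw [r2] at g2
  have hsum : ∑ e, (if l e = i then c (a e) + c (b e) else 0) =
      ∑ e, (if l e = i then (if a e ∈ X then c (a e) else β) + (if b e ∈ X then c (b e) else β)
        else 0) +
      ∑ e, (if l e = i then (if a e ∈ X then β else c (a e)) + (if b e ∈ X then β else c (b e))
        else 0) := by
    rw [← Finset.sum_add_distrib]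
    refine Finset.sum_congr rfl fun e _ => ?_
    by_cases hi' : l e = i
    · rw [if_pos hi', if_pos hi', if_pos hi']
      have key : ∀ s t u : ZMod 2, s + t = s + t + (u + u) := by decide
      by_cases h3 : a e ∈ X <;> by_cases h4 : b e ∈ X <;> simp only [h3, h4, if_true, if_false]
      · rw [e2, add_zero]
      · have : ∀ s t u : ZMod 2, s + t = s + u + (u + t) := by decide
        exact this _ _ _
      · have : ∀ s t u : ZMod 2, s + t = u + t + (s + u) := by decide
        exact this _ _ _
      · have : ∀ s t u : ZMod 2, s + t = u + u + (s + t) := by decide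
        exact this _ _ _
    · rw [if_neg hi', if_neg hi', if_neg hi', add_zero]
  rw [hsum, g1, g2, ← Finset.sum_add_sum_compl X c]
  have key : ∀ s t u : ZMod 2, u + s + (u + t) = s + t := by decide
  exact key _ _ _

end Pool.Agent.helper60.ECD
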