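import Mathlib
import Pool.Agent.helper60.ECD.Glue3

/-!
# Gluing good labellings over 2-edge-cuts
-/

namespace Pool.Agent.helper60.ECD

open Finset

set_option linter.unusedSectionVars false

universe u v

variable {V : Type u} {E : Type v} [Fintype V] [Fintype E] [DecidableEq V] [DecidableEq E]

/-- the edges inside `X` -/
abbrev IE (a b : E → V) (X : Finset V) := {e : E // a e ∈ X ∧ b e ∈ X}

/-- the end in `X` of an edge of the cut -/
def ex (a b : E → V) (X : Finset V) (e : E) : V := if a e ∈ X then a e else b e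

lemma ex_mem {a b : E → V} {X : Finset V} {e : E} (he : e ∈ cutS a b X) : ex a b X e ∈ X := by
  rw [mem_cutS] at he
  unfold ex
  by_cases h : a e ∈ X
  · rw [if_pos h]; exact h
  · rw [if_neg h]; tauto

lemma ex_iff {a b : E → V} {X : Finset V} {e : E} (he : e ∈ cutS a b X) {x : V} (hx : x ∈ X) :
    (a e = x ∨ b e = x) ↔ ex a b X e = x := by
  rw [mem_cutS] at he
  unfold ex
  by_cases h : a e ∈ X
  · rw [if_pos h]
    constructor
    · rintro (h1 | h1)
      · exact h1
      · exfalso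
        apply he
        rw [h1]
        exact ⟨fun _ => hx, fun _ => h⟩
    · exact Or.inl
  · rw [if_neg h]
    constructor
    · rintro (h1 | h1)
      · exfalso
        rw [h1] at h
        exact h hx
      · exact h1
    · exact Or.inr

lemma ex_cut {a b : E → V} {X : Finset V} {e : E} (he : e ∈ cutS a b X) {A : Finset V}
    (hA : A ⊆ X) : e ∈ cutS a b A ↔ ex a b X e ∈ A := by
  rw [mem_cutS] at he ⊢
  unfold ex
  by_cases h : a e ∈ X
  · rw [if_pos h]
    have : b e ∉ A := fun h' => he ⟨fun _ => hA h', fun _ => h⟩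
    tauto
  · rw [if_neg h]
    have : a e ∉ A := fun h' => h (hA h')
    tauto

lemma ex_cut' {a b : E → V} {X : Finset V} {e : E} (he : e ∈ cutS a b X) {A : Finset V}
    (hA : A ⊆ X) : e ∈ cutS a b (A ∪ Xᶜ) ↔ ex a b X e ∉ A := by
  rw [mem_cutS] at he ⊢
  unfold ex
  simp only [Finset.mem_union, Finset.mem_compl]
  by_cases h : a e ∈ X
  · rw [if_pos h]
    have : b e ∉ X := fun h' => he ⟨fun _ => h', fun _ => h⟩
    tauto
  · rw [if_neg h]
    have : a e ∉ A := fun h' => h (hA h')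
    have : b e ∈ X := by
      by_contra h'
      exact he ⟨fun hh => absurd hh h, fun hh => absurd hh h'⟩
    tauto

lemma ex_sum (a b : E → V) (X : Finset V) (e : E) (c : V → ZMod 2) :
    c (ex a b X e) + c (ex a b Xᶜ e) = c (a e) + c (b e) := by
  unfold ex
  by_cases h : a e ∈ X
  · have : a e ∉ Xᶜ := by simpa using h
    rw [if_pos h, if_neg this]
  · have : a e ∈ Xᶜ := by simpa using h
    rw [if_neg h, if_pos this, add_comm]

lemma sum_split {M : Type*} [AddCommMonoid M] (a b : E → V) (X : Finset V) (α β : E)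
    (hαβ : α ≠ β) (hX : cutS a b X = {α, β}) (g : E → M) :
    ∑ e, g e = (∑ e : IE a b X, g e.1 + ∑ e : IE a b Xᶜ, g e.1) + (g α + g β) := by
  rw [← Finset.sum_subtype (univ.filter (fun e => a e ∈ X ∧ b e ∈ X)) (by simp) g,
    ← Finset.sum_subtype (univ.filter (fun e => a e ∈ Xᶜ ∧ b e ∈ Xᶜ)) (by simp) g,
    ← Finset.sum_pair hαβ, ← hX, cutS, Finset.sum_filter, Finset.sum_filter, Finset.sum_filter,
    ← Finset.sum_add_distrib, ← Finset.sum_add_distrib]
  refine Finset.sum_congr rfl fun e _ => ?_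
  by_cases h1 : a e ∈ X <;> by_cases h2 : b e ∈ X <;> simp [h1, h2]

/-- first end in the graph on `X` with one new edge -/
def ga (a b : E → V) (X : Finset V) (α : E) (hα : α ∈ cutS a b X) :
    Option (IE a b X) → {x // x ∈ X}
  | none => ⟨ex a b X α, ex_mem hα⟩
  | some e => ⟨a e.1, e.2.1⟩

/-- second end in the graph on `X` with one new edge -/
def gb (a b : E → V) (X : Finset V) (β : E) (hβ : β ∈ cutS a b X) :
    Option (IE a b X) → {x // x ∈ X}
  | none => ⟨ex a b X β, ex_mem hβ⟩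
  | some e => ⟨b e.1, e.2.2⟩

lemma ex_ne (a b : E → V) (hne : ∀ e, a e ≠ b e) (hc : ∀ x, (starS a b x).card = 3)
    (h2 : ∀ A : Finset V, A.Nonempty → Aᶜ.Nonempty → 2 ≤ cut a b A)
    (X : Finset V) (α β : E) (hαβ : α ≠ β) (hX : cutS a b X = {α, β}) :
    ex a b X α ≠ ex a b X β := by
  intro h
  have hα : α ∈ cutS a b X := by rw [hX]; simp
  have hβ : β ∈ cutS a b X := by rw [hX]; simp
  set x := ex a b X α with hx
  have hxX : x ∈ X := ex_mem hα
  have hsα : α ∈ starS a b x := mem_starS.mpr ((ex_iff hα hxX).mpr hx.symm)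
  have hsβ : β ∈ starS a b x := mem_starS.mpr ((ex_iff hβ hxX).mpr h.symm)
  by_cases hA : (X.erase x).Nonempty
  · have hA' : (X.erase x)ᶜ.Nonempty := ⟨x, by simp⟩
    have h3 := h2 _ hA hA'
    have hsub : cutS a b (X.erase x) ⊆ ((starS a b x).erase α).erase β := by
      intro e he
      have hnαβ : e ≠ α ∧ e ≠ β := by
        constructor
        · rintro rfl
          have := (ex_cut hα (Finset.erase_subset x X)).mp he
          rw [← hx] at this
          simp at this
        · rintro rfl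
          have := (ex_cut hβ (Finset.erase_subset x X)).mp he
          rw [← h] at this
          simp at this
      rw [Finset.mem_erase, Finset.mem_erase, mem_starS]
      refine ⟨hnαβ.2, hnαβ.1, ?_⟩
      have hnX : e ∉ cutS a b X := by
        rw [hX]; simp [hnαβ.1, hnαβ.2]
      rw [mem_cutS] at he hnX
      rw [not_not] at hnX
      simp only [Finset.mem_erase] at he
      by_cases g1 : a e = x
      · exact Or.inl g1
      · by_cases g2 : b e = x
        · exact Or.inr g2
        · exfalso; apply he; tauto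
    have h4 := Finset.card_le_card hsub
    have hβ' : β ∈ (starS a b x).erase α := Finset.mem_erase.mpr ⟨hαβ.symm, hsβ⟩
    rw [Finset.card_erase_of_mem hβ', Finset.card_erase_of_mem hsα, hc x] at h4
    unfold cut at h3
    omega
  · rw [Finset.not_nonempty_iff_eq_empty] at hA
    have hXx : X = {x} := by
      rw [Finset.erase_eq_empty_iff] at hA
      rcases hA with h' | h'
      · rw [h'] at hxX; simp at hxX
      · exact h'
    have h3 : cutS a b X ⊇ starS a b x := by
      intro e he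
      rw [mem_starS] at he
      by_contra h4
      rw [mem_cutS, not_not] at h4
      have : a e ∈ X ∧ b e ∈ X := by
        rcases he with h5 | h5
        · have : a e ∈ X := by rw [h5]; exact hxX
          exact ⟨this, h4.mp this⟩
        · have : b e ∈ X := by rw [h5]; exact hxX
          exact ⟨h4.mpr this, this⟩
      rw [hXx, Finset.mem_singleton, Finset.mem_singleton] at this
      exact hne e (this.1.trans this.2.symm)
    have h4 := Finset.card_le_card h3
    rw [hc x, hX, Finset.card_pair hαβ] at h4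
    omega

lemma g2_ne (a b : E → V) (hne : ∀ e, a e ≠ b e) (hc : ∀ x, (starS a b x).card = 3)
    (h2 : ∀ A : Finset V, A.Nonempty → Aᶜ.Nonempty → 2 ≤ cut a b A)
    (X : Finset V) (α β : E) (hαβ : α ≠ β) (hX : cutS a b X = {α, β})
    (hα : α ∈ cutS a b X) (hβ : β ∈ cutS a b X) (e : Option (IE a b X)) :
    ga a b X α hα e ≠ gb a b X β hβ e := by
  intro h
  rcases e with _ | e
  · exact ex_ne a b hne hc h2 X α β hαβ hX (congrArg Subtype.val h)
  · exact hne e.1 (congrArg Subtype.val h)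

lemma g2_deg (a b : E → V) (hne : ∀ e, a e ≠ b e) (hc : ∀ x, (starS a b x).card = 3)
    (h2 : ∀ A : Finset V, A.Nonempty → Aᶜ.Nonempty → 2 ≤ cut a b A)
    (X : Finset V) (α β : E) (hαβ : α ≠ β) (hX : cutS a b X = {α, β})
    (hα : α ∈ cutS a b X) (hβ : β ∈ cutS a b X) (y : {x // x ∈ X}) :
    (starS (ga a b X α hα) (gb a b X β hβ) y).card = 3 := by
  have hn := ex_ne a b hne hc h2 X α β hαβ hX
  rw [← hc y.1, starS, starS, Finset.card_filter, Finset.card_filter, Fintype.sum_option,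
    sum_split a b X α β hαβ hX]
  have t1 : ∑ e : IE a b Xᶜ, (if a e.1 = y.1 ∨ b e.1 = y.1 then 1 else 0) = 0 := by
    apply Finset.sum_eq_zero
    intro e _
    rw [if_neg]
    rintro (h | h)
    · have := e.2.1; rw [h] at this; exact (Finset.mem_compl.mp this) y.2
    · have := e.2.2; rw [h] at this; exact (Finset.mem_compl.mp this) y.2
  rw [t1, add_zero, add_comm]
  congr 1
  · refine Finset.sum_congr rfl fun e _ => ?_
    simp only [ga, gb, Subtype.ext_iff]
  · simp only [ex_iff hα y.2, ex_iff hβ y.2, ga, gb, Subtype.ext_iff]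
    by_cases h1 : ex a b X α = y.1
    · have h2 : ¬ ex a b X β = y.1 := fun h => hn (h1.trans h.symm)
      simp [h1, h2]
    · by_cases h2 : ex a b X β = y.1 <;> simp [h1, h2]

lemma g2_cut (a b : E → V)
    (h2 : ∀ A : Finset V, A.Nonempty → Aᶜ.Nonempty → 2 ≤ cut a b A)
    (X : Finset V) (α β : E) (hαβ : α ≠ β) (hX : cutS a b X = {α, β})
    (hα : α ∈ cutS a b X) (hβ : β ∈ cutS a b X) (A : Finset {x // x ∈ X})
    (hA : A.Nonempty) (hA' : Aᶜ.Nonempty) :
    2 ≤ cut (ga a b X α hα) (gb a b X β hβ) A := by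
  set B : Finset V := A.map (Function.Embedding.subtype _) with hB
  have hmem : ∀ x (hx : x ∈ X), x ∈ B ↔ (⟨x, hx⟩ : {x // x ∈ X}) ∈ A := by
    intro x hx
    simp [hB, hx]
  have hBX : B ⊆ X := by
    intro x hx
    rw [hB, Finset.mem_map] at hx
    obtain ⟨y, _, rfl⟩ := hx
    exact y.2
  have hBne : B.Nonempty := by
    obtain ⟨y, hy⟩ := hA
    exact ⟨y.1, (hmem y.1 y.2).mpr hy⟩
  have hBc : ∃ x ∈ X, x ∉ B := by
    obtain ⟨y, hy⟩ := hA'
    rw [Finset.mem_compl] at hy
    exact ⟨y.1, y.2, fun h => hy ((hmem y.1 y.2).mp h)⟩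
  have hBc' : Bᶜ.Nonempty := by
    obtain ⟨x, _, hx⟩ := hBc
    exact ⟨x, Finset.mem_compl.mpr hx⟩
  have hBX' : (B ∪ Xᶜ)ᶜ.Nonempty := by
    obtain ⟨x, hx1, hx2⟩ := hBc
    exact ⟨x, by simp [hx1, hx2]⟩
  have c1 : cut (ga a b X α hα) (gb a b X β hβ) A =
      (if ¬ (ex a b X α ∈ B ↔ ex a b X β ∈ B) then 1 else 0) +
      ∑ e : IE a b X, (if ¬ (a e.1 ∈ B ↔ b e.1 ∈ B) then 1 else 0) := by
    rw [cut, cutS, Finset.card_filter, Fintype.sum_option]
    congr 1
    · exact if_congr (not_congr (iff_congr (hmem _ (ex_mem hα)).symm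
        (hmem _ (ex_mem hβ)).symm)) rfl rfl
    · refine Finset.sum_congr rfl fun e _ => ?_
      exact if_congr (not_congr (iff_congr (hmem _ e.2.1).symm (hmem _ e.2.2).symm)) rfl rfl
  have c2 : cut a b B = ∑ e : IE a b X, (if ¬ (a e.1 ∈ B ↔ b e.1 ∈ B) then 1 else 0) +
      ((if ex a b X α ∈ B then 1 else 0) + (if ex a b X β ∈ B then 1 else 0)) := by
    rw [cut, cutS, Finset.card_filter, sum_split a b X α β hαβ hX]
    have t1 : ∑ e : IE a b Xᶜ, (if ¬ (a e.1 ∈ B ↔ b e.1 ∈ B) then 1 else 0) = 0 := by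
      apply Finset.sum_eq_zero
      intro e _
      rw [if_neg]
      rw [not_not]
      have h1 := Finset.mem_compl.mp e.2.1
      have h2 := Finset.mem_compl.mp e.2.2
      exact ⟨fun h => absurd (hBX h) h1, fun h => absurd (hBX h) h2⟩
    rw [t1, add_zero]
    congr 2
    · have := ex_cut hα hBX
      rw [mem_cutS] at this
      exact if_congr this rfl rfl
    · have := ex_cut hβ hBX
      rw [mem_cutS] at this
      exact if_congr this rfl rfl
  have c3 : cut a b (B ∪ Xᶜ) =
      ∑ e : IE a b X, (if ¬ (a e.1 ∈ B ↔ b e.1 ∈ B) then 1 else 0) +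
      ((if ex a b X α ∈ B then 0 else 1) + (if ex a b X β ∈ B then 0 else 1)) := by
    rw [cut, cutS, Finset.card_filter, sum_split a b X α β hαβ hX]
    have t1 : ∑ e : IE a b Xᶜ, (if ¬ (a e.1 ∈ B ∪ Xᶜ ↔ b e.1 ∈ B ∪ Xᶜ) then 1 else 0) = 0 := by
      apply Finset.sum_eq_zero
      intro e _
      rw [if_neg]
      rw [not_not]
      exact ⟨fun _ => Finset.mem_union_right _ e.2.2, fun _ => Finset.mem_union_right _ e.2.1⟩
    rw [t1, add_zero]
    congr 1
    · refine Finset.sum_congr rfl fun e _ => ?_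
      have h1 := e.2.1
      have h2 := e.2.2
      refine if_congr ?_ rfl rfl
      simp only [Finset.mem_union, Finset.mem_compl, h1, h2, not_true_eq_false, or_false]
    · congr 1
      · have := ex_cut' hα hBX
        rw [mem_cutS] at this
        rw [if_congr this rfl rfl]
        by_cases h : ex a b X α ∈ B <;> simp [h]
      · have := ex_cut' hβ hBX
        rw [mem_cutS] at this
        rw [if_congr this rfl rfl]
        by_cases h : ex a b X β ∈ B <;> simp [h]
  have d2 := h2 B hBne hBc'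
  have d3 := h2 (B ∪ Xᶜ) (hBne.mono Finset.subset_union_left) hBX'
  rw [c1]
  rw [c2] at d2
  rw [c3] at d3
  by_cases g1 : ex a b X α ∈ B <;> by_cases g2 : ex a b X β ∈ B <;>
    simp only [g1, g2, if_true, if_false, not_true_eq_false, iff_true, iff_false,
      not_false_eq_true, iff_self] at d2 d3 ⊢ <;> omega

lemma glue2_unique (a b : E → V) (hne : ∀ e, a e ≠ b e) (hc : ∀ x, (starS a b x).card = 3)
    (h2 : ∀ A : Finset V, A.Nonempty → Aᶜ.Nonempty → 2 ≤ cut a b A)
    (X : Finset V) (α β : E) (hαβ : α ≠ β) (hX : cutS a b X = {α, β})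
    (hα : α ∈ cutS a b X) (hβ : β ∈ cutS a b X)
    (l1 : Option (IE a b X) → Fin 4) (hl1 : GoodL (ga a b X α hα) (gb a b X β hβ) l1)
    (l : E → Fin 4) (h1 : ∀ e h, l e = l1 (some ⟨e, h⟩))
    (h1α : l α = l1 none) (h1β : l β = l1 none) (x : V) (hx : x ∈ X) :
    ∃! e, l e ≠ 0 ∧ (a e = x ∨ b e = x) := by
  have hn := ex_ne a b hne hc h2 X α β hαβ hX
  have h3 := hl1.1 ⟨x, hx⟩
  rw [existsUnique_iff_sum, Fintype.sum_option] at h3
  rw [existsUnique_iff_sum, sum_split a b X α β hαβ hX]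
  refine Eq.trans ?_ h3
  have t1 : ∑ e : IE a b Xᶜ, (if l e.1 ≠ 0 ∧ (a e.1 = x ∨ b e.1 = x) then 1 else 0) = 0 := by
    apply Finset.sum_eq_zero
    intro e _
    rw [if_neg]
    rintro ⟨_, h | h⟩
    · have := e.2.1; rw [h] at this; exact (Finset.mem_compl.mp this) hx
    · have := e.2.2; rw [h] at this; exact (Finset.mem_compl.mp this) hx
  rw [t1, add_zero, add_comm]
  congr 1
  · have g1 : (l α ≠ 0 ∧ (a α = x ∨ b α = x)) ↔ (l1 none ≠ 0 ∧ ex a b X α = x) := by
      rw [ex_iff hα hx, h1α]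
    have g2 : (l β ≠ 0 ∧ (a β = x ∨ b β = x)) ↔ (l1 none ≠ 0 ∧ ex a b X β = x) := by
      rw [ex_iff hβ hx, h1β]
    have g3 : (l1 none ≠ 0 ∧ (ga a b X α hα none = ⟨x, hx⟩ ∨ gb a b X β hβ none = ⟨x, hx⟩)) ↔
        (l1 none ≠ 0 ∧ (ex a b X α = x ∨ ex a b X β = x)) := by
      simp only [ga, gb, Subtype.ext_iff]
    rw [if_congr g1 rfl rfl, if_congr g2 rfl rfl, if_congr g3 rfl rfl]
    by_cases h1 : ex a b X α = x
    · have h2 : ¬ ex a b X β = x := fun h => hn (h1.trans h.symm)
      by_cases h0 : l1 none = 0 <;> simp [h1, h2, h0]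
    · by_cases h2 : ex a b X β = x <;> by_cases h0 : l1 none = 0 <;> simp [h1, h2, h0]
  · refine Finset.sum_congr rfl fun e _ => ?_
    refine if_congr ?_ rfl rfl
    rw [h1 e.1 e.2]
    simp only [ga, gb, Subtype.ext_iff]

lemma glue2_sum (a b : E → V) (X : Finset V) (α β : E)
    (hα : α ∈ cutS a b X) (hβ : β ∈ cutS a b X)
    (l1 : Option (IE a b X) → Fin 4) (hl1 : GoodL (ga a b X α hα) (gb a b X β hβ) l1)
    (l : E → Fin 4) (h1 : ∀ e h, l e = l1 (some ⟨e, h⟩))
    (h1α : l α = l1 none) (c : V → ZMod 2) (hcc : ∀ e, l e = 0 → c (a e) = c (b e))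
    (hαβ' : l α = 0 → c (ex a b X α) = c (ex a b X β)) (i : Fin 4) (hi : i ≠ 0) :
    ∑ e : IE a b X, (if l e.1 = i then c (a e.1) + c (b e.1) else 0) +
      (if l α = i then c (ex a b X α) + c (ex a b X β) else 0) = ∑ x ∈ X, c x := by
  have h3 := hl1.2 i hi (fun x => c x.1) (by
    intro e he
    rcases e with _ | e
    · exact hαβ' (h1α.trans he)
    · exact hcc e.1 ((h1 e.1 e.2).trans he))
  rw [Fintype.sum_option] at h3
  have h4 : ∑ x : {x // x ∈ X}, c x.1 = ∑ x ∈ X, c x := Finset.sum_coe_sort X c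
  rw [← h4, ← h3, add_comm]
  congr 1
  · rw [h1α]; rfl
  · refine Finset.sum_congr rfl fun e _ => ?_
    rw [h1 e.1 e.2]
    rfl

theorem glue2 (a b : E → V) (hne : ∀ e, a e ≠ b e) (hc : ∀ x, (starS a b x).card = 3)
    (h2 : ∀ A : Finset V, A.Nonempty → Aᶜ.Nonempty → 2 ≤ cut a b A)
    (X : Finset V) (α β : E) (hαβ : α ≠ β) (hX : cutS a b X = {α, β})
    (hα : α ∈ cutS a b X) (hβ : β ∈ cutS a b X)
    (hα' : α ∈ cutS a b Xᶜ) (hβ' : β ∈ cutS a b Xᶜ)
    (l1 : Option (IE a b X) → Fin 4) (hl1 : GoodL (ga a b X α hα) (gb a b X β hβ) l1)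
    (l2 : Option (IE a b Xᶜ) → Fin 4) (hl2 : GoodL (ga a b Xᶜ α hα') (gb a b Xᶜ β hβ') l2)
    (l : E → Fin 4) (h1 : ∀ e h, l e = l1 (some ⟨e, h⟩)) (h1α : l α = l1 none)
    (h1β : l β = l1 none)
    (h2' : ∀ e h, l e = l2 (some ⟨e, h⟩)) (h2α : l α = l2 none) (h2β : l β = l2 none) :
    GoodL a b l := by
  have hX' : cutS a b Xᶜ = {α, β} := by rw [cutS_compl]; exact hX
  have hu : ∀ x, ∃! e, l e ≠ 0 ∧ (a e = x ∨ b e = x) := by
    intro x
    by_cases hx : x ∈ X
    · exact glue2_unique a b hne hc h2 X α β hαβ hX hα hβ l1 hl1 l h1 h1α h1β x hx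
    · exact glue2_unique a b hne hc h2 Xᶜ α β hαβ hX' hα' hβ' l2 hl2 l h2' h2α h2β x
        (Finset.mem_compl.mpr hx)
  refine ⟨hu, ?_⟩
  intro i hi c hcc
  have key : ∀ Y : Finset V, l α = 0 → cutS a b Y = {α, β} →
      c (ex a b Y α) = c (ex a b Y β) := by
    intro Y h0 hY
    have hβ0 : l β = 0 := by rw [h1β, ← h1α]; exact h0
    have hpar := par a b hne hc l hu c hcc Y
    rw [hY, Finset.sum_pair hαβ, if_pos h0, if_pos hβ0] at hpar
    have e1 : c (ex a b Y α) = c (a α) := by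
      unfold ex; split_ifs
      · rfl
      · exact (hcc α h0).symm
    have e2 : c (ex a b Y β) = c (a β) := by
      unfold ex; split_ifs
      · rfl
      · exact (hcc β hβ0).symm
    rw [e1, e2]
    have key : ∀ s t : ZMod 2, s + t = 0 → s = t := by decide
    exact key _ _ hpar
  have s1 := glue2_sum a b X α β hα hβ l1 hl1 l h1 h1α c hcc (fun h => key X h hX) i hi
  have s2 := glue2_sum a b Xᶜ α β hα' hβ' l2 hl2 l h2' h2α c hcc (fun h => key Xᶜ h hX') i hi
  rw [sum_split a b X α β hαβ hX, ← Finset.sum_add_sum_compl X c, ← s1, ← s2]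
  have hlαβ : l β = l α := h1β.trans h1α.symm
  rw [hlαβ]
  have f1 := ex_sum a b X α c
  have f2 := ex_sum a b X β c
  by_cases h : l α = i
  · rw [if_pos h, if_pos h, if_pos h, if_pos h, ← f1, ← f2]
    ring
  · rw [if_neg h, if_neg h, if_neg h, if_neg h]
    ring

end Pool.Agent.helper60.ECD
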