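import Mathlib
import Pool.Agent.helper60.ECD.Glue2

/-!
# Existence of good labellings in bridgeless connected cubic multigraphs
-/

namespace Pool.Agent.helper60.ECD

open Finset

set_option linter.unusedSectionVars false

universe u v

section steps

variable {V : Type u} {E : Type v} [Fintype V] [Fintype E] [DecidableEq V] [DecidableEq E]

/-- for every edge there is a good labelling in which the label of the edge is nonzero -/
def HasGood (a b : E → V) : Prop := ∀ e0, ∃ l, GoodL a b l ∧ l e0 ≠ 0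

lemma exists_with (a b : E → V) (hc : ∀ x, (starS a b x).card = 3) (H : HasGood a b) (f : E)
    (v : Fin 4) : ∃ l, GoodL a b l ∧ l f = v := by
  by_cases hv : v = 0
  · have hf : f ∈ starS a b (a f) := mem_starS.mpr (Or.inl rfl)
    have h1 : ((starS a b (a f)).erase f).Nonempty := by
      rw [← Finset.card_pos, Finset.card_erase_of_mem hf, hc]
      omega
    obtain ⟨g, hg⟩ := h1
    rw [Finset.mem_erase, mem_starS] at hg
    obtain ⟨l, hl, hlg⟩ := H g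
    refine ⟨l, hl, ?_⟩
    rw [hv]
    by_contra h0
    exact hg.1 ((hl.1 (a f)).unique ⟨hlg, hg.2⟩ ⟨h0, Or.inl rfl⟩)
  · obtain ⟨l, hl, hlf⟩ := H f
    refine ⟨fun e => Equiv.swap (l f) v (l e), hl.perm _ ?_, ?_⟩
    · exact Equiv.swap_apply_of_ne_of_ne (Ne.symm hlf) (Ne.symm hv)
    · exact Equiv.swap_apply_left _ _

lemma step2 (a b : E → V) (hne : ∀ e, a e ≠ b e) (hc : ∀ x, (starS a b x).card = 3)
    (h2 : ∀ A : Finset V, A.Nonempty → Aᶜ.Nonempty → 2 ≤ cut a b A)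
    (X : Finset V) (α β : E) (hαβ : α ≠ β) (hX : cutS a b X = {α, β})
    (hα : α ∈ cutS a b X) (hβ : β ∈ cutS a b X)
    (hα' : α ∈ cutS a b Xᶜ) (hβ' : β ∈ cutS a b Xᶜ)
    (H1 : HasGood (ga a b X α hα) (gb a b X β hβ))
    (H2 : HasGood (ga a b Xᶜ α hα') (gb a b Xᶜ β hβ'))
    (e0 : E) (he0 : ¬ (a e0 ∈ Xᶜ ∧ b e0 ∈ Xᶜ)) : ∃ l, GoodL a b l ∧ l e0 ≠ 0 := by
  have hX' : cutS a b Xᶜ = {α, β} := by rw [cutS_compl]; exact hX
  obtain ⟨l1, hl1, hl1e⟩ := H1 (if h : a e0 ∈ X ∧ b e0 ∈ X then some ⟨e0, h⟩ else none)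
  obtain ⟨l2, hl2, hl2e⟩ := exists_with _ _
    (g2_deg a b hne hc h2 Xᶜ α β hαβ hX' hα' hβ') H2 none (l1 none)
  have hdis : ∀ e, a e ∈ Xᶜ ∧ b e ∈ Xᶜ → ¬ (a e ∈ X ∧ b e ∈ X) := by
    rintro e ⟨h, _⟩ ⟨h', _⟩
    exact (Finset.mem_compl.mp h) h'
  have hcutno : ∀ e, e ∈ cutS a b X → ¬ (a e ∈ X ∧ b e ∈ X) ∧ ¬ (a e ∈ Xᶜ ∧ b e ∈ Xᶜ) := by
    intro e he
    rw [mem_cutS] at he
    rw [Finset.mem_compl, Finset.mem_compl]
    tauto
  let l : E → Fin 4 := fun e => if h : a e ∈ X ∧ b e ∈ X then l1 (some ⟨e, h⟩) else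
    if h' : a e ∈ Xᶜ ∧ b e ∈ Xᶜ then l2 (some ⟨e, h'⟩) else l1 none
  have hl_in : ∀ e (h : a e ∈ X ∧ b e ∈ X), l e = l1 (some ⟨e, h⟩) := fun e h => dif_pos h
  have hl_out : ∀ e (h : a e ∈ Xᶜ ∧ b e ∈ Xᶜ), l e = l2 (some ⟨e, h⟩) := by
    intro e h
    show (if h : a e ∈ X ∧ b e ∈ X then l1 (some ⟨e, h⟩) else
      if h' : a e ∈ Xᶜ ∧ b e ∈ Xᶜ then l2 (some ⟨e, h'⟩) else l1 none) = _
    rw [dif_neg (hdis e h), dif_pos h]
  have hl_cut : ∀ e, e ∈ cutS a b X → l e = l1 none := by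
    intro e h
    show (if h : a e ∈ X ∧ b e ∈ X then l1 (some ⟨e, h⟩) else
      if h' : a e ∈ Xᶜ ∧ b e ∈ Xᶜ then l2 (some ⟨e, h'⟩) else l1 none) = _
    rw [dif_neg (hcutno e h).1, dif_neg (hcutno e h).2]
  refine ⟨l, ?_, ?_⟩
  · exact glue2 a b hne hc h2 X α β hαβ hX hα hβ hα' hβ' l1 hl1 l2 hl2 l hl_in (hl_cut α hα)
      (hl_cut β hβ) hl_out ((hl_cut α hα).trans hl2e.symm) ((hl_cut β hβ).trans hl2e.symm)
  · by_cases h : a e0 ∈ X ∧ b e0 ∈ X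
    · rw [hl_in e0 h]
      rw [dif_pos h] at hl1e
      exact hl1e
    · have : e0 ∈ cutS a b X := by
        rw [mem_cutS]
        rw [Finset.mem_compl, Finset.mem_compl] at he0
        tauto
      rw [hl_cut e0 this]
      rw [dif_neg h] at hl1e
      exact hl1e

lemma step3 (a b : E → V) (hne : ∀ e, a e ≠ b e) (hc : ∀ x, (starS a b x).card = 3)
    (X : Finset V) (hX : cut a b X = 3)
    (H1 : HasGood (ca a b X) (cb a b X)) (H2 : HasGood (ca a b Xᶜ) (cb a b Xᶜ))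
    (e0 : E) (he0 : a e0 ∈ X ∨ b e0 ∈ X) : ∃ l, GoodL a b l ∧ l e0 ≠ 0 := by
  have hX' : cut a b Xᶜ = 3 := by rw [cut_compl]; exact hX
  obtain ⟨l1, hl1, hl1e⟩ := H1 ⟨e0, he0⟩
  obtain ⟨e1, ⟨he1, he1'⟩, he1u⟩ := hl1.1 none
  have hcutboth : ∀ e, (a e ∈ X ∨ b e ∈ X) → (a e ∈ Xᶜ ∨ b e ∈ Xᶜ) → e ∈ cutS a b X ∨
      (a e ∈ X ∧ b e ∈ X ∧ (a e ∈ Xᶜ ∨ b e ∈ Xᶜ)) := by
    intro e h h'
    rw [mem_cutS]
    tauto
  have hcutmem : ∀ e, (a e ∈ X ∨ b e ∈ X) → (a e ∈ Xᶜ ∨ b e ∈ Xᶜ) → e ∈ cutS a b X := by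
    intro e h h'
    rw [mem_cutS]
    rw [Finset.mem_compl, Finset.mem_compl] at h'
    tauto
  have hnone1 : ∀ e (h : a e ∈ X ∨ b e ∈ X), e ∈ cutS a b X →
      (ca a b X ⟨e, h⟩ = none ∨ cb a b X ⟨e, h⟩ = none) := by
    intro e h he
    rw [mem_cutS] at he
    unfold ca cb
    rw [qq_none, qq_none]
    show a e ∉ X ∨ b e ∉ X
    tauto
  have hnone2 : ∀ e (h : a e ∈ Xᶜ ∨ b e ∈ Xᶜ), e ∈ cutS a b X →
      (ca a b Xᶜ ⟨e, h⟩ = none ∨ cb a b Xᶜ ⟨e, h⟩ = none) := by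
    intro e h he
    rw [mem_cutS] at he
    unfold ca cb
    rw [qq_none, qq_none]
    show a e ∉ Xᶜ ∨ b e ∉ Xᶜ
    rw [Finset.mem_compl, Finset.mem_compl]
    tauto
  have he1c : e1.1 ∈ cutS a b X := by
    unfold ca cb at he1'
    rw [qq_none, qq_none] at he1'
    have := e1.2
    rw [mem_cutS]
    tauto
  have he1m : a e1.1 ∈ Xᶜ ∨ b e1.1 ∈ Xᶜ := by
    rw [mem_cutS] at he1c
    rw [Finset.mem_compl, Finset.mem_compl]
    tauto
  obtain ⟨l2, hl2, hl2e⟩ := exists_with _ _ (ce_deg a b hc Xᶜ hX') H2 ⟨e1.1, he1m⟩ (l1 e1)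
  have hagree : ∀ e (h : a e ∈ X ∨ b e ∈ X) (h' : a e ∈ Xᶜ ∨ b e ∈ Xᶜ),
      l1 ⟨e, h⟩ = l2 ⟨e, h'⟩ := by
    intro e h h'
    have hec := hcutmem e h h'
    by_cases hee : e = e1.1
    · subst hee
      rw [hl2e]
    · have g1 : l1 ⟨e, h⟩ = 0 := by
        by_contra h0
        have := he1u ⟨e, h⟩ ⟨h0, hnone1 e h hec⟩
        exact hee (by rw [← this])
      have g2 : l2 ⟨e, h'⟩ = 0 := by
        by_contra h0
        have := (hl2.1 none).unique ⟨h0, hnone2 e h' hec⟩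
          (⟨by rw [hl2e]; exact he1, hnone2 e1.1 he1m he1c⟩ :
            l2 ⟨e1.1, he1m⟩ ≠ 0 ∧ (ca a b Xᶜ ⟨e1.1, he1m⟩ = none ∨ cb a b Xᶜ ⟨e1.1, he1m⟩ = none))
        exact hee (congrArg Subtype.val this)
      rw [g1, g2]
  let l : E → Fin 4 := fun e => if h : a e ∈ X ∨ b e ∈ X then l1 ⟨e, h⟩ else
    l2 ⟨e, by
      rw [not_or] at h
      exact Or.inl (Finset.mem_compl.mpr h.1)⟩
  have hl_1 : ∀ e h, l e = l1 ⟨e, h⟩ := fun e h => dif_pos h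
  have hl_2 : ∀ e h, l e = l2 ⟨e, h⟩ := by
    intro e h
    by_cases h' : a e ∈ X ∨ b e ∈ X
    · rw [hl_1 e h']; exact hagree e h' h
    · exact dif_neg h'
  exact ⟨l, glue3 a b hne hc X hX l1 hl1 l2 hl2 l hl_1 hl_2, by rw [hl_1 e0 he0]; exact hl1e⟩

end steps

theorem exists_good_aux (n : ℕ) : ∀ (V : Type u) (E : Type v) [Fintype V] [Fintype E]
    [DecidableEq V] [DecidableEq E], Fintype.card V = n → ∀ (a b : E → V), (∀ e, a e ≠ b e) →
    (∀ x, (starS a b x).card = 3) →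
    (∀ A : Finset V, A.Nonempty → Aᶜ.Nonempty → 2 ≤ cut a b A) → HasGood a b := by
  induction n using Nat.strong_induction_on with
  | _ n IH =>
  intro V E _ _ _ _ hn a b hne hc h2 e0
  by_cases case2 : ∃ X : Finset V, X.Nonempty ∧ Xᶜ.Nonempty ∧ cut a b X = 2
  · obtain ⟨X, hX1, hX2, hX⟩ := case2
    obtain ⟨α, β, hαβ, hXαβ⟩ := Finset.card_eq_two.mp hX
    have key : ∀ (Y : Finset V) (_ : Y.Nonempty) (hY2 : Yᶜ.Nonempty)
        (hY : cutS a b Y = {α, β}) (hα : α ∈ cutS a b Y) (hβ : β ∈ cutS a b Y),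
        HasGood (ga a b Y α hα) (gb a b Y β hβ) := by
      intro Y hY1 hY2 hY hα hβ
      refine IH Y.card ?_ _ _ ?_ _ _ (g2_ne a b hne hc h2 Y α β hαβ hY hα hβ)
        (g2_deg a b hne hc h2 Y α β hαβ hY hα hβ) (g2_cut a b h2 Y α β hαβ hY hα hβ)
      · rw [← hn]
        have h3 := Finset.card_compl_add_card Y
        have h4 := Finset.card_pos.mpr hY2
        omega
      · exact Fintype.card_coe Y
    have hα : α ∈ cutS a b X := by rw [hXαβ]; simp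
    have hβ : β ∈ cutS a b X := by rw [hXαβ]; simp
    have hX' : cutS a b Xᶜ = {α, β} := by rw [cutS_compl]; exact hXαβ
    have hX'' : cutS a b Xᶜᶜ = {α, β} := by rw [cutS_compl]; exact hX'
    have hα' : α ∈ cutS a b Xᶜ := by rw [hX']; simp
    have hβ' : β ∈ cutS a b Xᶜ := by rw [hX']; simp
    have hα'' : α ∈ cutS a b Xᶜᶜ := by rw [hX'']; simp
    have hβ'' : β ∈ cutS a b Xᶜᶜ := by rw [hX'']; simp
    have hX1' : Xᶜᶜ.Nonempty := by rw [compl_compl]; exact hX1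
    have hX2' : Xᶜᶜᶜ.Nonempty := by rw [compl_compl]; exact hX2
    by_cases he0 : a e0 ∈ Xᶜ ∧ b e0 ∈ Xᶜ
    · refine step2 a b hne hc h2 Xᶜ α β hαβ hX' hα' hβ' hα'' hβ''
        (key _ hX2 hX1' hX' _ _) (key _ hX1' hX2' hX'' _ _) e0 ?_
      rintro ⟨h, _⟩
      exact (Finset.mem_compl.mp h) he0.1
    · exact step2 a b hne hc h2 X α β hαβ hXαβ hα hβ hα' hβ'
        (key _ hX1 hX2 hXαβ _ _) (key _ hX2 hX1' hX' _ _) e0 he0
  · by_cases case3 : ∃ X : Finset V, 2 ≤ X.card ∧ 2 ≤ Xᶜ.card ∧ cut a b X = 3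
    · obtain ⟨X, hX1, hX2, hX⟩ := case3
      have key : ∀ (Y : Finset V), 2 ≤ Yᶜ.card → cut a b Y = 3 →
          HasGood (ca a b Y) (cb a b Y) := by
        intro Y hY2 hY
        refine IH (Y.card + 1) ?_ _ _ ?_ _ _ (ce_ne a b hne Y) (ce_deg a b hc Y hY)
          (ce_two a b h2 Y (Finset.card_pos.mp (by omega)))
        · rw [← hn]
          have h3 := Finset.card_compl_add_card Y
          omega
        · exact ce_card Y
      have hX1' : 2 ≤ Xᶜᶜ.card := by rw [compl_compl]; exact hX1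
      have hX2' : 2 ≤ Xᶜᶜᶜ.card := by rw [compl_compl]; exact hX2
      have hX' : cut a b Xᶜ = 3 := by rw [cut_compl]; exact hX
      have hX'' : cut a b Xᶜᶜ = 3 := by rw [cut_compl]; exact hX'
      by_cases he0 : a e0 ∈ X ∨ b e0 ∈ X
      · exact step3 a b hne hc X hX (key _ hX2 hX) (key _ hX1' hX') e0 he0
      · refine step3 a b hne hc Xᶜ hX' (key _ hX1' hX') (key _ hX2' hX'') e0 ?_
        rw [not_or] at he0
        exact Or.inl (Finset.mem_compl.mpr he0.1)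
    · refine base_good a b hne hc ?_ ?_ e0
      · intro A hA hA'
        have := h2 A hA hA'
        rcases Nat.lt_or_ge 2 (cut a b A) with h | h
        · exact h
        · exact absurd ⟨A, hA, hA', by omega⟩ case2
      · intro A hA
        by_contra h
        rw [not_or] at h
        exact case3 ⟨A, by omega, by omega, hA⟩

theorem exists_good {V : Type u} {E : Type v} [Fintype V] [Fintype E]
    [DecidableEq V] [DecidableEq E] (a b : E → V) (hne : ∀ e, a e ≠ b e)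
    (hc : ∀ x, (starS a b x).card = 3)
    (h2 : ∀ A : Finset V, A.Nonempty → Aᶜ.Nonempty → 2 ≤ cut a b A) (e0 : E) :
    ∃ l, GoodL a b l ∧ l e0 ≠ 0 :=
  exists_good_aux _ V E rfl a b hne hc h2 e0

end Pool.Agent.helper60.ECD
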